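import Pool.Agent.H1Z.LP.Op

/-!
Bounded solutions on a set of energies of positive measure force an absolutely continuous part.
-/

set_option linter.unusedSectionVars false
set_option linter.deprecated false
set_option linter.unusedSimpArgs false
set_option linter.style.haveILetI false

namespace Pool.Agent.H1Z.LP

open MeasureTheory Filter Topology Polynomial
open scoped InnerProductSpace

theorem IsSpec.cs {F : Type*} [NormedAddCommGroup F] [InnerProductSpace ℂ F] [CompleteSpace F]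
    {H : F →L[ℂ] F} (hH : IsSelfAdjoint H) {ψ : F} {μ : Measure ℝ} (hμ : IsSpec H ψ μ)
    (q : ℝ[X]) (L : ℕ) (hq : q.natDegree ≤ L) (χ : F) :
    ‖∑ i ∈ Finset.range (L + 1), (q.coeff i : ℂ) * ⟪ψ, (H ^ i) χ⟫_ℂ‖ ^ 2 ≤
      ‖χ‖ ^ 2 * ∫ x, q.eval x ^ 2 ∂μ := by
  have h3 : ⟪ψ, (aeval H q) χ⟫_ℂ =
      ∑ i ∈ Finset.range (L + 1), (q.coeff i : ℂ) * ⟪ψ, (H ^ i) χ⟫_ℂ := by
    rw [aeval_eq_sum_range' (Nat.lt_succ_of_le hq), ContinuousLinearMap.sum_apply, inner_sum]
    apply Finset.sum_congr rfl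
    intro i _
    rw [ContinuousLinearMap.smul_apply, ← Complex.coe_smul, inner_smul_right]
  rw [← h3, ← sa_inner (sa_aeval hH q), hμ.poly_sq hH, ← mul_pow, mul_comm]
  exact pow_le_pow_left₀ (norm_nonneg _) (norm_inner_le_norm _ _) 2

theorem iterate_trunc {V c : ℤ → ℝ} {E : ℝ}
    (hc : ∀ n, c (n + 1) + c (n - 1) + V n * c n = E * c n) (χ : ℤ → ℂ) (L : ℕ)
    (hχ : ∀ j : ℤ, |j| ≤ L → χ j = c j) (k : ℕ) :
    ∀ j : ℤ, |j| + k ≤ L → (step V)^[k] χ j = (E : ℂ) ^ k * c j := by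
  induction k with
  | zero => intro j hj; simpa using hχ j (by simpa using hj)
  | succ k ih =>
    intro j hj
    push_cast at hj
    have a1 : |j + 1| ≤ |j| + 1 := by simpa using abs_add_le j 1
    have a2 : |j - 1| ≤ |j| + 1 := by simpa using abs_sub j 1
    rw [Function.iterate_succ_apply', step, ih (j + 1) (by linarith), ih (j - 1) (by linarith),
      ih j (by linarith)]
    have := congrArg (fun x : ℝ => (x : ℂ)) (hc j)
    push_cast at this
    linear_combination (E : ℂ) ^ k * this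

theorem christoffel {V : ℤ → ℝ} {C : ℝ} (hC : ∀ n, |V n| ≤ C) {H : L2 →L[ℂ] L2} (hH : IsOp V H)
    {μ : Measure ℝ} (hμ : IsSpec H (dl 0) μ) {c : ℤ → ℝ} {E B : ℝ}
    (hc : ∀ n, c (n + 1) + c (n - 1) + V n * c n = E * c n) (h0 : c 0 = 1) (hB : ∀ n, |c n| ≤ B)
    (q : ℝ[X]) (L : ℕ) (hq : q.natDegree ≤ L) :
    q.eval E ^ 2 ≤ (2 * L + 1) * B ^ 2 * ∫ x, q.eval x ^ 2 ∂μ := by
  classical
  set χ : L2 := ∑ i ∈ Finset.Icc (-(L : ℤ)) L, lp.single 2 i (c i : ℂ) with hχ
  have h1 : ∀ j : ℤ, |j| ≤ L → χ j = c j := by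
    intro j hj
    simp only [hχ, lp.coeFn_single, lp.coeFn_sum, Finset.sum_apply, Finset.sum_pi_single]
    rw [if_pos (Finset.mem_Icc.2 (abs_le.1 hj))]
  have h2 : ‖χ‖ ^ 2 ≤ (2 * L + 1) * B ^ 2 := by
    have := lp.norm_sum_single (p := 2) (E := fun _ : ℤ => ℂ) (by norm_num) (fun i => (c i : ℂ))
      (Finset.Icc (-(L : ℤ)) L)
    simp only [ENNReal.toReal_ofNat, Real.rpow_two] at this
    rw [this]
    have h3 := Finset.sum_le_card_nsmul (Finset.Icc (-(L : ℤ)) L) (fun i => ‖(c i : ℂ)‖ ^ 2) (B ^ 2)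
      (fun i _ => by
        rw [Complex.norm_real, Real.norm_eq_abs]
        exact pow_le_pow_left₀ (abs_nonneg _) (hB i) 2)
    refine h3.trans (le_of_eq ?_)
    rw [Int.card_Icc, show (L : ℤ) + 1 - -L = ((2 * L + 1 : ℕ) : ℤ) by push_cast; ring,
      Int.toNat_natCast, nsmul_eq_mul]
    push_cast
    ring
  have h3 : ∑ i ∈ Finset.range (L + 1), (q.coeff i : ℂ) * ⟪dl 0, (H ^ i) χ⟫_ℂ =
      ((q.eval E : ℝ) : ℂ) := by
    rw [eval_eq_sum_range' (Nat.lt_succ_of_le hq), Complex.ofReal_sum]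
    apply Finset.sum_congr rfl
    intro i hi
    rw [Finset.mem_range] at hi
    rw [inner_dl, hH.pow_apply, iterate_trunc hc χ L h1 i 0 (by simp; omega), h0]
    simp
  have h4 := hμ.cs (hH.sa hC) q L hq χ
  rw [h3, Complex.norm_real, Real.norm_eq_abs, sq_abs] at h4
  exact h4.trans (mul_le_mul_of_nonneg_right h2 (integral_nonneg fun x => sq_nonneg _))

/-- the second kind three term recursion -/
def cheb {R : Type} [CommRing R] (y : R) : ℕ → R
  | 0 => 0
  | 1 => 1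
  | (k + 2) => 2 * y * cheb y (k + 1) - cheb y k

theorem cheb_eval (y : ℝ[X]) (x : ℝ) (k : ℕ) : (cheb y k).eval x = cheb (y.eval x) k := by
  induction k using Nat.twoStepInduction with
  | zero => simp [cheb]
  | one => simp [cheb]
  | more k h1 h2 => simp [cheb, h1, h2]

theorem cheb_deg (y : ℝ[X]) (hy : y.natDegree ≤ 2) (k : ℕ) : (cheb y k).natDegree ≤ 2 * k := by
  induction k using Nat.twoStepInduction with
  | zero => simp [cheb]
  | one => simp [cheb]
  | more k h1 h2 =>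
    simp only [cheb]
    refine (natDegree_sub_le _ _).trans (max_le ?_ (by omega))
    refine natDegree_mul_le.trans ?_
    have : (2 * y).natDegree ≤ 2 := natDegree_mul_le.trans (by simpa using hy)
    omega

theorem cheb_one (k : ℕ) : cheb (1 : ℝ) k = k := by
  induction k using Nat.twoStepInduction with
  | zero => simp [cheb]
  | one => simp [cheb]
  | more k h1 h2 => simp only [cheb, h1, h2]; push_cast; ring

theorem cheb_inv (y : ℝ) (k : ℕ) :
    (cheb y (k + 1) - y * cheb y k) ^ 2 + (1 - y ^ 2) * cheb y k ^ 2 = 1 := by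
  induction k with
  | zero => simp [cheb]
  | succ k ih => simp only [cheb]; linear_combination ih

theorem cheb_le {y : ℝ} (hy : |y| ≤ 1) (k : ℕ) : |cheb y k| ≤ k := by
  induction k with
  | zero => simp [cheb]
  | succ k ih =>
    have h1 := cheb_inv y k
    have h2 : 0 ≤ 1 - y ^ 2 := by
      rw [← sq_abs]; nlinarith [abs_nonneg y]
    have h3 : |cheb y (k + 1) - y * cheb y k| ≤ 1 := by
      rw [← sq_le_one_iff_abs_le_one]
      nlinarith [mul_nonneg h2 (sq_nonneg (cheb y k))]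
    have h4 := abs_add_le (cheb y (k + 1) - y * cheb y k) (y * cheb y k)
    rw [sub_add_cancel, abs_mul] at h4
    have h5 : |y| * |cheb y k| ≤ 1 * k := mul_le_mul hy ih (abs_nonneg _) zero_le_one
    push_cast
    linarith

theorem cheb_kernel {z : ℝ} (hz : z ^ 2 ≤ 3 / 4) (k : ℕ) :
    cheb (1 - 2 * z ^ 2) k ^ 2 ≤ 2 * (k : ℝ) ^ 2 * (1 + ((k : ℝ) * z) ^ 2)⁻¹ := by
  have h1 := cheb_le (y := 1 - 2 * z ^ 2) (by
    rw [abs_le]; constructor <;> nlinarith [sq_nonneg z]) k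
  have h2 := cheb_inv (1 - 2 * z ^ 2) k
  generalize cheb (1 - 2 * z ^ 2) k = s at *
  have h3 : s ^ 2 ≤ k ^ 2 := by
    rw [← sq_abs]; exact pow_le_pow_left₀ (abs_nonneg _) h1 2
  have h4 : z ^ 2 * s ^ 2 ≤ 1 := by
    have a1 : z ^ 2 ≤ 1 - (1 - 2 * z ^ 2) ^ 2 := by nlinarith [sq_nonneg z]
    nlinarith [sq_nonneg (cheb (1 - 2 * z ^ 2) (k + 1) - (1 - 2 * z ^ 2) * s),
      mul_le_mul_of_nonneg_right a1 (sq_nonneg s)]
  rw [← div_eq_mul_inv, le_div_iff₀ (by positivity)]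
  nlinarith [mul_le_mul_of_nonneg_left h4 (sq_nonneg (k : ℝ))]

theorem poisson_lower {V : ℤ → ℝ} {C : ℝ} (hC : ∀ n, |V n| ≤ C) {H : L2 →L[ℂ] L2} (hH : IsOp V H)
    {μ : Measure ℝ} (hμ : IsSpec H (dl 0) μ) {c : ℤ → ℝ} {E B D : ℝ}
    (hc : ∀ n, c (n + 1) + c (n - 1) + V n * c n = E * c n) (h0 : c 0 = 1) (hB : ∀ n, |c n| ≤ B)
    (hD : |E| ≤ D) {t : ℝ} (ht : 0 < t) (ht2 : t * (‖H‖ + D) ≤ 1 / 2) (n : ℕ) (hn : 1 ≤ n) :
    1 ≤ 10 * B ^ 2 * ∫ x, (n : ℝ) * (1 + (((n : ℝ) * t) * (x - E)) ^ 2)⁻¹ ∂μ := by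
  haveI := hμ.1
  have hn' : (1 : ℝ) ≤ n := by exact_mod_cast hn
  set y : ℝ[X] := 1 - Polynomial.C (2 * t ^ 2) * (X - Polynomial.C E) ^ 2 with hy
  have hy1 : ∀ x, y.eval x = 1 - 2 * (t * (x - E)) ^ 2 := by
    intro x
    simp only [hy, eval_sub, eval_one, eval_mul, eval_C, eval_pow, eval_X]
    ring
  have h1 := christoffel hC hH hμ hc h0 hB (cheb y n) (2 * n) (cheb_deg y (by
    rw [hy]; compute_degree) n)
  rw [cheb_eval, hy1, sub_self, mul_zero, zero_pow two_ne_zero, mul_zero, sub_zero, cheb_one] at h1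
  have hint : Integrable (fun x : ℝ => (n : ℝ) * (1 + (((n : ℝ) * t) * (x - E)) ^ 2)⁻¹) μ := by
    refine Integrable.of_bound (Continuous.aestronglyMeasurable ?_) n (ae_of_all _ fun x => ?_)
    · exact continuous_const.mul (Continuous.inv₀ (by fun_prop) (fun x => by positivity))
    · rw [Real.norm_eq_abs, abs_of_nonneg (by positivity)]
      exact mul_le_of_le_one_right (by positivity)
        (inv_le_one_of_one_le₀ (by nlinarith [sq_nonneg (((n : ℝ) * t) * (x - E))]))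
  have h2 : ∫ x, (cheb y n).eval x ^ 2 ∂μ ≤
      ∫ x, 2 * (n : ℝ) * ((n : ℝ) * (1 + (((n : ℝ) * t) * (x - E)) ^ 2)⁻¹) ∂μ := by
    apply integral_mono_of_nonneg (ae_of_all _ fun x => sq_nonneg _) (hint.const_mul _)
    filter_upwards [hμ.supp] with x hx
    rw [cheb_eval, hy1]
    have h3 : |t * (x - E)| ≤ 1 / 2 := by
      rw [abs_mul, abs_of_pos ht]
      refine le_trans (mul_le_mul_of_nonneg_left ((abs_sub x E).trans (add_le_add hx hD)) ht.le) ht2
    refine (cheb_kernel (z := t * (x - E)) (by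
      rw [← sq_abs]; nlinarith [abs_nonneg (t * (x - E))]) n).trans (le_of_eq ?_)
    rw [mul_assoc (n : ℝ) t]
    ring
  rw [integral_const_mul] at h2
  have h4 : 0 ≤ ∫ x, (n : ℝ) * (1 + (((n : ℝ) * t) * (x - E)) ^ 2)⁻¹ ∂μ :=
    integral_nonneg fun x => by positivity
  generalize ∫ x, (n : ℝ) * (1 + (((n : ℝ) * t) * (x - E)) ^ 2)⁻¹ ∂μ = I at *
  push_cast at h1
  have h5 : (n : ℝ) ^ 2 ≤ (5 * n) * B ^ 2 * (2 * n * I) := by
    refine h1.trans ?_
    have := integral_nonneg (μ := μ) (f := fun x => (cheb y n).eval x ^ 2) (fun x => sq_nonneg _)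
    gcongr
    linarith
  have h6 : (n : ℝ) ^ 2 * 1 ≤ (n : ℝ) ^ 2 * (10 * B ^ 2 * I) := by nlinarith
  exact le_of_mul_le_mul_left h6 (by positivity)

theorem poisson_total (x s a : ℝ) (hs : 0 < s) :
    Integrable (fun E : ℝ => a * (1 + (s * (x - E)) ^ 2)⁻¹) ∧
      ∫ E : ℝ, a * (1 + (s * (x - E)) ^ 2)⁻¹ = a * (s⁻¹ * Real.pi) := by
  have h1 := integrable_inv_one_add_sq.comp_mul_left' hs.ne'
  refine ⟨(h1.comp_sub_left x).const_mul a, ?_⟩
  rw [integral_const_mul, integral_sub_left_eq_self (fun E : ℝ => (1 + (s * E) ^ 2)⁻¹) volume x,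
    Measure.integral_comp_mul_left (fun E : ℝ => (1 + E ^ 2)⁻¹) s, integral_univ_inv_one_add_sq,
    abs_of_pos (by positivity), smul_eq_mul]

theorem not_singular {V : ℤ → ℝ} {C : ℝ} (hC : ∀ n, |V n| ≤ C) {H : L2 →L[ℂ] L2} (hH : IsOp V H)
    {μ : Measure ℝ} (hμ : IsSpec H (dl 0) μ) (A : Set ℝ) (hA : MeasurableSet A)
    (hA0 : volume A ≠ 0) (D B : ℝ) (hAD : ∀ E ∈ A, |E| ≤ D)
    (hsol : ∀ E ∈ A, ∃ c : ℤ → ℝ, (∀ n, c (n + 1) + c (n - 1) + V n * c n = E * c n) ∧ c 0 = 1 ∧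
      ∀ n, |c n| ≤ B) : ¬ μ ⟂ₘ volume := by
  haveI := hμ.1
  rintro ⟨S, hS, hS1, hS2⟩
  have hAS : 0 < volume (A ∩ S) := by
    rw [pos_iff_ne_zero]
    intro h
    apply hA0
    refine measure_mono_null (t := (A ∩ S) ∪ Sᶜ) (fun x hx => ?_) (measure_union_null h hS2)
    by_cases hxS : x ∈ S
    · exact Or.inl ⟨hx, hxS⟩
    · exact Or.inr hxS
  obtain ⟨K, hKs, hK, hK0⟩ := (hA.inter hS).exists_lt_isCompact hAS
  haveI : IsFiniteMeasure (volume.restrict K) := ⟨by simpa using hK.measure_lt_top⟩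
  have hKr : 0 < volume.real K := ENNReal.toReal_pos hK0.ne' hK.measure_ne_top
  have hD0 : 0 ≤ D := by
    obtain ⟨E, hE⟩ := nonempty_of_measure_ne_zero hA0
    exact (abs_nonneg _).trans (hAD E hE)
  set t : ℝ := 1 / (2 * (‖H‖ + D + 1)) with htd
  have ht : 0 < t := by positivity
  have ht2 : t * (‖H‖ + D) ≤ 1 / 2 := by
    rw [htd, div_mul_eq_mul_div, div_le_div_iff₀ (by positivity) (by norm_num)]
    linarith
  let P : ℕ → ℝ → ℝ → ℝ := fun n x E =>
    ((n + 1 : ℕ) : ℝ) * (1 + ((((n + 1 : ℕ) : ℝ) * t) * (x - E)) ^ 2)⁻¹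
  have hP0 : ∀ n x E, 0 ≤ P n x E := fun n x E => by simp only [P]; positivity
  have hPi : ∀ n, Integrable (Function.uncurry (P n)) (μ.prod (volume.restrict K)) := by
    intro n
    refine Integrable.of_bound (Continuous.aestronglyMeasurable ?_) ((n + 1 : ℕ) : ℝ)
      (ae_of_all _ fun x => ?_)
    · exact continuous_const.mul (Continuous.inv₀ (by fun_prop) (fun x => by positivity))
    · rw [Real.norm_eq_abs, Function.uncurry, abs_of_nonneg (hP0 _ _ _)]
      exact mul_le_of_le_one_right (by positivity)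
        (inv_le_one_of_one_le₀ (by nlinarith [sq_nonneg ((((n + 1 : ℕ) : ℝ) * t) * (x.1 - x.2))]))
  have hlow : ∀ n, volume.real K ≤ 10 * B ^ 2 * ∫ x, ∫ E in K, P n x E ∂volume ∂μ := by
    intro n
    rw [integral_integral_swap (hPi n), ← integral_const_mul]
    have : volume.real K = ∫ _ in K, (1 : ℝ) := by simp
    rw [this]
    apply setIntegral_mono_on (integrable_const _) ((hPi n).integral_prod_right.const_mul _)
      hK.measurableSet
    intro E hE
    obtain ⟨c, c1, c2, c3⟩ := hsol E (hKs hE).1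
    exact poisson_lower hC hH hμ c1 c2 c3 (hAD E (hKs hE).1) ht ht2 (n + 1) (by omega)
  have hlim : Tendsto (fun n => ∫ x, ∫ E in K, P n x E ∂volume ∂μ) atTop (𝓝 (∫ _, (0 : ℝ) ∂μ)) := by
    refine tendsto_integral_of_dominated_convergence (fun _ => t⁻¹ * Real.pi)
      (fun n => (hPi n).integral_prod_left.aestronglyMeasurable) (integrable_const _)
      (fun n => ae_of_all _ fun x => ?_) ?_
    · have hs : (0 : ℝ) < ((n + 1 : ℕ) : ℝ) * t := by positivity
      obtain ⟨a1, a2⟩ := poisson_total x _ ((n + 1 : ℕ) : ℝ) hs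
      rw [Real.norm_eq_abs, abs_of_nonneg (integral_nonneg fun E => hP0 n x E)]
      refine (setIntegral_le_integral a1 (ae_of_all _ fun E => hP0 n x E)).trans (le_of_eq ?_)
      rw [a2]
      field_simp
    · have hμK : μ K = 0 := measure_mono_null (fun x hx => (hKs hx).2) hS1
      filter_upwards [measure_eq_zero_iff_ae_notMem.1 hμK] with x hx
      obtain ⟨δ, hδ, hball⟩ := Metric.isOpen_iff.1 hK.isClosed.isOpen_compl x hx
      have hb : ∀ n, ∫ E in K, P n x E ∂volume ≤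
          ((t * δ) ^ 2)⁻¹ * volume.real K * (1 / ((n : ℝ) + 1)) := by
        intro n
        have h1 := norm_setIntegral_le_of_norm_le_const (μ := volume) (f := P n x) (s := K)
          (C := ((t * δ) ^ 2)⁻¹ * (1 / ((n : ℝ) + 1))) hK.measure_lt_top (fun E hE => by
            have h2 : δ ≤ |x - E| := by
              by_contra hc
              apply hball (show E ∈ Metric.ball x δ by
                rw [Metric.mem_ball, Real.dist_eq, abs_sub_comm]; exact not_le.1 hc) hE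
            have h3 : δ ^ 2 ≤ (x - E) ^ 2 := by
              rw [← sq_abs (x - E)]; exact pow_le_pow_left₀ hδ.le h2 2
            rw [Real.norm_eq_abs, abs_of_nonneg (hP0 _ _ _)]
            simp only [P]
            push_cast
            rw [← div_eq_mul_inv, div_le_iff₀ (by positivity)]
            have h4 : ((t * δ) ^ 2)⁻¹ * (1 / ((n : ℝ) + 1)) * (((n : ℝ) + 1) * t * δ) ^ 2 =
                (n : ℝ) + 1 := by field_simp
            have h5 : (((n : ℝ) + 1) * t * δ) ^ 2 ≤ 1 + (((n : ℝ) + 1) * t * (x - E)) ^ 2 := by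
              rw [mul_pow, mul_pow _ (x - E)]
              nlinarith [mul_le_mul_of_nonneg_left h3 (sq_nonneg (((n : ℝ) + 1) * t))]
            calc (n : ℝ) + 1 = _ := h4.symm
              _ ≤ _ := mul_le_mul_of_nonneg_left h5 (by positivity))
        refine (le_abs_self _).trans (h1.trans (le_of_eq ?_))
        ring
      have h6 := (tendsto_one_div_add_atTop_nhds_zero_nat (𝕜 := ℝ)).const_mul
        (((t * δ) ^ 2)⁻¹ * volume.real K)
      rw [mul_zero] at h6
      exact squeeze_zero (fun n => integral_nonneg fun E => hP0 n x E) hb h6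
  have h7 := hlim.const_mul (10 * B ^ 2)
  simp only [integral_zero, mul_zero] at h7
  exact absurd (ge_of_tendsto' h7 hlow) (not_le.2 hKr)

end Pool.Agent.H1Z.LP
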