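import Pool.Agent.H1Z.LP.Limit

/-!
A limit-periodic potential with a square summable positive solution and very good repetitions.
-/

set_option linter.unusedSectionVars false
set_option linter.deprecated false
set_option linter.unusedSimpArgs false

namespace Pool.Agent.H1Z.LP

open Finset Filter Topology

/-- reduced periods -/
def dd : ℕ → ℕ
  | 0 => 2
  | (k + 1) => 8 * 2 ^ k * dd k

/-- periods -/
def pp (k : ℕ) : ℕ := 2 ^ k * dd k

theorem dd_ge (k : ℕ) : k + 1 ≤ dd k := by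
  induction k with
  | zero => simp [dd]
  | succ k ih =>
    have : 1 ≤ 2 ^ k := Nat.one_le_two_pow
    simp only [dd]
    nlinarith

theorem dd_le_pp (k : ℕ) : dd k ≤ pp k := by
  have : 1 ≤ 2 ^ k := Nat.one_le_two_pow
  unfold pp
  nlinarith

theorem pp_succ (k : ℕ) : pp (k + 1) = 2 * (8 * 2 ^ k) * pp k := by
  simp only [pp, dd]
  ring

theorem pp_mono (k j : ℕ) : pp k ≤ pp (j + k) := by
  induction j with
  | zero => simp
  | succ j ih =>
    rw [show j + 1 + k = (j + k) + 1 by ring, pp_succ]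
    have : 1 ≤ 2 ^ (j + k) := Nat.one_le_two_pow
    nlinarith

theorem half_pow_le {a b : ℕ} (h : a ≤ b) : (1 / 2 : ℝ) ^ b ≤ (1 / 2) ^ a :=
  pow_le_pow_of_le_one (by norm_num) (by norm_num) h

/-- the patterns -/
noncomputable def PP (k : ℕ) : Pattern :=
  pat (8 * 2 ^ k) ((1 / 2) ^ (pp k + 3 * dd k)) ((1 / 2) ^ (4 * pp k + 2 * dd k))
    (by have : 1 ≤ 2 ^ k := Nat.one_le_two_pow; omega) (by positivity)
    (half_pow_le (by have := dd_le_pp k; omega))
    (by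
      have := half_pow_le (a := 1) (b := pp k + 3 * dd k) (by have := dd_ge k; omega)
      simpa using this)

/-- the starting level -/
noncomputable def LL0 : Level :=
  (const 1 one_pos).next (pat 1 ((1 / 2) ^ 14) ((1 / 2) ^ 14) le_rfl (by positivity) le_rfl
    (by norm_num))

theorem LL_p (k : ℕ) : (seq LL0 PP k).p = pp k := by
  induction k with
  | zero => rfl
  | succ k ih => rw [seq_p_succ, ih, pp_succ]; rfl

theorem LL_R (k : ℕ) : (2 : ℝ) ^ (4 * pp k + 3 * dd k) ≤ (seq LL0 PP k).R := by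
  induction k with
  | zero =>
    have h := (const 1 one_pos).R_next (pat 1 ((1 / 2) ^ 14) ((1 / 2) ^ 14) le_rfl
      (by positivity) le_rfl (by norm_num)) 0 (by rw [pat_q]; norm_num)
    have h3 := pat_g_low (M := 1) (θ := (1 / 2) ^ 14) (τ := (1 / 2) ^ 14) (hM := le_rfl)
      (hτ := by positivity) (hθ := le_rfl) (h2 := by norm_num) 0 le_rfl
    simp only [zero_add, Nat.cast_one, pow_zero, mul_one] at h3
    rw [Nat.cast_zero, Pattern.one, zero_add, h3, const_R] at h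
    refine le_trans ?_ h
    simp only [pp, dd]
    norm_num
  | succ k ih =>
    have h2k : 1 ≤ 2 ^ k := Nat.one_le_two_pow
    obtain ⟨m, hm⟩ : ∃ m, 8 * 2 ^ k = m + 2 := ⟨8 * 2 ^ k - 2, by omega⟩
    have h := (seq LL0 PP k).R_next (PP k) (m + 1) (by
      change m + 1 < 2 * (8 * 2 ^ k)
      omega)
    have g1 : (PP k).g ((m + 1 : ℕ) : ℤ) =
        (1 / 2) ^ (pp k + 3 * dd k) * ((1 / 2) ^ (4 * pp k + 2 * dd k)) ^ m :=
      pat_g_low m (by omega)
    have g2 : (PP k).g (((m + 1) + 1 : ℕ) : ℤ) =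
        (1 / 2) ^ (pp k + 3 * dd k) * ((1 / 2) ^ (4 * pp k + 2 * dd k)) ^ (m + 1) :=
      pat_g_low (m + 1) (by omega)
    rw [show ((m + 1 : ℕ) : ℤ) + 1 = (((m + 1) + 1 : ℕ) : ℤ) by push_cast; ring, g1, g2] at h
    refine le_trans ?_ h
    rw [le_div_iff₀ (by positivity)]
    refine le_trans ?_ ih
    rw [← pow_mul, ← pow_mul, ← pow_add, ← pow_add, ← pow_add, one_div_pow, mul_one_div,
      div_le_iff₀ (by positivity), ← pow_add]
    apply pow_le_pow_right₀ (by norm_num)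
    have e1 : pp (k + 1) = 2 * (m + 2) * pp k := by rw [pp_succ, hm]
    have e2 : dd (k + 1) = (m + 2) * dd k := by rw [← hm]; rfl
    have e3 : 8 * pp k = (m + 2) * dd k := by rw [← hm, pp]; ring
    rw [e1, e2]
    nlinarith

theorem LL_step (k : ℕ) (n : ℤ) :
    |(seq LL0 PP (k + 1)).W n - (seq LL0 PP k).W n| ≤ 2 * (1 / 2) ^ k := by
  refine (W_next_pat (seq LL0 PP k) n).trans ?_
  have hR := LL_R k
  have h1 : (1 / 2 : ℝ) ^ dd k ≤ (1 / 2) ^ k := half_pow_le (by have := dd_ge k; omega)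
  have hR0 := (seq LL0 PP k).R_pos
  rw [div_le_iff₀ (by positivity)]
  have h2 : (1 / 2 : ℝ) ^ dd k * ((1 / 2) ^ (4 * pp k + 2 * dd k) * 2 ^ (4 * pp k + 3 * dd k)) = 1 := by
    rw [← mul_assoc, ← pow_add, show dd k + (4 * pp k + 2 * dd k) = 4 * pp k + 3 * dd k by ring,
      ← mul_pow]
    norm_num
  have h3 : (1 / 2 : ℝ) ^ dd k * ((1 / 2) ^ (4 * pp k + 2 * dd k) * 2 ^ (4 * pp k + 3 * dd k)) ≤
      (1 / 2) ^ k * ((1 / 2) ^ (4 * pp k + 2 * dd k) * (seq LL0 PP k).R) := by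
    gcongr
  nlinarith

theorem LL_S (k : ℕ) : (seq LL0 PP k).S ≤ LL0.S * Real.exp 8 := by
  have h := seq_S_le LL0 PP (fun k => 4 * (1 / 2) ^ k) (fun k => by
    refine pat_sum.trans ?_
    have : ((1 / 2 : ℝ) ^ (pp k + 3 * dd k)) ^ 2 ≤ (1 / 2) ^ k := by
      rw [← pow_mul]
      exact half_pow_le (by have := dd_ge k; omega)
    linarith) k
  refine h.trans (mul_le_mul_of_nonneg_left (Real.exp_le_exp.2 ?_) LL0.S_nonneg)
  rw [← Finset.mul_sum]
  have := sum_geometric_two_le k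
  linarith

theorem summable_eps : Summable (fun k : ℕ => 2 * (1 / 2 : ℝ) ^ k) :=
  summable_geometric_two.mul_left 2

section Lim

variable {W : ℤ → ℝ}

theorem not_dvd_of_lt {p x : ℤ} (h0 : 0 < x) (h1 : x < p) : ¬ p ∣ x :=
  fun h => absurd (Int.le_of_dvd h0 h) (by omega)

theorem rep_off (hHas : ∀ k n, HasSum
      (fun j => (seq LL0 PP (j + k + 1)).W n - (seq LL0 PP (j + k)).W n)
      (W n - (seq LL0 PP k).W n)) (k : ℕ) (j : ℤ) (h1 : 1 ≤ j) (h2 : j < pp k) :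
    W (j + pp k) = W j ∧ W (j - pp k) = W j := by
  have h0 : ¬ ((seq LL0 PP k).p : ℤ) ∣ j := by
    rw [LL_p]; exact not_dvd_of_lt (by omega) h2
  have a1 : ¬ ((seq LL0 PP k).p : ℤ) ∣ j + pp k := by
    rw [LL_p] at h0 ⊢
    intro h
    exact h0 ((dvd_add_left dvd_rfl).1 h)
  have a2 : ¬ ((seq LL0 PP k).p : ℤ) ∣ j - pp k := by
    rw [LL_p] at h0 ⊢
    intro h
    exact h0 ((dvd_sub_left dvd_rfl).1 h)
  rw [lim_off hHas k _ h0, lim_off hHas k _ a1, lim_off hHas k _ a2]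
  have b1 := (seq LL0 PP k).W_per_mul 1 j
  have b2 := (seq LL0 PP k).W_per_mul (-1) j
  rw [LL_p] at b1 b2
  constructor
  · rw [← b1]; congr 1; ring
  · rw [← b2]; congr 1; ring

theorem rep_on (hHas : ∀ k n, HasSum
      (fun j => (seq LL0 PP (j + k + 1)).W n - (seq LL0 PP (j + k)).W n)
      (W n - (seq LL0 PP k).W n)) (k : ℕ) : |W (pp k) - W 0| ≤ 4 * (1 / 8) ^ pp k := by
  have hp : 1 ≤ pp k := by have := dd_ge k; have := dd_le_pp k; omega
  have h2k : 1 ≤ 2 ^ k := Nat.one_le_two_pow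
  have h0 : ¬ ((seq LL0 PP (k + 1)).p : ℤ) ∣ (pp k : ℤ) := by
    rw [LL_p, pp_succ]
    apply not_dvd_of_lt (by exact_mod_cast hp)
    have : pp k < 2 * (8 * 2 ^ k) * pp k := by nlinarith
    exact_mod_cast this
  have e8 : (1 / 8 : ℝ) ^ pp k = (1 / 2) ^ (3 * pp k) := by
    rw [pow_mul]; norm_num
  have h1 : |W (pp k) - (seq LL0 PP k).W 0| ≤ 2 * (1 / 8) ^ pp k := by
    rw [lim_off hHas (k + 1) _ h0]
    have h := W_next_one (M := 8 * 2 ^ k) (θ := (1 / 2) ^ (pp k + 3 * dd k))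
      (τ := (1 / 2) ^ (4 * pp k + 2 * dd k)) (hM := by omega) (hτ := by positivity)
      (hθ := half_pow_le (by have := dd_le_pp k; omega))
      (h2 := by
        have := half_pow_le (a := 1) (b := pp k + 3 * dd k) (by have := dd_ge k; omega)
        simpa using this) (seq LL0 PP k)
    rw [LL_p] at h
    refine le_trans h ?_
    have hR := LL_R k
    have hR0 := (seq LL0 PP k).R_pos
    rw [div_le_iff₀ (by positivity), e8]
    have h2 : (1 / 2 : ℝ) ^ (3 * pp k) *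
        ((1 / 2) ^ (pp k + 3 * dd k) * 2 ^ (4 * pp k + 3 * dd k)) = 1 := by
      rw [← mul_assoc, ← pow_add, show 3 * pp k + (pp k + 3 * dd k) = 4 * pp k + 3 * dd k by ring,
        ← mul_pow]
      norm_num
    have h3 : (1 / 2 : ℝ) ^ (3 * pp k) *
        ((1 / 2) ^ (pp k + 3 * dd k) * 2 ^ (4 * pp k + 3 * dd k)) ≤
        (1 / 2) ^ (3 * pp k) * ((1 / 2) ^ (pp k + 3 * dd k) * (seq LL0 PP k).R) := by
      gcongr
    nlinarith
  have h2 : |W 0 - (seq LL0 PP k).W 0| ≤ (1 / 8) ^ pp k * 2 := by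
    refine tail_bound hHas k 0 (fun j => (1 / 8) ^ pp k * (1 / 2) ^ j) _
      (hasSum_geometric_two.mul_left _) (fun j => ?_)
    refine (W_next_zero (seq LL0 PP (j + k)) (PP (j + k))).trans ?_
    have hR := LL_R (j + k)
    have hR0 := (seq LL0 PP (j + k)).R_pos
    rw [div_le_iff₀ hR0, e8, ← pow_add]
    have a1 := pp_mono k j
    have a2 := dd_ge (j + k)
    have h3 : (2 : ℝ) ^ (3 * pp k + j + 1) ≤ 2 ^ (4 * pp (j + k) + 3 * dd (j + k)) :=
      pow_le_pow_right₀ (by norm_num) (by omega)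
    have h4 : (1 / 2 : ℝ) ^ (3 * pp k + j) * 2 ^ (3 * pp k + j + 1) = 2 := by
      rw [pow_succ, ← mul_assoc, ← mul_pow]
      norm_num
    have h5 : (1 / 2 : ℝ) ^ (3 * pp k + j) * 2 ^ (3 * pp k + j + 1) ≤
        (1 / 2) ^ (3 * pp k + j) * (seq LL0 PP (j + k)).R :=
      mul_le_mul_of_nonneg_left (h3.trans hR) (by positivity)
    linarith
  have h3 := abs_sub_le (W (pp k)) ((seq LL0 PP k).W 0) (W 0)
  rw [abs_sub_comm ((seq LL0 PP k).W 0)] at h3
  linarith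

/-- the offsets of the translates -/
def nn : ℕ → ℕ
  | 0 => 0
  | (k + 1) => nn k + 3 * pp k

theorem nn_le (k : ℕ) : 4 * nn k ≤ pp k := by
  induction k with
  | zero => simp [nn]
  | succ k ih =>
    have h2k : 1 ≤ 2 ^ k := Nat.one_le_two_pow
    rw [pp_succ, nn]
    nlinarith

theorem nn_dvd (k j : ℕ) : ∃ m : ℤ, (nn (j + k) : ℤ) = m * pp k + nn k := by
  induction j with
  | zero => exact ⟨0, by simp⟩
  | succ j ih =>
    obtain ⟨m, hm⟩ := ih
    obtain ⟨c, hc⟩ := seq_p_dvd LL0 PP k j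
    rw [LL_p, LL_p] at hc
    refine ⟨m + 3 * c, ?_⟩
    rw [show j + 1 + k = (j + k) + 1 by ring, nn]
    push_cast
    rw [hm, hc]
    ring

theorem lim_shift (hHas : ∀ k n, HasSum
      (fun j => (seq LL0 PP (j + k + 1)).W n - (seq LL0 PP (j + k)).W n)
      (W n - (seq LL0 PP k).W n)) (k j : ℕ) (n : ℤ) (h0 : 0 < n + nn k) (h1 : n + nn k < pp k) :
    W (n + nn (j + k)) = (seq LL0 PP k).W (n + nn k) := by
  obtain ⟨m, hm⟩ := nn_dvd k j
  have e : n + (nn (j + k) : ℤ) = m * pp k + (n + nn k) := by rw [hm]; ring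
  have h2 : ¬ ((seq LL0 PP k).p : ℤ) ∣ n + nn (j + k) := by
    rw [LL_p, e]
    intro h
    exact not_dvd_of_lt h0 h1 ((dvd_add_right (Dvd.intro_left m rfl)).1 h)
  rw [lim_off hHas k _ h2, e, ← LL_p k, Level.W_per_mul]

theorem range_ok (k : ℕ) (n : ℤ) (hn : |n| ≤ 2 * pp k) :
    0 < n + nn (k + 1) ∧ n + nn (k + 1) < pp (k + 1) := by
  have h1 := nn_le k
  have hp : 1 ≤ pp k := by have := dd_ge k; have := dd_le_pp k; omega
  have h2k : 1 ≤ 2 ^ k := Nat.one_le_two_pow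
  have h3 : 16 * pp k ≤ pp (k + 1) := by rw [pp_succ]; nlinarith
  rw [abs_le] at hn
  simp only [nn]
  push_cast
  omega

/-- the element of the hull -/
noncomputable def WH (n : ℤ) : ℝ := (seq LL0 PP (n.natAbs + 1)).W (n + nn (n.natAbs + 1))

theorem WH_eq (hHas : ∀ k n, HasSum
      (fun j => (seq LL0 PP (j + k + 1)).W n - (seq LL0 PP (j + k)).W n)
      (W n - (seq LL0 PP k).W n)) (n : ℤ) (K : ℕ) (hK : n.natAbs + 1 ≤ K) :
    WH n = W (n + nn K) := by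
  obtain ⟨j, rfl⟩ : ∃ j, K = j + (n.natAbs + 1) := ⟨K - (n.natAbs + 1), by omega⟩
  have h := range_ok n.natAbs n (by
    have := dd_ge n.natAbs
    have := dd_le_pp n.natAbs
    have h4 : |n| = (n.natAbs : ℤ) := (Int.natCast_natAbs n).symm
    rw [h4]
    omega)
  rw [lim_shift hHas _ j n h.1 h.2]
  rfl

theorem WH_hull (hHas : ∀ k n, HasSum
      (fun j => (seq LL0 PP (j + k + 1)).W n - (seq LL0 PP (j + k)).W n)
      (W n - (seq LL0 PP k).W n)) (δ : ℝ) (hδ : 0 < δ) :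
    ∃ s : ℤ, ∀ n, |WH n - W (n + s)| < δ := by
  obtain ⟨k, hk⟩ := (lim_periodic hHas _ summable_eps LL_step (δ / 2) (by linarith)).exists
  refine ⟨nn k, fun n => ?_⟩
  rw [WH_eq hHas n (n.natAbs + 1 + k) (by omega)]
  obtain ⟨m, hm⟩ := nn_dvd k (n.natAbs + 1)
  have h1 := hk (n + nn (n.natAbs + 1 + k))
  have h2 := hk (n + nn k)
  have e : (seq LL0 PP k).W (n + nn (n.natAbs + 1 + k)) = (seq LL0 PP k).W (n + nn k) := by
    rw [hm, show n + (m * pp k + nn k) = m * pp k + (n + nn k) by ring, ← LL_p k, Level.W_per_mul]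
  rw [e] at h1
  have h3 := abs_sub_le (W (n + nn (n.natAbs + 1 + k))) ((seq LL0 PP k).W (n + nn k))
    (W (n + nn k))
  rw [abs_sub_comm ((seq LL0 PP k).W (n + nn k))] at h3
  linarith

theorem next_flat (k : ℕ) : ∃ F : ℤ → ℝ, (∀ x, F (x + pp k) = F x) ∧
    ∀ x : ℤ, 2 * pp k ≤ x → x ≤ 7 * pp k → (seq LL0 PP (k + 1)).W x = F x := by
  classical
  have hp : 1 ≤ pp k := by have := dd_ge k; have := dd_le_pp k; omega
  have h2k : 1 ≤ 2 ^ k := Nat.one_le_two_pow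
  set τ : ℝ := (1 / 2) ^ (4 * pp k + 2 * dd k) with hτ
  set θ : ℝ := (1 / 2) ^ (pp k + 3 * dd k) with hθ
  have hτ0 : 0 < τ := by positivity
  have hθ0 : 0 < θ := by positivity
  refine ⟨fun x => if (pp k : ℤ) ∣ x then
      (seq LL0 PP k).W 0 + (τ ^ 2 + 1 - 2 * τ) / ((seq LL0 PP k).R * τ) else (seq LL0 PP k).W x,
      fun x => ?_, fun x h1 h2 => ?_⟩
  · have b1 := (seq LL0 PP k).W_per_mul 1 x
    rw [LL_p, one_mul, add_comm] at b1
    simp only [dvd_add_self_right, b1]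
  · by_cases h : (pp k : ℤ) ∣ x
    · simp only [h, if_true]
      obtain ⟨m, rfl⟩ := h
      have hp' : (0 : ℤ) < pp k := by exact_mod_cast hp
      have m1 : 2 ≤ m := by
        by_contra hc
        have : m ≤ 1 := by omega
        nlinarith
      have m2 : m ≤ 7 := by
        by_contra hc
        have : 8 ≤ m := by omega
        nlinarith
      obtain ⟨d, rfl⟩ : ∃ d : ℕ, m = ((d + 1 + 1 : ℕ) : ℤ) := ⟨(m - 2).toNat, by push_cast; omega⟩
      have hd : d ≤ 5 := by push_cast at m2; omega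
      have e := (seq LL0 PP k).W_next_on (PP k) ((d + 1 + 1 : ℕ) : ℤ)
      rw [LL_p, mul_comm] at e
      have g0 : (PP k).g ((d + 1 : ℕ) : ℤ) = θ * τ ^ d := pat_g_low d (by omega)
      have g1 : (PP k).g ((d + 1 + 1 : ℕ) : ℤ) = θ * τ ^ (d + 1) := pat_g_low (d + 1) (by omega)
      have g2 : (PP k).g ((d + 1 + 1 + 1 : ℕ) : ℤ) = θ * τ ^ (d + 1 + 1) :=
        pat_g_low (d + 1 + 1) (by omega)
      rw [show ((d + 1 + 1 : ℕ) : ℤ) + 1 = ((d + 1 + 1 + 1 : ℕ) : ℤ) by push_cast; ring,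
        show ((d + 1 + 1 : ℕ) : ℤ) - 1 = ((d + 1 : ℕ) : ℤ) by push_cast; ring, g0, g1, g2] at e
      refine e.trans ?_
      congr 1
      have := (seq LL0 PP k).R_pos
      field_simp
      ring
    · simp only [h, if_false]
      exact (seq LL0 PP k).W_next_off (PP k) x (by rw [LL_p]; exact h)

theorem WH_rep (hHas : ∀ k n, HasSum
      (fun j => (seq LL0 PP (j + k + 1)).W n - (seq LL0 PP (j + k)).W n)
      (W n - (seq LL0 PP k).W n)) (k : ℕ) (j : ℤ) (h1 : -(pp k : ℤ) ≤ j) (h2 : j ≤ pp k) :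
    WH (j + pp k) = WH j := by
  obtain ⟨F, hF, hF2⟩ := next_flat k
  have key : ∀ n : ℤ, -(pp k : ℤ) ≤ n → n ≤ 2 * pp k → WH n = F (n + nn (k + 1)) := by
    intro n a1 a2
    have h := range_ok k n (by rw [abs_le]; constructor <;> omega)
    rw [WH_eq hHas n (n.natAbs + (k + 1)) (by omega), lim_shift hHas (k + 1) _ n h.1 h.2]
    have := nn_le k
    apply hF2
    · simp only [nn]; push_cast; omega
    · simp only [nn]; push_cast; omega
  rw [key _ (by omega) (by omega), key _ h1 (by omega), ← hF (j + nn (k + 1))]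
  congr 1
  ring

end Lim

/-- uniform limits of periodic sequences -/
def LimitPeriodic (V : ℤ → ℝ) : Prop :=
  ∀ ε : ℝ, 0 < ε → ∃ p : ℕ, 0 < p ∧ ∃ Q : ℤ → ℝ,
    (∀ n : ℤ, Q (n + (p : ℤ)) = Q n) ∧ ∀ n : ℤ, |V n - Q n| < ε

theorem neg_limitPeriodic {L0 : Level} {P : ℕ → Pattern} {W : ℤ → ℝ} (hHas : ∀ k n, HasSum
      (fun j => (seq L0 P (j + k + 1)).W n - (seq L0 P (j + k)).W n) (W n - (seq L0 P k).W n))
    (ε : ℕ → ℝ) (hε : Summable ε)
    (hW : ∀ k n, |(seq L0 P (k + 1)).W n - (seq L0 P k).W n| ≤ ε k) :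
    LimitPeriodic (fun n => -W n) := by
  intro δ hδ
  obtain ⟨k, hk⟩ := (lim_periodic hHas ε hε hW δ hδ).exists
  refine ⟨(seq L0 P k).p, (seq L0 P k).hp, fun n => -(seq L0 P k).W n, fun n => ?_, fun n => ?_⟩
  · have b1 := (seq L0 P k).W_per_mul 1 n
    rw [one_mul, add_comm] at b1
    simp only [b1]
  · have := hk n
    rw [abs_sub_comm] at this
    simpa [sub_eq_add_neg, add_comm] using this

theorem coupling_data : ∃ (W u : ℤ → ℝ) (C : ℝ), LimitPeriodic (fun n => -W n) ∧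
    (∀ n, |W n| ≤ C) ∧ u 0 = 1 ∧ Summable (fun n => u n ^ 2) ∧
    (∀ n, u (n + 1) + u (n - 1) = W n * u n) ∧
    (∀ N : ℕ, ∃ p : ℕ, N ≤ p ∧ (∀ j : ℤ, 1 ≤ j → j < p → W (j + p) = W j ∧ W (j - p) = W j) ∧
      |W p - W 0| ≤ 4 * (1 / 8) ^ p) ∧
    ∃ U : ℤ → ℝ, (∀ δ : ℝ, 0 < δ → ∃ s : ℤ, ∀ n, |U n - W (n + s)| < δ) ∧
      ∀ N : ℕ, ∃ p : ℕ, N ≤ p ∧ ∀ j : ℤ, -(p : ℤ) ≤ j → j ≤ p → U (j + p) = U j := by
  obtain ⟨W, u, h0, hs, he, hHas⟩ := limit LL0 PP _ summable_eps LL_step _ LL_S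
  obtain ⟨C, hC⟩ := lim_bdd hHas _ summable_eps LL_step
  have hpp : ∀ N, N ≤ pp N := fun N => by have := dd_ge N; have := dd_le_pp N; omega
  refine ⟨W, u, C, neg_limitPeriodic hHas _ summable_eps LL_step, hC, h0, hs, he,
    fun N => ⟨pp N, hpp N, rep_off hHas N, rep_on hHas N⟩, WH, WH_hull hHas,
    fun N => ⟨pp N, hpp N, WH_rep hHas N⟩⟩

end Pool.Agent.H1Z.LP
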