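import Mathlib

/-!
A version of the lemma of Gordon: three almost repeated blocks exclude decaying solutions.
-/

set_option linter.unusedSectionVars false
set_option linter.deprecated false
set_option linter.unusedSimpArgs false

namespace Pool.Agent.H1Z.LP

/-- the solution of the three term recurrence with the initial values `x`, `y` -/
def fs (a : ℤ → ℂ) (x y : ℂ) : ℕ → ℂ
  | 0 => x
  | 1 => y
  | (j + 2) => a ((j : ℤ) + 1) * fs a x y (j + 1) - fs a x y j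

theorem fs_rep (a : ℤ → ℂ) (χ : ℤ → ℂ) (p : ℕ)
    (h : ∀ j : ℤ, 1 ≤ j → j < p → χ (j + 1) + χ (j - 1) = a j * χ j) :
    ∀ j : ℕ, j ≤ p → χ j = χ 0 * fs a 1 0 j + χ 1 * fs a 0 1 j := by
  intro j
  induction j using Nat.twoStepInduction with
  | zero => intro _; simp [fs]
  | one => intro _; simp [fs]
  | more j ih1 ih2 =>
    intro hj
    have e1 := ih1 (by omega)
    have e2 := ih2 (by omega)
    have e3 := h ((j : ℤ) + 1) (by omega) (by omega)
    have e4 : (j : ℤ) + 1 - 1 = j := by ring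
    have e5 : ((j + 2 : ℕ) : ℤ) = (j : ℤ) + 1 + 1 := by push_cast; ring
    have e6 : ((j + 1 : ℕ) : ℤ) = (j : ℤ) + 1 := by push_cast; ring
    rw [e4] at e3
    rw [e6] at e2
    rw [e5]
    simp only [fs]
    linear_combination e3 - e1 + a ((j : ℤ) + 1) * e2

theorem fs_wr (a : ℤ → ℂ) (j : ℕ) :
    fs a 1 0 j * fs a 0 1 (j + 1) - fs a 1 0 (j + 1) * fs a 0 1 j = 1 := by
  induction j with
  | zero => simp [fs]
  | succ j ih =>
    simp only [fs]
    linear_combination ih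

theorem fs_bound (a : ℤ → ℂ) (K : ℝ) (hK : ∀ n, ‖a n‖ + 1 ≤ K) (j : ℕ) :
    ‖fs a 0 1 j‖ ≤ K ^ j := by
  have hK1 : 1 ≤ K := by have := hK 0; have := norm_nonneg (a 0); linarith
  induction j using Nat.twoStepInduction with
  | zero => simp [fs]
  | one => simpa [fs] using hK1
  | more j ih1 ih2 =>
    simp only [fs]
    have h1 := norm_sub_le (a ((j : ℤ) + 1) * fs a 0 1 (j + 1)) (fs a 0 1 j)
    rw [norm_mul] at h1
    have h2 : ‖a ((j : ℤ) + 1)‖ * ‖fs a 0 1 (j + 1)‖ ≤ (K - 1) * K ^ (j + 1) :=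
      mul_le_mul (by have := hK ((j : ℤ) + 1); linarith) ih2 (norm_nonneg _) (by linarith)
    have h3 : K ^ j ≤ K ^ (j + 1) := pow_le_pow_right₀ hK1 (by omega)
    calc _ ≤ (K - 1) * K ^ (j + 1) + K ^ (j + 1) := by linarith
      _ = K ^ (j + 2) := by ring

theorem gordon_step (a : ℤ → ℂ) (K : ℝ) (hK : ∀ n, ‖a n‖ + 1 ≤ K) (ψ : ℤ → ℂ)
    (hψ : ∀ n, ψ (n + 1) + ψ (n - 1) = a n * ψ n) (q : ℕ) (ε : ℝ)
    (hsm : ∀ n : ℤ, (q : ℤ) ≤ |n| → ‖ψ n‖ < ε)
    (hrep : ∀ j : ℤ, 1 ≤ j → j < ((q + 1 : ℕ) : ℤ) →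
      a (j + ((q + 1 : ℕ) : ℤ)) = a j ∧ a (j - ((q + 1 : ℕ) : ℤ)) = a j)
    (hd : ‖a ((q + 1 : ℕ) : ℤ) - a 0‖ * K ^ (q + 1) ≤ 1) :
    ‖ψ 0‖ ≤ (3 + 2 * K) * ε ∧ ‖ψ (-1)‖ ≤ (3 + 2 * K) * ε := by
  have hK1 : 1 ≤ K := by have := hK 0; have := norm_nonneg (a 0); linarith
  set p : ℤ := ((q + 1 : ℕ) : ℤ) with hp
  have hpq : p = (q : ℤ) + 1 := by rw [hp]; push_cast; ring
  have r0 := fs_rep a ψ (q + 1) (fun j _ _ => hψ j)
  have r1 := fs_rep a (fun n => ψ (n + p)) (q + 1) (fun j h1 h2 => by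
    have := hψ (j + p)
    rw [(hrep j h1 h2).1] at this
    rw [show j + 1 + p = j + p + 1 by ring, show j - 1 + p = j + p - 1 by ring]
    exact this)
  have r2 := fs_rep a (fun n => ψ (n - p)) (q + 1) (fun j h1 h2 => by
    have := hψ (j - p)
    rw [(hrep j h1 h2).2] at this
    rw [show j + 1 - p = j - p + 1 by ring, show j - 1 - p = j - p - 1 by ring]
    exact this)
  have hW := fs_wr a q
  have b1 := fs_bound a K hK (q + 1)
  have b0 : ‖fs a 0 1 q‖ ≤ K ^ (q + 1) :=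
    (fs_bound a K hK q).trans (pow_le_pow_right₀ hK1 (by omega))
  have y1 := r0 (q + 1) le_rfl
  have y2 := r0 q (by omega)
  have z1 := r1 (q + 1) le_rfl
  have z2 := r1 q (by omega)
  have x1 := r2 (q + 1) le_rfl
  have x2 := r2 q (by omega)
  simp only [← hp] at y1 z1 x1
  have n0 := hψ 0
  have n1 := hψ p
  have n2 := hψ (-p)
  rw [zero_add, zero_sub] at n0
  rw [show p - 1 = (q : ℤ) by rw [hpq]; ring] at n1
  rw [zero_add, add_comm 1 p] at z1 z2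
  rw [zero_sub, show 1 - p = -p + 1 by ring] at x1 x2
  rw [sub_self] at x1
  rw [show (q : ℤ) - p = -1 by rw [hpq]; ring] at x2
  have s1 : ‖ψ p‖ < ε := hsm _ (by rw [abs_of_nonneg (by omega)]; omega)
  have s2 : ‖ψ q‖ < ε := hsm _ (by rw [abs_of_nonneg (by omega)])
  have s3 : ‖ψ (p + p)‖ < ε := hsm _ (by rw [abs_of_nonneg (by omega)]; omega)
  have s4 : ‖ψ (q + p)‖ < ε := hsm _ (by rw [abs_of_nonneg (by omega)]; omega)
  have s5 : ‖ψ (-p)‖ < ε := hsm _ (by rw [abs_of_nonpos (by omega)]; omega)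
  have s6 : ‖ψ (-p - 1)‖ < ε := hsm _ (by rw [abs_of_nonpos (by omega)]; omega)
  have hε : 0 < ε := lt_of_le_of_lt (norm_nonneg _) s1
  generalize fs a 1 0 (q + 1) = c1 at *
  generalize fs a 1 0 q = c0 at *
  generalize fs a 0 1 (q + 1) = d1 at *
  generalize fs a 0 1 q = d0 at *
  set t := c1 + a 0 * d1 - d0 with ht
  have m0 : ψ 1 = a 0 * ψ 0 - ψ (-1) := by linear_combination n0
  have m1 : ψ (p + 1) = a p * ψ p - ψ q := by linear_combination n1
  have m2 : ψ (-p + 1) = a (-p) * ψ (-p) - ψ (-p - 1) := by linear_combination n2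
  rw [m0] at y1 y2
  rw [m1] at z1 z2
  rw [m2] at x1 x2
  have hKε : 0 ≤ K * ε := by positivity
  by_cases hc : ‖t‖ ≤ 1
  · have A1 : ψ 0 = t * ψ p - ψ (p + p) + (a p - a 0) * d1 * ψ p := by
      rw [z1, ht]
      linear_combination (-ψ 0) * hW + d0 * y1 - d1 * y2
    have A2 : ψ (-1) = t * ψ q - ψ (q + p) + (a p - a 0) * d0 * ψ p := by
      rw [z2, ht]
      linear_combination (-ψ (-1)) * hW + (c0 + a 0 * d0) * y1 - (c1 + a 0 * d1) * y2
    have key : ∀ u v d : ℂ, ‖u‖ < ε → ‖v‖ < ε → ‖d‖ ≤ K ^ (q + 1) →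
        ‖t * u - v + (a p - a 0) * d * ψ p‖ ≤ (3 + 2 * K) * ε := by
      intro u v d hu hv hd'
      have e1 : ‖t * u‖ ≤ ε := by
        rw [norm_mul]
        nlinarith [norm_nonneg t, norm_nonneg u]
      have e2 : ‖(a p - a 0) * d * ψ p‖ ≤ ε := by
        rw [norm_mul, norm_mul]
        have : ‖a p - a 0‖ * ‖d‖ ≤ 1 :=
          (mul_le_mul_of_nonneg_left hd' (norm_nonneg _)).trans hd
        nlinarith [norm_nonneg (ψ p), mul_nonneg (norm_nonneg (a p - a 0)) (norm_nonneg d)]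
      have e3 := norm_add_le (t * u - v) ((a p - a 0) * d * ψ p)
      have e4 := norm_sub_le (t * u) v
      linarith
    constructor
    · rw [A1]; exact key _ _ _ s1 s3 b1
    · rw [A2]; exact key _ _ _ s2 s4 b0
  · push Not at hc
    have B1 : t * ψ 0 = ψ p + ψ (-p) := by
      rw [ht]
      linear_combination (-1 : ℂ) * y1 - d0 * x1 + d1 * x2 + ψ (-p) * hW
    have B2 : t * ψ (-1) = ψ q + ψ (-p - 1) - (a (-p) - a 0) * ψ (-p) := by
      rw [ht]
      linear_combination (-1 : ℂ) * y2 - (c0 + a 0 * d0) * x1 + (c1 + a 0 * d1) * x2 +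
        (ψ (-p - 1) - (a (-p) - a 0) * ψ (-p)) * hW
    have key : ∀ u : ℂ, ‖u‖ ≤ ‖t * u‖ := by
      intro u
      rw [norm_mul]
      nlinarith [norm_nonneg u]
    constructor
    · refine (key _).trans ?_
      rw [B1]
      have := norm_add_le (ψ p) (ψ (-p))
      linarith
    · refine (key _).trans ?_
      rw [B2]
      have e1 := norm_sub_le (ψ q + ψ (-p - 1)) ((a (-p) - a 0) * ψ (-p))
      have e2 := norm_add_le (ψ q) (ψ (-p - 1))
      have e3 : ‖(a (-p) - a 0) * ψ (-p)‖ ≤ 2 * K * ε := by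
        rw [norm_mul]
        have e4 := norm_sub_le (a (-p)) (a 0)
        have e5 := hK (-p)
        have e6 := hK 0
        apply mul_le_mul (by linarith) s5.le (norm_nonneg _) (by linarith)
      linarith

theorem zero_of_init (a : ℤ → ℂ) (ψ : ℤ → ℂ) (hψ : ∀ n, ψ (n + 1) + ψ (n - 1) = a n * ψ n)
    (h0 : ψ 0 = 0) (h1 : ψ (-1) = 0) (n : ℤ) : ψ n = 0 := by
  have : ∀ n : ℤ, ψ n = 0 ∧ ψ (n - 1) = 0 := by
    intro n
    induction n using Int.induction_on with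
    | zero => exact ⟨h0, by simpa using h1⟩
    | succ n ih =>
      refine ⟨?_, by simpa using ih.1⟩
      have := hψ n
      rw [ih.1, ih.2] at this
      simpa using this
    | pred n ih =>
      refine ⟨ih.2, ?_⟩
      have := hψ (-(n : ℤ) - 1)
      rw [show -(n : ℤ) - 1 + 1 = -(n : ℤ) by ring, ih.1, ih.2] at this
      simpa using this
  exact (this n).1

theorem gordon (a : ℤ → ℂ) (K : ℝ) (hK : ∀ n, ‖a n‖ + 1 ≤ K) (ψ : ℤ → ℂ)
    (hψ : ∀ n, ψ (n + 1) + ψ (n - 1) = a n * ψ n)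
    (hsm : ∀ ε : ℝ, 0 < ε → ∃ N : ℕ, ∀ n : ℤ, (N : ℤ) ≤ |n| → ‖ψ n‖ < ε)
    (hrep : ∀ N : ℕ, ∃ p : ℕ, N ≤ p ∧
      (∀ j : ℤ, 1 ≤ j → j < p → a (j + p) = a j ∧ a (j - p) = a j) ∧
      ‖a p - a 0‖ * K ^ p ≤ 1) (n : ℤ) : ψ n = 0 := by
  have hK1 : 1 ≤ K := by have := hK 0; have := norm_nonneg (a 0); linarith
  have key : ∀ ε : ℝ, 0 < ε → ‖ψ 0‖ ≤ (3 + 2 * K) * ε ∧ ‖ψ (-1)‖ ≤ (3 + 2 * K) * ε := by
    intro ε hε
    obtain ⟨N, hN⟩ := hsm ε hε
    obtain ⟨p, hp, h1, h2⟩ := hrep (N + 1)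
    obtain ⟨q, rfl⟩ : ∃ q, p = q + 1 := ⟨p - 1, by omega⟩
    exact gordon_step a K hK ψ hψ q ε (fun n hn => hN n (by omega)) h1 h2
  have zero : ∀ x : ℂ, (∀ ε : ℝ, 0 < ε → ‖x‖ ≤ (3 + 2 * K) * ε) → x = 0 := by
    intro x hx
    rw [← norm_le_zero_iff]
    apply le_of_forall_pos_le_add
    intro δ hδ
    have := hx (δ / (3 + 2 * K)) (by positivity)
    rw [mul_div_cancel₀ _ (by positivity)] at this
    linarith
  exact zero_of_init a ψ hψ (zero _ fun ε hε => (key ε hε).1) (zero _ fun ε hε => (key ε hε).2) n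

end Pool.Agent.H1Z.LP
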