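import Pool.Agent.H1Z.LP.Op
import Pool.Agent.H1Z.LP.Gordon
import Pool.Agent.H1Z.LP.Coupling

/-!
Presence and absence of eigenvectors.
-/

set_option linter.unusedSectionVars false
set_option linter.deprecated false
set_option linter.unusedSimpArgs false

namespace Pool.Agent.H1Z.LP

open MeasureTheory Filter Topology
open scoped InnerProductSpace

theorem exists_eigen {W u : ℤ → ℝ} (h0 : u 0 = 1) (hs : Summable (fun n => u n ^ 2))
    (he : ∀ n, u (n + 1) + u (n - 1) = W n * u n) {V : ℤ → ℝ} (hV : ∀ n, V n = -W n)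
    {H : L2 →L[ℂ] L2} (h : IsOp V H) :
    ∃ φ : L2, φ 0 = 1 ∧ H φ = ((0 : ℝ) : ℂ) • φ := by
  refine ⟨⟨fun n => (u n : ℂ), (mem_iff _).2 (by simpa using hs)⟩, by simp [h0], ?_⟩
  ext n
  rw [h _ n]
  have := congrArg (fun x : ℝ => (x : ℂ)) (he n)
  simp only [hV]
  push_cast at this ⊢
  simp only [zero_smul, lp.coeFn_zero, Pi.zero_apply]
  linear_combination this

theorem eigen_abs_le {H : L2 →L[ℂ] L2} {φ : L2} (hφ : φ ≠ 0) {e : ℂ} (h : H φ = e • φ) :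
    ‖e‖ ≤ ‖H‖ := by
  have h1 := H.le_opNorm φ
  rw [h, norm_smul] at h1
  exact le_of_mul_le_mul_right h1 (norm_pos_iff.2 hφ)

theorem no_eigen {V : ℤ → ℝ} {C : ℝ} (hC : ∀ n, |V n| ≤ C) {H : L2 →L[ℂ] L2} (h : IsOp V H)
    (hrep : ∀ N : ℕ, ∃ p : ℕ, N ≤ p ∧
      (∀ j : ℤ, 1 ≤ j → j < p → V (j + p) = V j ∧ V (j - p) = V j) ∧
      |V p - V 0| * (3 + 2 * C) ^ p ≤ 1) (φ : L2) (e : ℂ) (he : H φ = e • φ) : φ = 0 := by
  by_contra hφ
  have h1 := (eigen_abs_le hφ he).trans (h.norm_le hC)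
  apply hφ
  ext n
  refine gordon (fun n => e - V n) (3 + 2 * C) (fun n => ?_) φ (fun n => ?_)
    (fun ε hε => small_far φ hε) (fun N => ?_) n
  · have h2 := norm_sub_le e (V n : ℂ)
    rw [Complex.norm_real, Real.norm_eq_abs] at h2
    have := hC n
    linarith
  · have h2 := h φ n
    rw [he] at h2
    simp only [lp.coeFn_smul, Pi.smul_apply, smul_eq_mul] at h2
    linear_combination -h2
  · obtain ⟨p, hp, h2, h3⟩ := hrep N
    refine ⟨p, hp, fun j a b => ?_, ?_⟩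
    · simp only [(h2 j a b).1, (h2 j a b).2, and_self]
    · have : e - (V p : ℂ) - (e - V 0) = ((-(V p - V 0) : ℝ) : ℂ) := by push_cast; ring
      simp only [this, Complex.norm_real, Real.norm_eq_abs, abs_neg]
      exact h3

theorem coupling_main : ∃ V : ℤ → ℝ, LimitPeriodic V ∧ ∃ C l : ℝ, (∀ n, |V n| ≤ C) ∧ 0 < l ∧
    (∀ H, IsOp (fun n => l * V n) H → ∀ (φ : L2) (e : ℂ), H φ = e • φ → φ = 0) ∧
    (∀ H, IsOp (fun n => 1 * V n) H → ∃ φ : L2, φ 0 = 1 ∧ H φ = ((0 : ℝ) : ℂ) • φ) := by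
  obtain ⟨W, u, C, hL, hC, h0, hs, he, hrep, -⟩ := coupling_data
  have hC0 : 0 ≤ C := (abs_nonneg _).trans (hC 0)
  refine ⟨fun n => -W n, hL, C, 1 / (C + 4), fun n => by simpa using hC n, by positivity,
    fun H hH φ e hφ => ?_, fun H hH => exists_eigen h0 hs he (fun n => by simp) hH⟩
  have hl : (0 : ℝ) < 1 / (C + 4) := by positivity
  refine no_eigen (C := 1) (fun n => ?_) hH (fun N => ?_) φ e hφ
  · rw [abs_mul, abs_neg, abs_of_pos hl, one_div, inv_mul_le_iff₀ (by positivity)]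
    have := hC n
    linarith
  · obtain ⟨p, hp, h1, h2⟩ := hrep N
    refine ⟨p, hp, fun j a b => ?_, ?_⟩
    · simp only [(h1 j a b).1, (h1 j a b).2, and_self]
    · rw [← mul_sub, abs_mul, abs_of_pos hl, show -W p - -W 0 = -(W p - W 0) by ring, abs_neg]
      have h3 : 1 / (C + 4) ≤ 1 / 4 := one_div_le_one_div_of_le (by norm_num) (by linarith)
      have h4 : (1 / 8 : ℝ) ^ p * (3 + 2 * 1) ^ p ≤ 1 := by
        rw [← mul_pow]
        exact pow_le_one₀ (by norm_num) (by norm_num)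
      calc 1 / (C + 4) * |W p - W 0| * (3 + 2 * 1) ^ p
          ≤ 1 / 4 * (4 * (1 / 8) ^ p) * (3 + 2 * 1) ^ p := by gcongr
        _ = (1 / 8 : ℝ) ^ p * (3 + 2 * 1) ^ p := by ring
        _ ≤ 1 := h4

theorem hull_main : ∃ V U : ℤ → ℝ, LimitPeriodic V ∧
    (∀ δ : ℝ, 0 < δ → ∃ s : ℤ, ∀ n, |U n - V (n + s)| < δ) ∧
    ∃ C : ℝ, (∀ n, |V n| ≤ C) ∧ (∀ n, |U n| ≤ C) ∧
    (∀ H, IsOp U H → ∀ (φ : L2) (e : ℂ), H φ = e • φ → φ = 0) ∧
    (∀ H, IsOp V H → ∃ φ : L2, φ 0 = 1 ∧ H φ = ((0 : ℝ) : ℂ) • φ) := by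
  obtain ⟨W, u, C, hL, hC, h0, hs, he, -, U, hU, hrep⟩ := coupling_data
  have hUC : ∀ n, |-U n| ≤ C + 1 := by
    intro n
    obtain ⟨s, hs⟩ := hU 1 one_pos
    have h1 := hs n
    have h2 := hC (n + s)
    have h3 := abs_add_le (U n - W (n + s)) (W (n + s))
    rw [sub_add_cancel] at h3
    rw [abs_neg]
    linarith
  refine ⟨fun n => -W n, fun n => -U n, hL, fun δ hδ => ?_, C + 1, fun n => ?_, hUC,
    fun H hH φ e hφ => ?_, fun H hH => exists_eigen h0 hs he (fun n => rfl) hH⟩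
  · obtain ⟨s, hs⟩ := hU δ hδ
    refine ⟨s, fun n => ?_⟩
    rw [show -U n - -W (n + s) = -(U n - W (n + s)) by ring, abs_neg]
    exact hs n
  · have := hC n
    rw [abs_neg]
    linarith
  · refine no_eigen hUC hH (fun N => ?_) φ e hφ
    obtain ⟨p, hp, h1⟩ := hrep N
    refine ⟨p, hp, fun j a b => ⟨?_, ?_⟩, ?_⟩
    · simp only [h1 j (by omega) b.le]
    · have := h1 (j - p) (by omega) (by omega)
      rw [sub_add_cancel] at this
      simp only [this]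
    · have := h1 0 (by omega) (by omega)
      rw [zero_add] at this
      simp [this]

end Pool.Agent.H1Z.LP
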