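import Pool.Agent.H1Z.LP.Dirichlet
import Pool.Agent.H1Z.LP.Christ
import Pool.Agent.H1Z.LP.Eigen

/-!
A limit-periodic potential with an eigenvalue and an absolutely continuous part.
-/

set_option linter.unusedSectionVars false
set_option linter.deprecated false
set_option linter.unusedSimpArgs false
set_option linter.style.haveILetI false

namespace Pool.Agent.H1Z.LP

open Finset Filter Topology ComplexConjugate MeasureTheory

theorem bloch_base (N : ℕ) (hN : 0 < N) (E : ℝ) (hE : E ∈ Set.Icc (-3 : ℝ) (-1)) :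
    ∃ φ Λ, Bloch (fun n => E + (const N hN).W n) (const N hN).p (3 / 2) φ Λ := by
  set x := (E + 2) / 2 with hx
  have x1 : x ^ 2 ≤ 1 / 4 := by
    have := hE.1
    have := hE.2
    nlinarith
  set σ := Real.sqrt (1 - x ^ 2) with hσ
  have s2 : σ ^ 2 = 1 - x ^ 2 := Real.sq_sqrt (by linarith)
  have s0 : 0 ≤ σ := Real.sqrt_nonneg _
  have s1 : 1 / 2 ≤ σ := by nlinarith
  set w := (Real.sqrt σ)⁻¹ with hw
  have r0 : 0 < Real.sqrt σ := Real.sqrt_pos.2 (by linarith)
  have w0 : 0 < w := inv_pos.2 r0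
  have w2 : w ^ 2 * σ = 1 := by
    rw [hw, inv_pow, Real.sq_sqrt s0, inv_mul_cancel₀ (by linarith)]
  have w3 : w ≤ 3 / 2 := by nlinarith
  let z : ℂ := ⟨x, σ⟩
  have z1 : ‖z‖ = 1 := by
    have : ‖z‖ ^ 2 = 1 := by
      rw [Complex.sq_norm, Complex.normSq_apply]
      simp only [z]
      linarith
    nlinarith [norm_nonneg z]
  have z0 : z ≠ 0 := by
    intro h; rw [h] at z1; simp at z1
  have z2 : z * z + 1 = ((E + 2 : ℝ) : ℂ) * z := by
    apply Complex.ext
    · simp only [z, Complex.add_re, Complex.mul_re, Complex.one_re, Complex.ofReal_re,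
        Complex.ofReal_im]
      rw [show E + 2 = 2 * x by rw [hx]; ring]
      linear_combination -s2
    · simp only [z, Complex.add_im, Complex.mul_im, Complex.one_im, Complex.ofReal_re,
        Complex.ofReal_im]
      rw [hx]
      ring
  have hn : ∀ m : ℤ, ‖z ^ m‖ = 1 := fun m => by rw [norm_zpow, z1, one_zpow]
  refine ⟨fun n => (w : ℂ) * z ^ n, z ^ (N : ℤ), fun n => ?_, fun n => ?_, hn _, fun n => ?_,
    fun n => ?_⟩
  · rw [const_W]
    have e1 : z ^ n = z ^ (n - 1) * z := by rw [← zpow_add_one₀ z0, sub_add_cancel]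
    rw [zpow_add_one₀ z0, e1]
    linear_combination (w * z ^ (n - 1)) * z2
  · change (w : ℂ) * z ^ (n + (N : ℤ)) = _
    rw [zpow_add₀ z0]
    ring
  · have h3 : conj (z ^ n) * z ^ n = 1 := by
      rw [Complex.conj_mul', hn]; simp
    have : conj ((w : ℂ) * z ^ n) * ((w : ℂ) * z ^ (n + 1)) = ((w ^ 2 : ℝ) : ℂ) * z := by
      rw [map_mul, Complex.conj_ofReal, zpow_add_one₀ z0]
      push_cast
      linear_combination ((w : ℂ) ^ 2 * z) * h3
    rw [this, Complex.im_ofReal_mul]
    exact w2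
  · rw [norm_mul, hn, mul_one, Complex.norm_real, Real.norm_eq_abs, abs_of_pos w0]
    exact w3

theorem bloch_step (L : Level) (P : Pattern) (hq : P.q = 2) (E : ℝ) {C η y D : ℝ} {φ : ℤ → ℂ}
    {Λ : ℂ} (h : Bloch (fun n => E + L.W n) L.p C φ Λ) (hη : 0 < η) (hΛ : η ≤ |(Λ ^ 2).im|)
    (hy0 : 0 ≤ y) (hy : y ≤ 1 / 2) (hC : C * (1 + 4 * y) ≤ 2)
    (hD : ∀ n, |(L.next P).W n - L.W n| ≤ D) (hd : 16 * D ≤ y * η) :
    ∃ ψ μ, Bloch (fun n => E + (L.next P).W n) (L.next P).p (C * (1 + 4 * y) * (1 + 4 * y)) ψ μ := by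
  classical
  have hp : (L.next P).p = 2 * L.p := by rw [Level.next_p, hq]
  have hQ : 0 < 2 * L.p := by have := L.hp; omega
  have hC0 : 0 ≤ C := (norm_nonneg _).trans (h.bd 0)
  have hD0 : 0 ≤ D := (abs_nonneg _).trans (hD 0)
  have hC2 : C ≤ 2 := by nlinarith
  have a0 : ∀ n, L.W (n + ((2 * L.p : ℕ) : ℤ)) = L.W n := fun n => by
    rw [← L.W_per_mul 2 n]; congr 1; push_cast; ring
  have a1 : ∀ n, (L.next P).W (n + ((2 * L.p : ℕ) : ℤ)) = (L.next P).W n := fun n => by
    rw [← (L.next P).W_per_mul 1 n, hp]; congr 1; ring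
  let b : ℤ → ℝ := fun n => if ((2 * L.p : ℕ) : ℤ) ∣ n then E + (L.next P).W n else E + L.W n
  have b1 : ∀ n, b (n + ((2 * L.p : ℕ) : ℤ)) = b n := fun n => by
    simp only [b, dvd_add_self_right, a0, a1]
  obtain ⟨ψ, μ, h1, h2⟩ := h.double.site hQ (fun n => by simp only [a0]) b b1 0
    (fun n hn => by
      rw [sub_zero] at hn
      simp only [b, if_neg hn]) hη hΛ hy (D := D) (by
      simp only [b, dvd_zero, if_true, add_sub_add_left_eq_sub]
      exact hD 0) (by
      have : C ^ 2 ≤ 2 ^ 2 := pow_le_pow_left₀ hC0 hC2 2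
      nlinarith)
  have hnd : ¬ ((2 * L.p : ℕ) : ℤ) ∣ (L.p : ℤ) := by
    apply not_dvd_of_lt
    · exact_mod_cast L.hp
    · have := L.hp
      push_cast
      omega
  obtain ⟨χ, ν, h3, -⟩ := h1.site hQ b1 (fun n => E + (L.next P).W n) (fun n => by simp only [a1])
    L.p (fun n hn => by
      simp only [b]
      split_ifs with h4
      · rfl
      · rw [L.W_next_off P n]
        rintro ⟨m, rfl⟩
        rcases Int.even_or_odd' m with ⟨k, rfl | rfl⟩
        · exact h4 ⟨k, by push_cast; ring⟩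
        · exact hn ⟨k, by push_cast; ring⟩) (half_pos hη) h2 hy (D := D) (by
      simp only [b, if_neg hnd, add_sub_add_left_eq_sub]
      exact hD _) (by
      have : (C * (1 + 4 * y)) ^ 2 ≤ 2 ^ 2 := pow_le_pow_left₀ (by positivity) hC 2
      nlinarith)
  exact ⟨χ, ν, by rw [hp]; exact h3⟩

/-- the patterns of period two -/
noncomputable def PQ (k : ℕ) : Pattern :=
  pat 1 ((1 / 2) ^ (k + 5)) ((1 / 2) ^ (k + 5)) le_rfl (by positivity) le_rfl
    (by
      have := half_pow_le (a := 1) (b := k + 5) (by omega)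
      simpa using this)

section Tower

variable (N : ℕ) (hN : 0 < N)

theorem AC_p (k : ℕ) : (seq (const N hN) PQ k).p = 2 ^ k * N := by
  induction k with
  | zero => simp [seq, const]
  | succ k ih =>
    rw [seq_p_succ, ih]
    change 2 * 1 * (2 ^ k * N) = _
    ring

theorem AC_R (k : ℕ) : (16 : ℝ) ^ k * N ≤ 32 * ((1 / 2) ^ (k + 5) * (seq (const N hN) PQ k).R) := by
  induction k with
  | zero =>
    simp only [seq, const_R]
    norm_num
    linarith
  | succ k ih =>
    have h := (seq (const N hN) PQ k).R_next (PQ k) 0 (by change 0 < 2 * 1; norm_num)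
    have g1 : (PQ k).g ((0 + 1 : ℕ) : ℤ) = (1 / 2) ^ (k + 5) * ((1 / 2) ^ (k + 5)) ^ 0 :=
      pat_g_low 0 le_rfl
    simp only [zero_add, Nat.cast_one, pow_zero, mul_one] at g1
    rw [Nat.cast_zero, Pattern.one, zero_add, g1, one_mul, div_le_iff₀ (by positivity)] at h
    change _ ≤ (seq (const N hN) PQ (k + 1)).R * _ at h
    have h1 : (1 / 2 : ℝ) ^ (k + 5) ≤ (1 / 2) ^ 5 := half_pow_le (by omega)
    have h2 := (seq (const N hN) PQ k).R_pos
    have h3 : (1 / 2 : ℝ) ^ (k + 5) * (seq (const N hN) PQ k).R ≤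
        (1 / 2) ^ 5 * (seq (const N hN) PQ k).R := mul_le_mul_of_nonneg_right h1 h2.le
    rw [show k + 1 + 5 = (k + 5) + 1 by ring, pow_succ, pow_succ]
    nlinarith

theorem AC_step (k : ℕ) (n : ℤ) :
    |(seq (const N hN) PQ (k + 1)).W n - (seq (const N hN) PQ k).W n| ≤ 64 / N * (1 / 16) ^ k := by
  refine (W_next_pat (seq (const N hN) PQ k) n).trans ?_
  have hR := AC_R N hN k
  have hR0 := (seq (const N hN) PQ k).R_pos
  have hN' : (0 : ℝ) < N := by exact_mod_cast hN
  rw [div_le_iff₀ (by positivity)]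
  have e : (64 : ℝ) / N * (1 / 16) ^ k * (16 ^ k * N) = 64 := by
    rw [one_div_pow]
    field_simp
  have h3 := mul_le_mul_of_nonneg_left hR (show (0 : ℝ) ≤ 64 / N * (1 / 16) ^ k by positivity)
  nlinarith

theorem AC_S (k : ℕ) : (seq (const N hN) PQ k).S ≤ (const N hN).S * Real.exp 8 := by
  have h := seq_S_le (const N hN) PQ (fun k => 4 * (1 / 2) ^ k) (fun k => by
    refine pat_sum.trans ?_
    have : ((1 / 2 : ℝ) ^ (k + 5)) ^ 2 ≤ (1 / 2) ^ k := by
      rw [← pow_mul]
      exact half_pow_le (by omega)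
    linarith) k
  refine h.trans (mul_le_mul_of_nonneg_left (Real.exp_le_exp.2 ?_) (const N hN).S_nonneg)
  rw [← Finset.mul_sum]
  have := sum_geometric_two_le k
  linarith

theorem AC_summable : Summable (fun k : ℕ => (64 : ℝ) / N * (1 / 16) ^ k) :=
  (summable_geometric_of_lt_one (by norm_num) (by norm_num)).mul_left _

theorem AC_good (m : ℝ) (hm : 10 ^ 8 ≤ m) (hNm : (N : ℝ) = m ^ 2) :
    ∃ A : Set ℝ, MeasurableSet A ∧ volume A ≠ 0 ∧ (∀ E ∈ A, |E| ≤ 3) ∧ ∀ E ∈ A, ∀ k,
      ∃ φ Λ, Bloch (fun n => E + (seq (const N hN) PQ k).W n) (seq (const N hN) PQ k).p 2 φ Λ := by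
  have hm0 : 0 < m := by linarith [show (0 : ℝ) < 10 ^ 8 by norm_num]
  have hN' : (0 : ℝ) < N := by exact_mod_cast hN
  choose F hF hF2 using fun k => dirichlet (fun n => -(seq (const N hN) PQ k).W n)
    (2 * (seq (const N hN) PQ k).p)
  let ε : ℕ → ℝ := fun k => 1 / (8 * N) * (1 / 4) ^ k
  have hε : ∀ k, 0 < ε k := fun k => by simp only [ε]; positivity
  let Bad : Set ℝ := ⋃ k, ⋃ e ∈ F k, Metric.ball e (ε k)
  have hBo : IsOpen Bad :=
    isOpen_iUnion fun k => isOpen_biUnion fun e _ => Metric.isOpen_ball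
  have hBm : volume Bad ≤ ENNReal.ofReal 1 := by
    refine (measure_iUnion_le _).trans ?_
    have h1 : ∀ k, volume (⋃ e ∈ F k, Metric.ball e (ε k)) ≤
        ENNReal.ofReal (1 / 2 * (1 / 2) ^ k) := by
      intro k
      refine (measure_biUnion_finset_le _ _).trans ?_
      simp only [Real.volume_ball, Finset.sum_const, nsmul_eq_mul]
      rw [← ENNReal.ofReal_natCast, ← ENNReal.ofReal_mul (by positivity)]
      apply ENNReal.ofReal_le_ofReal
      have h2 : ((F k).card : ℝ) ≤ 2 * (2 ^ k * N) := by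
        have := hF k
        rw [AC_p] at this
        exact_mod_cast this
      refine (mul_le_mul_of_nonneg_right h2 (by have := hε k; positivity)).trans (le_of_eq ?_)
      simp only [ε]
      rw [show (1 / 4 : ℝ) = 1 / 2 * (1 / 2) by norm_num, mul_pow, one_div_pow (a := (2 : ℝ))]
      field_simp
      norm_num
    refine (ENNReal.tsum_le_tsum h1).trans (le_of_eq ?_)
    rw [← ENNReal.ofReal_tsum_of_nonneg (fun k => by positivity)
      (summable_geometric_two.mul_left _), tsum_mul_left, tsum_geometric_two]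
    norm_num
  refine ⟨Set.Icc (-3) (-1) \ Bad, measurableSet_Icc.diff hBo.measurableSet, ?_, ?_, ?_⟩
  · intro h0
    have h1 := measure_le_inter_add_diff volume (Set.Icc (-3 : ℝ) (-1)) Bad
    rw [h0, add_zero, Real.volume_Icc] at h1
    have h2 := (h1.trans (measure_mono Set.inter_subset_right)).trans hBm
    rw [ENNReal.ofReal_le_ofReal_iff zero_le_one] at h2
    norm_num at h2
  · intro E hE
    rw [abs_le]
    constructor <;> linarith [hE.1.1, hE.1.2]
  · intro E hE
    have key : ∀ k, ∃ φ Λ, Bloch (fun n => E + (seq (const N hN) PQ k).W n)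
        (seq (const N hN) PQ k).p (2 - (1 / 2) ^ (k + 1)) φ Λ := by
      intro k
      induction k with
      | zero =>
        obtain ⟨φ, Λ, h⟩ := bloch_base N hN E hE.1
        exact ⟨φ, Λ, h.mono (by norm_num)⟩
      | succ k ih =>
        obtain ⟨φ, Λ, h⟩ := ih
        have t0 : (0 : ℝ) < (1 / 2) ^ k := by positivity
        have t1 : (1 / 2 : ℝ) ^ k ≤ 1 := pow_le_one₀ (by norm_num) (by norm_num)
        have e4 : (1 / 4 : ℝ) ^ k = ((1 / 2) ^ k) ^ 2 := by
          rw [← pow_mul, mul_comm, pow_mul]; norm_num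
        have e16 : (1 / 16 : ℝ) ^ k = ((1 / 2) ^ k) ^ 4 := by
          rw [← pow_mul, mul_comm, pow_mul]; norm_num
        have hΛ : 1 / (200 * m) * (1 / 4) ^ k ≤ |(Λ ^ 2).im| := by
          by_contra hc
          obtain ⟨s, s1, s2, s3, s4⟩ := (h.double.mono (D := 2) (by
            have : (0 : ℝ) < (1 / 2) ^ (k + 1) := by positivity
            linarith)).resonant (not_le.1 hc).le
          obtain ⟨e, he, he2⟩ := hF2 k E (ε k) s (hε k).le (fun n => by linarith [s1 n]) s2 (by
            refine s3.trans_lt (lt_of_lt_of_le ?_ (mul_le_mul_of_nonneg_left s4 (sq_nonneg _)))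
            have h2 : (N : ℝ) ≤ ((seq (const N hN) PQ k).p : ℝ) := by
              rw [AC_p]
              push_cast
              exact le_mul_of_one_le_left hN'.le (one_le_pow₀ (by norm_num))
            have h3 : (0 : ℝ) < (1 / 4) ^ k := by positivity
            calc 16 * (1 / (200 * m) * (1 / 4) ^ k) ^ 2
                = 1 / 2500 * (((1 / 4) ^ k) ^ 2 / m ^ 2) := by field_simp; norm_num
              _ < 1 / 2048 * (((1 / 4) ^ k) ^ 2 / m ^ 2) := by
                apply mul_lt_mul_of_pos_right (by norm_num) (by positivity)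
              _ = ε k ^ 2 * (N / 32) := by
                simp only [ε]
                rw [hNm]
                field_simp
                norm_num
              _ ≤ _ := by gcongr)
          apply hE.2
          simp only [Bad, Set.mem_iUnion]
          exact ⟨k, e, he, by rwa [Metric.mem_ball, Real.dist_eq]⟩
        obtain ⟨ψ, μ, h2⟩ := bloch_step (seq (const N hN) PQ k) (PQ k) rfl E h (by positivity) hΛ
          (y := (1 / 2) ^ k / 128) (by positivity) (by linarith) (by
            rw [pow_succ]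
            nlinarith) (AC_step N hN k) (by
            rw [e4, e16, hNm]
            generalize (1 / 2 : ℝ) ^ k = t at *
            have h3 : t ^ 4 ≤ t ^ 3 := pow_le_pow_of_le_one t0.le t1 (by norm_num)
            calc 16 * (64 / m ^ 2 * t ^ 4) ≤ 16 * (64 / m ^ 2 * t ^ 3) := by gcongr
              _ = 1024 / m * (t ^ 3 / m) := by field_simp; norm_num
              _ ≤ 1 / 25600 * (t ^ 3 / m) := by
                apply mul_le_mul_of_nonneg_right _ (by positivity)
                rw [div_le_div_iff₀ hm0 (by norm_num)]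
                linarith
              _ = t / 128 * (1 / (200 * m) * t ^ 2) := by field_simp; norm_num)
        refine ⟨ψ, μ, h2.mono ?_⟩
        rw [pow_succ, pow_succ, pow_succ]
        generalize (1 / 2 : ℝ) ^ k = t at *
        nlinarith [mul_pos t0 t0, mul_pos (mul_pos t0 t0) t0]
    intro k
    obtain ⟨φ, Λ, h⟩ := key k
    refine ⟨φ, Λ, h.mono ?_⟩
    have : (0 : ℝ) < (1 / 2) ^ (k + 1) := by positivity
    linarith

end Tower

theorem bounded_limit (a : ℕ → ℤ → ℝ) (b : ℤ → ℝ) (hab : ∀ n, Tendsto (fun k => a k n) atTop (𝓝 (b n)))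
    (Q : ℕ → ℕ) (h : ∀ k, ∃ φ Λ, Bloch (a k) (Q k) 2 φ Λ) :
    ∃ c : ℤ → ℝ, (∀ n, c (n + 1) + c (n - 1) = b n * c n) ∧ c 0 = 1 ∧ ∀ n, |c n| ≤ 4 := by
  choose φ Λ hφ using h
  let c : ℕ → ℤ → ℝ := fun k n => -(conj (φ k 1) * φ k n).im
  have c1 : ∀ k n, c k (n + 1) + c k (n - 1) = a k n * c k n := by
    intro k n
    simp only [c]
    rw [← neg_add, ← Complex.add_im, ← mul_add, (hφ k).eqn, mul_left_comm, Complex.im_ofReal_mul,
      mul_neg]
  have c2 : ∀ k, c k 0 = 1 := by
    intro k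
    have := (hφ k).wr 0
    simp only [c, zero_add, Complex.mul_im, Complex.conj_re, Complex.conj_im] at this ⊢
    linarith
  have c3 : ∀ k, c k ∈ Set.pi Set.univ (fun _ : ℤ => Set.Icc (-4 : ℝ) 4) := by
    intro k n _
    rw [Set.mem_Icc, ← abs_le]
    simp only [c, abs_neg]
    refine (Complex.abs_im_le_norm _).trans ?_
    rw [norm_mul, Complex.norm_conj]
    have := mul_le_mul ((hφ k).bd 1) ((hφ k).bd n) (norm_nonneg _) (by norm_num)
    linarith
  obtain ⟨x, hx, f, hf, hlim⟩ :=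
    (isCompact_univ_pi (fun _ : ℤ => isCompact_Icc (a := (-4 : ℝ)) (b := 4))).tendsto_subseq c3
  have hl : ∀ n, Tendsto (fun k => c (f k) n) atTop (𝓝 (x n)) := fun n =>
    tendsto_pi_nhds.1 hlim n
  refine ⟨x, fun n => ?_, ?_, fun n => abs_le.2 (hx n trivial)⟩
  · have h1 := (hl (n + 1)).add (hl (n - 1))
    have h2 := ((hab n).comp hf.tendsto_atTop).mul (hl n)
    simp only [c1] at h1
    exact tendsto_nhds_unique h1 h2
  · have h1 := hl 0
    simp only [c2] at h1
    exact (tendsto_const_nhds_iff.1 h1).symm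

theorem ac_main : ∃ V : ℤ → ℝ, LimitPeriodic V ∧ ∃ C : ℝ, (∀ n, |V n| ≤ C) ∧
    ∀ H, IsOp V H → ∀ μ, IsSpec H (dl 0) μ → μ {0} ≠ 0 ∧ ¬ μ ⟂ₘ volume := by
  obtain ⟨N, hN, m, hm, hNm⟩ : ∃ N : ℕ, 0 < N ∧ ∃ m : ℝ, 10 ^ 8 ≤ m ∧ (N : ℝ) = m ^ 2 :=
    ⟨10 ^ 16, by norm_num, 10 ^ 8, le_rfl, by norm_num⟩
  obtain ⟨W, u, h0, hs, he, hHas⟩ :=
    limit (const N hN) PQ _ (AC_summable N) (AC_step N hN) _ (AC_S N hN)
  obtain ⟨C, hC⟩ := lim_bdd hHas _ (AC_summable N) (AC_step N hN)
  have hC' : ∀ n, |-W n| ≤ C := fun n => by rw [abs_neg]; exact hC n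
  refine ⟨fun n => -W n, neg_limitPeriodic hHas _ (AC_summable N) (AC_step N hN), C, hC',
    fun H hH μ hμ => ⟨?_, ?_⟩⟩
  · obtain ⟨φ, hφ0, hφ⟩ := exists_eigen h0 hs he (fun n => rfl) hH
    apply hμ.atom_of_eigen (hH.sa hC') hφ
    rw [← inner_conj_symm, inner_dl, hφ0]
    simp
  · obtain ⟨A, hA, hA0, hAD, hgood⟩ := AC_good N hN m hm hNm
    refine not_singular hC' hH hμ A hA hA0 3 4 hAD (fun E hE => ?_)
    obtain ⟨c, c1, c2, c3⟩ := bounded_limit (fun k n => E + (seq (const N hN) PQ k).W n)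
      (fun n => E + W n) (fun n => by
        apply Tendsto.const_add
        rw [Metric.tendsto_nhds]
        intro δ hδ
        filter_upwards [lim_periodic hHas _ (AC_summable N) (AC_step N hN) δ hδ] with k hk
        rw [Real.dist_eq, abs_sub_comm]
        exact hk n) _ (hgood E hE)
    exact ⟨c, fun n => by linarith [c1 n], c2, c3⟩

end Pool.Agent.H1Z.LP
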