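import Pool.Agent.H1Z.LP.Level

/-!
Bounded Bloch solutions and their stability under a change of the potential at one site.
-/

set_option linter.unusedSectionVars false
set_option linter.deprecated false
set_option linter.unusedSimpArgs false

namespace Pool.Agent.H1Z.LP

open Finset Filter Topology ComplexConjugate

/-- a normalised bounded Bloch solution -/
structure Bloch (a : ℤ → ℝ) (Q : ℕ) (C : ℝ) (φ : ℤ → ℂ) (Λ : ℂ) : Prop where
  eqn : ∀ n, φ (n + 1) + φ (n - 1) = (a n : ℂ) * φ n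
  per : ∀ n, φ (n + Q) = Λ * φ n
  uni : ‖Λ‖ = 1
  wr : ∀ n, (conj (φ n) * φ (n + 1)).im = 1
  bd : ∀ n, ‖φ n‖ ≤ C

namespace Bloch

variable {a : ℤ → ℝ} {Q : ℕ} {C : ℝ} {φ : ℤ → ℂ} {Λ : ℂ}

theorem mono (h : Bloch a Q C φ Λ) {D : ℝ} (hD : C ≤ D) : Bloch a Q D φ Λ :=
  ⟨h.eqn, h.per, h.uni, h.wr, fun n => (h.bd n).trans hD⟩

theorem shift (h : Bloch a Q C φ Λ) (s : ℤ) :
    Bloch (fun n => a (n + s)) Q C (fun n => φ (n + s)) Λ := by
  refine ⟨fun n => ?_, fun n => ?_, h.uni, fun n => ?_, fun n => h.bd _⟩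
  · rw [← h.eqn]; congr 2 <;> ring
  · rw [← h.per]; congr 1; ring
  · rw [← h.wr (n + s)]; congr 3; ring

theorem phase (h : Bloch a Q C φ Λ) (u : ℂ) (hu : ‖u‖ = 1) :
    Bloch a Q C (fun n => u * φ n) Λ := by
  refine ⟨fun n => ?_, fun n => ?_, h.uni, fun n => ?_, fun n => ?_⟩
  · linear_combination u * h.eqn n
  · linear_combination u * h.per n
  · have h1 : conj u * u = 1 := by
      rw [Complex.conj_mul', hu]; simp
    have : conj (u * φ n) * (u * φ (n + 1)) = conj (φ n) * φ (n + 1) := by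
      rw [map_mul]
      linear_combination (conj (φ n) * φ (n + 1)) * h1
    rw [this, h.wr]
  · rw [norm_mul, hu, one_mul]; exact h.bd n

theorem double (h : Bloch a Q C φ Λ) : Bloch a (2 * Q) C φ (Λ ^ 2) := by
  refine ⟨h.eqn, fun n => ?_, by rw [norm_pow, h.uni, one_pow], h.wr, h.bd⟩
  rw [show n + ((2 * Q : ℕ) : ℤ) = n + Q + Q by push_cast; ring, h.per, h.per]
  ring

theorem one_le (h : Bloch a Q C φ Λ) (n : ℤ) : 1 ≤ ‖φ n‖ * C := by
  have h1 := h.wr n
  have h2 := Complex.abs_im_le_norm (conj (φ n) * φ (n + 1))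
  rw [h1, abs_one, norm_mul, Complex.norm_conj] at h2
  exact h2.trans (mul_le_mul_of_nonneg_left (h.bd _) (norm_nonneg _))

theorem glue (hQ : 0 < Q) (ha : ∀ n, a (n + Q) = a n) (G : ℤ → ℂ) (μ : ℂ) (d : ℝ)
    (hG : ∀ n, G (n + 1) + G (n - 1) = (a n : ℂ) * G n) (hμ : ‖μ‖ = 1)
    (hw : ∀ n, (conj (G n) * G (n + 1)).im = 1) (hb : ∀ n, ‖G n‖ ≤ C)
    (h1 : G Q = μ * G 0) (h2 : μ * G 1 - G (Q + 1) = μ * d * G 0) (a' : ℤ → ℝ)
    (hon : ∀ n, (Q : ℤ) ∣ n → a' n = a n + d) (hoff : ∀ n, ¬ (Q : ℤ) ∣ n → a' n = a n) :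
    ∃ ψ, Bloch a' Q C ψ μ := by
  have hp : (0 : ℤ) < Q := by exact_mod_cast hQ
  have hμ0 : μ ≠ 0 := by
    intro h; rw [h] at hμ; simp at hμ
  have ham : ∀ m n : ℤ, a (m * Q + n) = a n := fun m n => by
    have h : Function.Periodic a (Q : ℤ) := ha
    have := h.int_mul m n
    rw [add_comm]
    simpa using this
  let ψ : ℤ → ℂ := fun n => μ ^ (n / Q) * G (n % Q)
  have hlt : ∀ m j : ℤ, 0 ≤ j → j < Q → ψ (m * Q + j) = μ ^ m * G j := by
    intro m j j0 j1
    simp only [ψ]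
    rw [add_comm, Int.add_mul_ediv_right _ _ hp.ne', Int.ediv_eq_zero_of_lt j0 j1, zero_add,
      Int.add_mul_emod_self_right, Int.emod_eq_of_lt j0 j1]
  have hle : ∀ m j : ℤ, 0 ≤ j → j ≤ Q → ψ (m * Q + j) = μ ^ m * G j := by
    intro m j j0 j1
    rcases j1.lt_or_eq with h | h
    · exact hlt m j j0 h
    · rw [h, show m * Q + Q = (m + 1) * Q + 0 by ring, hlt _ 0 le_rfl hp, h1, zpow_add_one₀ hμ0]
      ring
  have hdec : ∀ n : ℤ, ∃ m j : ℤ, 0 ≤ j ∧ j < Q ∧ n = m * Q + j := fun n =>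
    ⟨n / Q, n % Q, Int.emod_nonneg n hp.ne', Int.emod_lt_of_pos n hp,
      by have := Int.ediv_mul_add_emod n Q; linarith⟩
  have hn : ∀ m : ℤ, ‖μ ^ m‖ = 1 := fun m => by rw [norm_zpow, hμ, one_zpow]
  refine ⟨ψ, fun n => ?_, fun n => ?_, hμ, fun n => ?_, fun n => ?_⟩
  · obtain ⟨m, j, j0, j1, rfl⟩ := hdec n
    rcases j0.lt_or_eq with h | h
    · have hnd : ¬ (Q : ℤ) ∣ m * Q + j := fun hd =>
        absurd (Int.le_of_dvd h ((dvd_add_right (Dvd.intro_left m rfl)).1 hd)) (by omega)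
      rw [hoff _ hnd, ham, add_assoc, add_sub_assoc, hle m (j + 1) (by omega) (by omega),
        hle m (j - 1) (by omega) (by omega), hlt m j j0 j1]
      linear_combination μ ^ m * hG j
    · subst h
      rw [hon _ (by simp), ham, add_assoc, hle m (0 + 1) (by omega) (by omega),
        show m * Q + 0 - 1 = (m - 1) * Q + (Q - 1) by ring, hle (m - 1) (Q - 1) (by omega) (by omega),
        hlt m 0 le_rfl hp]
      have e1 := hG Q
      have e2 := ha 0
      rw [zero_add] at e2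
      rw [e2, h1] at e1
      have e3 : μ ^ m = μ ^ (m - 1) * μ := by rw [← zpow_add_one₀ hμ0, sub_add_cancel]
      rw [e3, zero_add]
      push_cast
      linear_combination μ ^ (m - 1) * e1 + μ ^ (m - 1) * h2
  · obtain ⟨m, j, j0, j1, rfl⟩ := hdec n
    rw [show m * Q + j + Q = (m + 1) * Q + j by ring, hlt _ j j0 j1, hlt _ j j0 j1,
      zpow_add_one₀ hμ0]
    ring
  · obtain ⟨m, j, j0, j1, rfl⟩ := hdec n
    rw [add_assoc, hle m (j + 1) (by omega) (by omega), hlt m j j0 j1]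
    have h3 : conj (μ ^ m) * μ ^ m = 1 := by
      rw [Complex.conj_mul', hn]; simp
    have : conj (μ ^ m * G j) * (μ ^ m * G (j + 1)) = conj (G j) * G (j + 1) := by
      rw [map_mul]
      linear_combination (conj (G j) * G (j + 1)) * h3
    rw [this, hw]
  · simp only [ψ]
    rw [norm_mul, hn, one_mul]
    exact hb _

theorem coeffs {c σ γ y : ℝ} (hcs : c ^ 2 + σ ^ 2 = 1) (hσ : σ ≠ 0) (hy : y ≤ 1 / 2)
    (h4 : 4 * |γ| ≤ y * |σ|) :
    ∃ ζ κ : ℝ, σ * ζ ^ 2 = σ + 2 * γ * c - σ * γ ^ 2 ∧ 4 * ζ * κ ^ 2 = 1 ∧ 1 / 2 ≤ ζ ∧ 0 < κ ∧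
      κ * (|γ| + |ζ + 1|) + κ * (|γ| + |ζ - 1|) ≤ 1 + 4 * y := by
  have hs0 : 0 < |σ| := abs_pos.2 hσ
  have hs1 : |σ| ≤ 1 := by
    rw [← sq_le_one_iff_abs_le_one]; nlinarith [sq_nonneg c]
  have hc1 : |c| ≤ 1 := by
    rw [← sq_le_one_iff_abs_le_one]; nlinarith [sq_nonneg σ]
  have hg0 := abs_nonneg γ
  have hy0 : 0 ≤ y := by
    by_contra hc
    have := mul_neg_of_neg_of_pos (not_le.1 hc) hs0
    linarith
  have hg1 : |γ| ≤ y / 4 := by nlinarith
  have hg2 : γ ^ 2 ≤ y / 4 := by rw [← sq_abs]; nlinarith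
  have ht : |2 * γ * c / σ| ≤ y / 2 := by
    rw [abs_div, div_le_iff₀ hs0, abs_mul, abs_mul, abs_two]
    nlinarith
  set t := 2 * γ * c / σ with htd
  have ht2 := abs_le.1 ht
  have hpos : 0 ≤ 1 + t - γ ^ 2 := by linarith [ht2.1]
  set ζ := Real.sqrt (1 + t - γ ^ 2) with hζ
  have z0 : 0 ≤ ζ := Real.sqrt_nonneg _
  have z2 : ζ ^ 2 = 1 + t - γ ^ 2 := Real.sq_sqrt hpos
  have z3 : 1 - y ≤ ζ := by
    by_contra hc
    have := not_le.1 hc
    nlinarith [ht2.1]
  have z4 : ζ ≤ 1 + y := by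
    by_contra hc
    have := not_le.1 hc
    nlinarith [ht2.2, sq_nonneg γ]
  have z5 : 0 < ζ := by linarith
  set w := Real.sqrt ζ with hw
  have w0 : 0 < w := Real.sqrt_pos.2 z5
  have w2 : w ^ 2 = ζ := Real.sq_sqrt z0
  have w3 : 1 ≤ (1 + y) * w := by
    by_contra hc
    have h5 := not_le.1 hc
    have h6 : ((1 + y) * w) ^ 2 < 1 := by
      have : 0 ≤ (1 + y) * w := by positivity
      nlinarith
    rw [mul_pow, w2] at h6
    have h7 : (1 + y) ^ 2 * (1 - y) ≤ (1 + y) ^ 2 * ζ := mul_le_mul_of_nonneg_left z3 (by positivity)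
    nlinarith [mul_nonneg hy0 (show 0 ≤ 1 - y - y ^ 2 by nlinarith)]
  refine ⟨ζ, 1 / (2 * w), ?_, ?_, by linarith, by positivity, ?_⟩
  · rw [z2, htd]
    field_simp
  · rw [← w2]
    field_simp
    norm_num
  · have k1 : 1 / (2 * w) ≤ (1 + y) / 2 := by
      rw [div_le_div_iff₀ (by positivity) (by norm_num)]
      linarith
    have k2 : |ζ - 1| ≤ y := by rw [abs_le]; constructor <;> linarith
    rw [abs_of_pos (by linarith : 0 < ζ + 1), ← mul_add]
    calc 1 / (2 * w) * (|γ| + (ζ + 1) + (|γ| + |ζ - 1|))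
        ≤ (1 + y) / 2 * (2 + 4 * y) := by
          apply mul_le_mul k1 (by linarith) (by positivity) (by positivity)
      _ ≤ 1 + 4 * y := by nlinarith

theorem site_real (h : Bloch a Q C φ Λ) (hQ : 0 < Q) (ha : ∀ n, a (n + Q) = a n)
    (hr : (φ 0).im = 0) {η y d : ℝ} (hη : 0 < η) (hΛ : η ≤ |Λ.im|) (hy : y ≤ 1 / 2)
    (hd : 2 * |d| * C ^ 2 ≤ y * η) (a' : ℤ → ℝ)
    (hon : ∀ n, (Q : ℤ) ∣ n → a' n = a n + d) (hoff : ∀ n, ¬ (Q : ℤ) ∣ n → a' n = a n) :
    ∃ ψ μ, Bloch a' Q (C * (1 + 4 * y)) ψ μ ∧ η / 2 ≤ |μ.im| := by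
  set r := (φ 0).re with hrd
  set c := Λ.re with hc
  set σ := Λ.im with hσd
  have hcs : c ^ 2 + σ ^ 2 = 1 := by
    have := Complex.sq_norm Λ
    rw [h.uni, Complex.normSq_apply] at this
    nlinarith
  have hσ : σ ≠ 0 := by
    intro h0; rw [h0, abs_zero] at hΛ; linarith
  have hC0 : 0 ≤ C := (norm_nonneg _).trans (h.bd 0)
  have hr2 : r ^ 2 ≤ C ^ 2 := by
    rw [← sq_abs r]
    exact pow_le_pow_left₀ (abs_nonneg _) ((Complex.abs_re_le_norm _).trans (h.bd 0)) 2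
  have hy0 : 0 ≤ y := by
    by_contra hc
    have := mul_neg_of_neg_of_pos (not_le.1 hc) hη
    have : 0 ≤ 2 * |d| * C ^ 2 := by positivity
    linarith
  set γ := -d * r ^ 2 / 2 with hγ
  obtain ⟨ζ, κ, e1, e2, e3, e4, e5⟩ := coeffs (γ := γ) hcs hσ hy (by
    rw [hγ, abs_div, abs_mul, abs_neg, abs_two, abs_of_nonneg (sq_nonneg r)]
    have := mul_le_mul_of_nonneg_left hr2 (abs_nonneg d)
    have := mul_le_mul_of_nonneg_left hΛ hy0
    linarith)
  have hw0 := h.wr 0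
  rw [zero_add] at hw0
  simp only [Complex.mul_im, Complex.conj_re, Complex.conj_im, hr, neg_zero, zero_mul, add_zero,
    ← hrd] at hw0
  let A : ℂ := ⟨-κ * γ, κ * (ζ + 1)⟩
  let B : ℂ := ⟨κ * γ, -κ * (ζ - 1)⟩
  let μ : ℂ := ⟨c - γ * σ, σ * ζ⟩
  have hμ : ‖μ‖ = 1 := by
    have : ‖μ‖ ^ 2 = 1 := by
      rw [Complex.sq_norm, Complex.normSq_apply]
      simp only [μ]
      linear_combination hcs + σ * e1
    nlinarith [norm_nonneg μ]
  have hA : ‖A‖ ≤ κ * (|γ| + |ζ + 1|) := by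
    refine (Complex.norm_le_abs_re_add_abs_im A).trans (le_of_eq ?_)
    simp only [A, abs_mul, abs_neg, abs_of_pos e4]
    ring
  have hB : ‖B‖ ≤ κ * (|γ| + |ζ - 1|) := by
    refine (Complex.norm_le_abs_re_add_abs_im B).trans (le_of_eq ?_)
    simp only [B, abs_mul, abs_neg, abs_of_pos e4]
    ring
  obtain ⟨ψ, hψ⟩ := glue (C := C * (1 + 4 * y)) hQ ha (fun n => A * φ n + B * conj (φ n)) μ d
    (fun n => by
      have h1 := h.eqn n
      have h2 := congrArg conj h1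
      simp only [map_add, map_mul, Complex.conj_ofReal] at h2
      linear_combination A * h1 + B * h2) hμ
    (fun n => by
      have h1 := h.wr n
      simp only [Complex.mul_im, Complex.conj_re, Complex.conj_im, Complex.mul_re, map_add,
        map_mul, Complex.add_re, Complex.add_im, Complex.conj_conj, A, B] at h1 ⊢
      linear_combination (4 * ζ * κ ^ 2) * h1 + e2)
    (fun n => by
      refine (norm_add_le _ _).trans ?_
      rw [norm_mul, norm_mul, Complex.norm_conj, ← add_mul, mul_comm C]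
      exact mul_le_mul (by linarith) (h.bd n) (norm_nonneg _) (by linarith))
    (by
      have h1 := h.per 0
      rw [zero_add] at h1
      simp only [h1]
      apply Complex.ext
      · simp only [Complex.mul_im, Complex.conj_re, Complex.conj_im, Complex.mul_re, map_add,
          map_mul, Complex.add_re, Complex.add_im, A, B, μ, hr, ← hrd, ← hc, ← hσd]
        ring
      · simp only [Complex.mul_im, Complex.conj_re, Complex.conj_im, Complex.mul_re, map_add,
          map_mul, Complex.add_re, Complex.add_im, A, B, μ, hr, ← hrd, ← hc, ← hσd]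
        ring)
    (by
      have h1 := h.per 1
      rw [add_comm] at h1
      simp only [h1]
      have hdr : d * r = -2 * γ * (φ 1).im := by
        rw [hγ]
        linear_combination (-d * r) * hw0
      apply Complex.ext
      · simp only [Complex.mul_im, Complex.conj_re, Complex.conj_im, Complex.mul_re, map_add,
          map_mul, Complex.add_re, Complex.add_im, Complex.sub_re, Complex.sub_im, A, B, μ, hr,
          Complex.ofReal_re, Complex.ofReal_im, ← hrd, ← hc, ← hσd]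
        linear_combination (2 * κ * σ * ζ) * hdr
      · simp only [Complex.mul_im, Complex.conj_re, Complex.conj_im, Complex.mul_re, map_add,
          map_mul, Complex.add_re, Complex.add_im, Complex.sub_re, Complex.sub_im, A, B, μ, hr,
          Complex.ofReal_re, Complex.ofReal_im, ← hrd, ← hc, ← hσd]
        linear_combination (-2 * κ * (φ 1).im) * e1 - (2 * κ * (c - γ * σ)) * hdr)
    a' hon hoff
  refine ⟨ψ, μ, hψ, ?_⟩
  simp only [μ, abs_mul]
  rw [abs_of_pos (by linarith : 0 < ζ)]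
  nlinarith

theorem site (h : Bloch a Q C φ Λ) (hQ : 0 < Q) (ha : ∀ n, a (n + Q) = a n) (a' : ℤ → ℝ)
    (ha' : ∀ n, a' (n + Q) = a' n) (s : ℤ) (hoff : ∀ n, ¬ (Q : ℤ) ∣ n - s → a' n = a n)
    {η y D : ℝ} (hη : 0 < η) (hΛ : η ≤ |Λ.im|) (hy : y ≤ 1 / 2) (hD : |a' s - a s| ≤ D)
    (hd : 2 * D * C ^ 2 ≤ y * η) :
    ∃ ψ μ, Bloch a' Q (C * (1 + 4 * y)) ψ μ ∧ η / 2 ≤ |μ.im| := by
  have h0 : φ s ≠ 0 := by
    intro h0
    have := h.one_le s
    rw [h0] at this
    simp at this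
    linarith
  have hn : (‖φ s‖ : ℂ) ≠ 0 := by simpa using h0
  have h1 := (h.shift s).phase (conj (φ s) / ‖φ s‖) (by
    rw [norm_div, Complex.norm_conj, Complex.norm_real, norm_norm, div_self (by simpa using h0)])
  have hm : ∀ (b : ℤ → ℝ), (∀ n, b (n + Q) = b n) → ∀ m : ℤ, b (Q * m + s) = b s := by
    intro b hb m
    have h : Function.Periodic b (Q : ℤ) := hb
    have := h.int_mul m s
    rw [add_comm, mul_comm]
    simpa using this
  obtain ⟨ψ, μ, h2, h3⟩ := h1.site_real hQ (fun n => by rw [← ha (n + s)]; congr 1; ring)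
    (by
      rw [zero_add, div_mul_eq_mul_div, Complex.conj_mul', sq, mul_div_assoc, div_self hn, mul_one]
      simp) hη hΛ hy (d := a' s - a s) (by nlinarith [sq_nonneg C]) (fun n => a' (n + s))
    (by
      rintro _ ⟨m, rfl⟩
      simp only [hm a ha, hm a' ha']
      ring)
    (fun n hn => hoff _ (by simpa using hn))
  refine ⟨fun n => ψ (n + -s), μ, ?_, h3⟩
  have := h2.shift (-s)
  simpa using this

end Bloch

end Pool.Agent.H1Z.LP
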