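import Pool.Agent.H1Z.LP.Bloch

/-!
Resonant energies lie near finitely many points.
-/

set_option linter.unusedSectionVars false
set_option linter.deprecated false
set_option linter.unusedSimpArgs false

namespace Pool.Agent.H1Z.LP

open Finset Filter Topology ComplexConjugate

theorem finite_near {ι : Type*} [Fintype ι] [DecidableEq ι] (A : Matrix ι ι ℝ)
    (hA : A.IsHermitian) : ∃ F : Finset ℝ, F.card ≤ Fintype.card ι ∧
      ∀ (E ε : ℝ) (v : ι → ℝ), 0 ≤ ε → ∑ i, (A.mulVec v i - E * v i) ^ 2 < ε ^ 2 * ∑ i, v i ^ 2 →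
        ∃ e ∈ F, |E - e| < ε := by
  classical
  have hT : (Matrix.toEuclideanLin A).IsSymmetric := Matrix.isHermitian_iff_isSymmetric.1 hA
  have hn : Module.finrank ℝ (EuclideanSpace ℝ ι) = Fintype.card ι := finrank_euclideanSpace
  refine ⟨Finset.univ.image (hT.eigenvalues hn), Finset.card_image_le.trans (by simp),
    fun E ε v hε h => ?_⟩
  by_contra hc
  push_neg at hc
  set b := hT.eigenvectorBasis hn with hb
  set x : EuclideanSpace ℝ ι := WithLp.toLp 2 v with hx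
  have h1 : ∑ i, v i ^ 2 = ∑ j, (b.repr x j) ^ 2 := by
    rw [← EuclideanSpace.real_norm_sq_eq (b.repr x), b.repr.norm_map,
      EuclideanSpace.real_norm_sq_eq]
  have h2 : ∑ i, (A.mulVec v i - E * v i) ^ 2 =
      ∑ j, (b.repr (Matrix.toEuclideanLin A x - E • x) j) ^ 2 := by
    rw [← EuclideanSpace.real_norm_sq_eq, b.repr.norm_map, EuclideanSpace.real_norm_sq_eq]
    rfl
  rw [h1, h2, Finset.mul_sum] at h
  refine absurd h (not_lt.2 (Finset.sum_le_sum fun j _ => ?_))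
  have h3 := hT.eigenvectorBasis_apply_self_apply hn x j
  rw [map_sub, map_smul, PiLp.sub_apply, PiLp.smul_apply, h3, smul_eq_mul, ← sub_mul, mul_pow]
  apply mul_le_mul_of_nonneg_right _ (sq_nonneg _)
  have h4 := hc (hT.eigenvalues hn j) (Finset.mem_image_of_mem _ (Finset.mem_univ j))
  rw [← sq_abs (_ - E), abs_sub_comm]
  exact pow_le_pow_left₀ hε h4 2

theorem dirichlet (V : ℤ → ℝ) (Q : ℕ) : ∃ F : Finset ℝ, F.card ≤ Q ∧
    ∀ (E ε : ℝ) (s : ℤ → ℝ), 0 ≤ ε → (∀ n, s (n + 1) + s (n - 1) + V n * s n = E * s n) →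
      s 0 = 0 → s Q ^ 2 < ε ^ 2 * ∑ j ∈ range Q, s j ^ 2 → ∃ e ∈ F, |E - e| < ε := by
  classical
  let A : Matrix (Ioo (0 : ℤ) Q) (Ioo (0 : ℤ) Q) ℝ := fun i j =>
    (if (j : ℤ) = i + 1 then 1 else 0) + (if (j : ℤ) = i - 1 then 1 else 0) +
      (if (j : ℤ) = i then V i else 0)
  have hA : A.IsHermitian := by
    ext i j
    simp only [Matrix.conjTranspose_apply, star_trivial, A]
    by_cases h : (i : ℤ) = j
    · have : i = j := Subtype.ext h
      rw [this]
    · rw [if_neg h, if_neg (Ne.symm h)]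
      split_ifs <;> first | rfl | omega | ring
  obtain ⟨F, hF, hF2⟩ := finite_near A hA
  refine ⟨F, hF.trans (by simp), fun E ε s hε hs h0 h => hF2 E ε (fun i => s i) hε ?_⟩
  have h1 : ∀ i : Ioo (0 : ℤ) Q, A.mulVec (fun i => s i) i - E * s i =
      if (i : ℤ) = Q - 1 then -s Q else 0 := by
    intro i
    have hi := Finset.mem_Ioo.1 i.2
    simp only [Matrix.mulVec, dotProduct, A, add_mul, ite_mul, one_mul, zero_mul,
      Finset.sum_add_distrib]
    rw [Finset.sum_coe_sort (Ioo (0 : ℤ) Q) (fun j => if j = (i : ℤ) + 1 then s j else 0),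
      Finset.sum_coe_sort (Ioo (0 : ℤ) Q) (fun j => if j = (i : ℤ) - 1 then s j else 0),
      Finset.sum_coe_sort (Ioo (0 : ℤ) Q) (fun j => if j = (i : ℤ) then V i * s j else 0),
      Finset.sum_ite_eq', Finset.sum_ite_eq', Finset.sum_ite_eq', if_pos i.2, ← hs i]
    have e1 : (if (i : ℤ) - 1 ∈ Ioo (0 : ℤ) Q then s (i - 1) else 0) = s (i - 1) := by
      split_ifs with h
      · rfl
      · have : (i : ℤ) - 1 = 0 := by
          rw [Finset.mem_Ioo] at h
          omega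
        rw [this, h0]
    rw [e1]
    by_cases h : (i : ℤ) = Q - 1
    · rw [if_pos h, if_neg (by rw [Finset.mem_Ioo]; omega), h, sub_add_cancel]
      ring
    · rw [if_neg h, if_pos (by rw [Finset.mem_Ioo]; omega)]
      ring
  simp only [h1]
  rw [Finset.sum_coe_sort (Ioo (0 : ℤ) Q) (fun j => (if j = (Q : ℤ) - 1 then -s Q else 0) ^ 2),
    Finset.sum_coe_sort (Ioo (0 : ℤ) Q) (fun j => s j ^ 2)]
  have h2 : ∑ j ∈ Ioo (0 : ℤ) Q, (if j = (Q : ℤ) - 1 then -s Q else 0) ^ 2 ≤ s Q ^ 2 := by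
    simp only [ite_pow, neg_sq, ne_eq, OfNat.ofNat_ne_zero, not_false_eq_true, zero_pow]
    rw [Finset.sum_ite_eq']
    split_ifs
    · exact le_rfl
    · positivity
  have h3 : ∑ j ∈ range Q, s j ^ 2 ≤ ∑ j ∈ Ioo (0 : ℤ) Q, s j ^ 2 := by
    rw [← Finset.sum_image (s := range Q) (g := fun j : ℕ => (j : ℤ)) (f := fun j => s j ^ 2)
      (fun a _ b _ hab => Int.natCast_inj.1 hab)]
    have h4 : ∑ j ∈ insert (0 : ℤ) (Ioo (0 : ℤ) Q), s j ^ 2 = ∑ j ∈ Ioo (0 : ℤ) Q, s j ^ 2 := by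
      rw [Finset.sum_insert (by simp), h0]
      simp
    rw [← h4]
    apply Finset.sum_le_sum_of_subset_of_nonneg
    · intro j hj
      obtain ⟨i, hi, rfl⟩ := Finset.mem_image.1 hj
      rw [Finset.mem_range] at hi
      rw [Finset.mem_insert, Finset.mem_Ioo]
      omega
    · intro _ _ _
      positivity
  exact h2.trans_lt (h.trans_le (mul_le_mul_of_nonneg_left h3 (sq_nonneg _)))

theorem Bloch.resonant {a : ℤ → ℝ} {p : ℕ} {φ : ℤ → ℂ} {Λ : ℂ} (h : Bloch a (2 * p) 2 φ Λ)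
    {η : ℝ} (hη : |Λ.im| ≤ η) : ∃ s : ℤ → ℝ, (∀ n, s (n + 1) + s (n - 1) = a n * s n) ∧ s 0 = 0 ∧
      s ((2 * p : ℕ) : ℤ) ^ 2 ≤ 16 * η ^ 2 ∧ (p : ℝ) / 32 ≤ ∑ j ∈ range (2 * p), s j ^ 2 := by
  refine ⟨fun n => (conj (φ 0) * φ n).im, fun n => ?_, ?_, ?_, ?_⟩
  · rw [← Complex.add_im, ← mul_add, h.eqn, mul_left_comm, Complex.im_ofReal_mul]
  · simp only [Complex.conj_mul']
    norm_cast
  · have h1 := h.per 0
    rw [zero_add] at h1
    simp only [h1]
    rw [mul_left_comm, Complex.conj_mul', ← Complex.ofReal_pow, Complex.im_mul_ofReal, mul_pow,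
      mul_comm, ← sq_abs Λ.im]
    apply mul_le_mul _ (pow_le_pow_left₀ (abs_nonneg _) hη 2) (by positivity) (by norm_num)
    have h2 : ‖φ 0‖ ^ 2 ≤ 2 ^ 2 := pow_le_pow_left₀ (norm_nonneg _) (h.bd 0) 2
    nlinarith [sq_nonneg ‖φ 0‖]
  · have key : ∀ n : ℤ, 1 / 32 ≤ (conj (φ 0) * φ n).im ^ 2 + (conj (φ 0) * φ (n + 1)).im ^ 2 := by
      intro n
      have h0 := h.one_le 0
      have hw := h.wr n
      have c1 : ∀ m, |(conj (φ 0) * φ m).re| ≤ ‖φ 0‖ * 2 := fun m => by
        refine (Complex.abs_re_le_norm _).trans ?_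
        rw [norm_mul, Complex.norm_conj]
        exact mul_le_mul_of_nonneg_left (h.bd m) (norm_nonneg _)
      have e : (conj (φ 0) * φ n).re * (conj (φ 0) * φ (n + 1)).im -
          (conj (φ 0) * φ (n + 1)).re * (conj (φ 0) * φ n).im = ‖φ 0‖ ^ 2 := by
        rw [Complex.sq_norm, Complex.normSq_apply]
        simp only [Complex.mul_im, Complex.conj_re, Complex.conj_im, Complex.mul_re] at hw ⊢
        linear_combination ((φ 0).re * (φ 0).re + (φ 0).im * (φ 0).im) * hw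
      generalize (conj (φ 0) * φ n).im = x at *
      generalize (conj (φ 0) * φ (n + 1)).im = y at *
      have d1 := c1 n
      have d2 := c1 (n + 1)
      generalize (conj (φ 0) * φ n).re = u at *
      generalize (conj (φ 0) * φ (n + 1)).re = v at *
      have r0 : 0 < ‖φ 0‖ := by linarith
      have d3 : ‖φ 0‖ * ‖φ 0‖ ≤ ‖φ 0‖ * (2 * (|x| + |y|)) := by
        have a1 : u * y ≤ ‖φ 0‖ * 2 * |y| :=
          (le_abs_self _).trans (by rw [abs_mul]; exact mul_le_mul_of_nonneg_right d1 (abs_nonneg _))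
        have a2 : -(v * x) ≤ ‖φ 0‖ * 2 * |x| :=
          (neg_le_abs _).trans (by rw [abs_mul]; exact mul_le_mul_of_nonneg_right d2 (abs_nonneg _))
        nlinarith
      have d4 := le_of_mul_le_mul_left d3 r0
      rw [← sq_abs x, ← sq_abs y]
      nlinarith [sq_nonneg (|x| - |y|), abs_nonneg x, abs_nonneg y]
    rw [mul_comm 2 p, Level.sum_range_mul (fun n => (conj (φ 0) * φ n).im ^ 2) 2 p]
    calc (p : ℝ) / 32 = ∑ _m ∈ range p, (1 / 32 : ℝ) := by simp; ring
      _ ≤ _ := by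
        apply Finset.sum_le_sum
        intro m _
        simp only [Finset.sum_range_succ, Finset.sum_range_zero, zero_add, Nat.cast_zero, add_zero,
          Nat.cast_one]
        exact key _

end Pool.Agent.H1Z.LP
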