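import Pool.Agent.H1Z.LP.Op

/-!
Filling an interval with spectrum by small limit-periodic perturbations.
-/

set_option linter.unusedSectionVars false
set_option linter.deprecated false
set_option linter.unusedSimpArgs false

namespace Pool.Agent.H1Z.LP

open MeasureTheory Filter Topology
open scoped InnerProductSpace

section General

variable {F : Type*} [NormedAddCommGroup F] [InnerProductSpace ℂ F] [CompleteSpace F]

theorem cfc_shift {H : F →L[ℂ] F} (hH : IsSelfAdjoint H) (e : ℝ) (ψ : F) :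
    (cfc (fun x : ℝ => x - e) H) ψ = H ψ - (e : ℂ) • ψ := by
  rw [cfc_sub (fun x : ℝ => x) (fun _ => e) H, cfc_id' ℝ H, cfc_const e H]
  simp [ContinuousLinearMap.algebraMap_apply]

theorem near_spec {H : F →L[ℂ] F} (hH : IsSelfAdjoint H) {E δ : ℝ} (hδ : 0 < δ) {ψ : F}
    (h : ‖H ψ - (E : ℂ) • ψ‖ < δ * ‖ψ‖) : ∃ e ∈ spectrum ℝ H, |E - e| ≤ δ := by
  by_contra hc
  push_neg at hc
  have hne : ∀ x ∈ spectrum ℝ H, x - E ≠ 0 := by
    intro x hx h0
    have := hc x hx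
    rw [abs_sub_comm, h0, abs_zero] at this
    linarith
  have hcont : ContinuousOn (fun x : ℝ => (x - E)⁻¹) (spectrum ℝ H) :=
    ContinuousOn.inv₀ (by fun_prop) hne
  have h1 : ‖cfc (fun x : ℝ => (x - E)⁻¹) H‖ ≤ δ⁻¹ := by
    apply norm_cfc_le (by positivity)
    intro x hx
    rw [norm_inv, Real.norm_eq_abs, abs_sub_comm]
    exact inv_anti₀ hδ (hc x hx).le
  have h2 : cfc (fun x : ℝ => (x - E)⁻¹) H * cfc (fun x : ℝ => x - E) H = 1 := by
    rw [← cfc_mul _ _ H hcont, ← cfc_const_one ℝ H]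
    apply cfc_congr
    intro x hx
    exact inv_mul_cancel₀ (hne x hx)
  have h3 : ψ = (cfc (fun x : ℝ => (x - E)⁻¹) H) (H ψ - (E : ℂ) • ψ) := by
    rw [← cfc_shift hH, ← ContinuousLinearMap.mul_apply, h2, ContinuousLinearMap.one_apply]
  have h4 := (cfc (fun x : ℝ => (x - E)⁻¹) H).le_opNorm (H ψ - (E : ℂ) • ψ)
  rw [← h3] at h4
  have h5 : ‖ψ‖ ≤ δ⁻¹ * ‖H ψ - (E : ℂ) • ψ‖ :=
    h4.trans (mul_le_mul_of_nonneg_right h1 (norm_nonneg _))
  rw [le_inv_mul_iff₀ hδ] at h5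
  linarith

theorem approx_of_spec {H : F →L[ℂ] F} (hH : IsSelfAdjoint H) {e η : ℝ} (hη : 0 < η)
    (he : e ∈ spectrum ℝ H) : ∃ φ : F, ‖H φ - (e : ℂ) • φ‖ < η * ‖φ‖ := by
  let g : ℝ → ℝ := fun x => max 0 (1 - |x - e| / (η / 2))
  have hg : Continuous g := by fun_prop
  have h1 : ‖g e‖ ≤ ‖cfc g H‖ := norm_apply_le_norm_cfc g H he hg.continuousOn hH
  have h2 : g e = 1 := by simp [g]
  rw [h2, norm_one] at h1
  obtain ⟨x, hx1, hx2⟩ := (cfc g H).exists_lt_apply_of_lt_opNorm (r := 1 / 2) (by linarith)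
  refine ⟨cfc g H x, ?_⟩
  rw [← cfc_shift hH, ← ContinuousLinearMap.mul_apply, ← cfc_mul _ _ H (by fun_prop) hg.continuousOn]
  have h3 : ‖cfc (fun x : ℝ => (x - e) * g x) H‖ ≤ η / 2 := by
    apply norm_cfc_le (by positivity)
    intro y _
    rw [norm_mul, Real.norm_eq_abs, Real.norm_eq_abs]
    by_cases hy : |y - e| ≤ η / 2
    · have a1 : 0 ≤ g y := le_max_left _ _
      have a2 : g y ≤ 1 := max_le zero_le_one (by
        have : 0 ≤ |y - e| / (η / 2) := by positivity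
        linarith)
      rw [abs_of_nonneg a1]
      nlinarith [abs_nonneg (y - e)]
    · have : g y = 0 := by
        apply max_eq_left
        have : 1 ≤ |y - e| / (η / 2) := by
          rw [le_div_iff₀ (by positivity)]
          linarith [not_le.1 hy]
        linarith
      rw [this, abs_zero, mul_zero]
      positivity
  have h4 := (cfc (fun x : ℝ => (x - e) * g x) H).le_opNorm x
  have h5 : ‖cfc (fun x : ℝ => (x - e) * g x) H‖ * ‖x‖ ≤ η / 2 * 1 :=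
    mul_le_mul h3 hx1.le (norm_nonneg _) (by positivity)
  nlinarith

end General

theorem truncate {H : L2 →L[ℂ] L2} {e η : ℝ} {φ : L2} (h : ‖H φ - (e : ℂ) • φ‖ < η * ‖φ‖) :
    ∃ (χ : L2) (L : ℕ), (∀ n : ℤ, (L : ℤ) < |n| → χ n = 0) ∧ ‖H χ - (e : ℂ) • χ‖ < η * ‖χ‖ := by
  classical
  have h1 := lp.hasSum_single (p := 2) (by norm_num) φ
  have h2 : IsOpen {χ : L2 | ‖H χ - (e : ℂ) • χ‖ < η * ‖χ‖} :=
    isOpen_lt (by fun_prop) (by fun_prop)
  obtain ⟨s, hs⟩ := (Filter.Tendsto.eventually h1 (h2.mem_nhds h)).exists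
  refine ⟨_, s.sup (fun n => n.natAbs), fun n hn => ?_, hs⟩
  rw [lp.coeFn_sum, Finset.sum_apply]
  apply Finset.sum_eq_zero
  intro i hi
  apply lp.single_apply_ne
  rintro rfl
  have h3 : n.natAbs ≤ s.sup (fun n => n.natAbs) := Finset.le_sup (f := fun n : ℤ => n.natAbs) hi
  have h4 : |n| = (n.natAbs : ℤ) := (Int.natCast_natAbs n).symm
  omega

theorem refine_approx {H : L2 →L[ℂ] L2} (hH : IsSelfAdjoint H) {E δ η : ℝ} (hδ : 0 < δ)
    (hη : 0 < η) {ψ : L2} (h : ‖H ψ - (E : ℂ) • ψ‖ < δ * ‖ψ‖) :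
    ∃ (e : ℝ) (χ : L2) (L : ℕ), |E - e| ≤ δ ∧ (∀ n : ℤ, (L : ℤ) < |n| → χ n = 0) ∧
      ‖H χ - (e : ℂ) • χ‖ < η * ‖χ‖ := by
  obtain ⟨e, he, h1⟩ := near_spec hH hδ h
  obtain ⟨φ, hφ⟩ := approx_of_spec hH hη he
  obtain ⟨χ, L, h2, h3⟩ := truncate hφ
  exact ⟨e, χ, L, h1, h2, h3⟩

theorem approx_move {H : L2 →L[ℂ] L2} {e E η : ℝ} {φ : L2} (h : ‖H φ - (e : ℂ) • φ‖ < η * ‖φ‖)
    {t : ℝ} (ht : |e - E| ≤ t) : ‖H φ - (E : ℂ) • φ‖ < (η + t) * ‖φ‖ := by
  have e1 : H φ - (E : ℂ) • φ = (H φ - (e : ℂ) • φ) + ((e - E : ℝ) : ℂ) • φ := by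
    push_cast
    rw [sub_smul]
    abel
  have h1 := norm_add_le (H φ - (e : ℂ) • φ) (((e - E : ℝ) : ℂ) • φ)
  rw [← e1, norm_smul, Complex.norm_real, Real.norm_eq_abs] at h1
  nlinarith [norm_nonneg φ]

theorem per_bdd {V : ℤ → ℝ} {p : ℕ} (hp : 0 < p) (h : ∀ n, V (n + p) = V n) :
    ∃ C, ∀ n, |V n| ≤ C := by
  have hp' : (0 : ℤ) < p := by exact_mod_cast hp
  refine ⟨∑ j ∈ Finset.range p, |V j|, fun n => ?_⟩
  have h1 : Function.Periodic V (p : ℤ) := h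
  have h2 := h1.int_mul (n / p) (n % p)
  simp only [Int.cast_id] at h2
  rw [show n % p + n / p * p = n by have := Int.ediv_mul_add_emod n p; linarith] at h2
  have h3 := Int.emod_nonneg n hp'.ne'
  have h4 := Int.emod_lt_of_pos n hp'
  rw [h2, ← Int.toNat_of_nonneg h3]
  exact Finset.single_le_sum (f := fun j : ℕ => |V j|) (fun _ _ => abs_nonneg _)
    (Finset.mem_range.2 (by omega))

/-- every energy of the interval has an approximate eigenvector -/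
def Inv (a b : ℝ) (V : ℤ → ℝ) (δ : ℝ) : Prop :=
  ∀ H, IsOp V H → ∀ E ∈ Set.Icc a b, ∃ ψ : L2, ‖H ψ - (E : ℂ) • ψ‖ < δ * ‖ψ‖

theorem fill_step (a b : ℝ) (hab : a ≤ b) (V : ℤ → ℝ) (p : ℕ) (hp : 0 < p)
    (hV : ∀ n, V (n + p) = V n) (δ : ℝ) (hδ : 0 < δ) (hI : Inv a b V δ) (q : ℕ) (hq : 0 < q) :
    ∃ (U : ℤ → ℝ), (∃ r : ℕ, 0 < r ∧ ∀ n, U (n + r) = U n) ∧ (∀ n, |U n - V n| ≤ δ) ∧
      Inv a b U (δ / 4) ∧ ∃ l : ℤ, V (l * q) = V 0 ∧ U 0 - V 0 = δ ∧ U (l * q) - V (l * q) = -δ := by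
  classical
  obtain ⟨C, hC⟩ := per_bdd hp hV
  obtain ⟨H, hH⟩ := exists_op hC
  have hη : 0 < δ / 8 := by positivity
  obtain ⟨m, hm⟩ := exists_nat_ge ((b - a) / (δ / 8))
  have hnet : ∀ i : ℕ, ∃ (e : ℝ) (χ : L2) (L : ℕ), |min b (a + i * (δ / 8)) - e| ≤ δ ∧
      (∀ n : ℤ, (L : ℤ) < |n| → χ n = 0) ∧ ‖H χ - (e : ℂ) • χ‖ < δ / 8 * ‖χ‖ := by
    intro i
    obtain ⟨ψ, hψ⟩ := hI H hH (min b (a + i * (δ / 8)))
      ⟨le_min hab (by have : (0 : ℝ) ≤ i * (δ / 8) := by positivity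
                      linarith), min_le_left _ _⟩
    exact refine_approx (hH.sa hC) hδ hη hψ
  choose e χ Ls h1 h2 h3 using hnet
  set L : ℕ := (Finset.range (m + 1)).sup Ls with hL
  let c : ℕ → ℝ := fun i => match i with
    | 0 => δ
    | 1 => -δ
    | (i + 2) => min b (a + i * (δ / 8)) - e i
  have hc : ∀ i, |c i| ≤ δ := by
    intro i
    match i with
    | 0 => exact (abs_of_pos hδ).le
    | 1 => simp only [c]; rw [abs_neg]; exact (abs_of_pos hδ).le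
    | (i + 2) => exact h1 i
  set l : ℤ := p * (2 * L + 1) * q with hl
  have hp' : (1 : ℤ) ≤ p := by exact_mod_cast hp
  have hq' : (1 : ℤ) ≤ q := by exact_mod_cast hq
  have hL0 : (0 : ℤ) ≤ L := by positivity
  have hl1 : p * (2 * L + 1) ≤ l := by
    rw [hl]
    exact le_mul_of_one_le_right (by positivity) hq'
  have hl0 : 0 < l := by nlinarith
  have hVm : ∀ k n : ℤ, V (n + k * p) = V n := fun k n => by
    have h1 : Function.Periodic V (p : ℤ) := hV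
    simpa using h1.int_mul k n
  let idx : ℤ → ℕ := fun n => ((n / l) % ((m + 3 : ℕ) : ℤ)).toNat
  have hidx : ∀ (i : ℕ) (x : ℤ), i < m + 3 → 0 ≤ x → x < l → idx (i * l + x) = i := by
    intro i x hi x0 x1
    simp only [idx]
    rw [add_comm, Int.add_mul_ediv_right _ _ hl0.ne', Int.ediv_eq_zero_of_lt x0 x1, zero_add,
      Int.emod_eq_of_lt (by omega) (by exact_mod_cast hi), Int.toNat_natCast]
  refine ⟨fun n => V n + c (idx n), ⟨(m + 3) * (p * (2 * L + 1) * q), by positivity, fun n => ?_⟩,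
    fun n => by simpa using hc _, fun G hG E hE => ?_, p * (2 * L + 1), ?_, ?_, ?_⟩
  · have e1 : (((m + 3) * (p * (2 * L + 1) * q) : ℕ) : ℤ) = ((m + 3 : ℕ) : ℤ) * l := by
      rw [hl]; push_cast; ring
    have e2 : V (n + ((m + 3 : ℕ) : ℤ) * l) = V n := by
      rw [← hVm (((m + 3 : ℕ) : ℤ) * ((2 * L + 1) * q)) n, hl]
      congr 1
      ring
    have e3 : idx (n + ((m + 3 : ℕ) : ℤ) * l) = idx n := by
      simp only [idx]
      rw [Int.add_mul_ediv_right _ _ hl0.ne', Int.add_emod_right]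
    simp only [e1, e2, e3]
  · have hE0 : 0 ≤ (E - a) / (δ / 8) := div_nonneg (by linarith [hE.1]) hη.le
    set i := ⌊(E - a) / (δ / 8)⌋₊ with hi
    have i1 : (i : ℝ) ≤ (E - a) / (δ / 8) := Nat.floor_le hE0
    have i2 : (E - a) / (δ / 8) < i + 1 := Nat.lt_floor_add_one _
    rw [le_div_iff₀ hη] at i1
    rw [div_lt_iff₀ hη] at i2
    have i3 : i ≤ m := by
      have : (i : ℝ) ≤ m := by
        refine le_trans ?_ hm
        rw [le_div_iff₀ hη]
        linarith [hE.2]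
      exact_mod_cast this
    have i4 : min b (a + i * (δ / 8)) = a + i * (δ / 8) := min_eq_right (by linarith [hE.2])
    have i5 : Ls i ≤ L := Finset.le_sup (f := Ls) (Finset.mem_range.2 (by omega))
    set t : ℤ := ((i + 2 : ℕ) : ℤ) * l + p * L with ht
    have key : G (sh (-t) (χ i)) - ((a + i * (δ / 8) : ℝ) : ℂ) • sh (-t) (χ i) =
        sh (-t) (H (χ i) - (e i : ℂ) • χ i) := by
      ext n
      simp only [lp.coeFn_sub, Pi.sub_apply, lp.coeFn_smul, Pi.smul_apply, smul_eq_mul, sh_apply]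
      rw [hG, hH]
      simp only [sh_apply]
      rw [show n + 1 + -t = n + -t + 1 by ring, show n - 1 + -t = n + -t - 1 by ring]
      by_cases hn : (L : ℤ) < |n + -t|
      · rw [h2 i (n + -t) (by omega)]
        ring
      · have hn' := abs_le.1 (not_lt.1 hn)
        have e1 : idx n = i + 2 := by
          rw [show n = ((i + 2 : ℕ) : ℤ) * l + (n + -t + p * L) by rw [ht]; ring]
          apply hidx _ _ (by omega) <;> nlinarith
        have e2 : V (n + -t) = V n := by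
          rw [← hVm (-(((i + 2 : ℕ) : ℤ) * ((2 * L + 1) * q) + L)) n, ht, hl]
          congr 1
          ring
        rw [e1, e2]
        simp only [c, i4]
        push_cast
        ring
    refine ⟨sh (-t) (χ i), ?_⟩
    have h4 : ‖G (sh (-t) (χ i)) - ((a + i * (δ / 8) : ℝ) : ℂ) • sh (-t) (χ i)‖ <
        δ / 8 * ‖sh (-t) (χ i)‖ := by
      rw [key, norm_sh, norm_sh]
      exact h3 i
    have h5 := approx_move h4 (E := E) (t := δ / 8) (by rw [abs_le]; constructor <;> linarith)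
    rwa [show δ / 8 + δ / 8 = δ / 4 by ring] at h5
  · rw [← hVm ((2 * L + 1) * q) 0]
    congr 1
    ring
  · have := hidx 0 0 (by omega) le_rfl hl0
    simp only [Nat.cast_zero, zero_mul, add_zero] at this
    simp only [this, c]
    ring
  · have := hidx 1 0 (by omega) le_rfl hl0
    simp only [Nat.cast_one, one_mul, add_zero] at this
    simp only [← hl, this, c]
    ring

theorem Inv.perturb {a b : ℝ} {V U : ℤ → ℝ} {δ t C : ℝ} (hC : ∀ n, |V n| ≤ C) (h : Inv a b V δ)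
    (ht : ∀ n, |U n - V n| ≤ t) : Inv a b U (δ + t) := by
  intro G hG E hE
  obtain ⟨H, hH⟩ := exists_op hC
  obtain ⟨ψ, hψ⟩ := h H hH E hE
  refine ⟨ψ, ?_⟩
  have e1 : G ψ - (E : ℂ) • ψ = (H ψ - (E : ℂ) • ψ) + mulV ht ψ := by
    ext n
    simp only [lp.coeFn_sub, lp.coeFn_add, Pi.add_apply, Pi.sub_apply, lp.coeFn_smul,
      Pi.smul_apply, smul_eq_mul, mulV_apply]
    rw [hG, hH]
    push_cast
    ring
  have h1 := norm_add_le (H ψ - (E : ℂ) • ψ) (mulV ht ψ)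
  have h2 := norm_mulV ht ψ
  rw [e1]
  linarith

theorem fill (P : ℤ → ℝ) (p : ℕ) (hp : 0 < p) (hP : ∀ n, P (n + p) = P n) (δ : ℝ) (hδ : 0 < δ) :
    ∃ (U : ℤ → ℝ) (a b : ℝ), a < b ∧ (∀ n, |U n - P n| ≤ 2 * δ) ∧
      (∀ ε : ℝ, 0 < ε → ∃ r : ℕ, 0 < r ∧ ∃ W : ℤ → ℝ,
        (∀ n : ℤ, W (n + (r : ℤ)) = W n) ∧ ∀ n : ℤ, |U n - W n| < ε) ∧
      (¬ ∃ r : ℕ, 0 < r ∧ ∀ n : ℤ, U (n + (r : ℤ)) = U n) ∧
      ∀ ε : ℝ, 0 < ε → Inv a b U ε := by
  obtain ⟨C, hC⟩ := per_bdd hp hP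
  obtain ⟨H, hH⟩ := exists_op hC
  obtain ⟨e, χ, -, -, -, hχ⟩ := refine_approx (hH.sa hC) (E := 0) (δ := ‖H‖ + 1) (η := δ / 2)
    (by positivity) (by positivity) (ψ := dl 0) (by
      have := H.le_opNorm (dl 0)
      simp only [Complex.ofReal_zero, zero_smul, sub_zero, norm_dl] at this ⊢
      linarith)
  have h0 : Inv e (e + δ / 2) P δ := by
    intro G hG E hE
    have : G = H := by
      ext ψ n
      rw [hG, hH]
    rw [this]
    refine ⟨χ, ?_⟩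
    have h5 := approx_move hχ (E := E) (t := δ / 2) (by
      rw [abs_le]; constructor <;> linarith [hE.1, hE.2])
    rwa [add_halves] at h5
  let Good : ℕ → (ℤ → ℝ) → Prop := fun k V =>
    (∃ r : ℕ, 0 < r ∧ ∀ n, V (n + r) = V n) ∧ Inv e (e + δ / 2) V (δ * (1 / 4) ^ k)
  have hstep : ∀ (k : ℕ) (x : {V // Good k V}), ∃ y : {V // Good (k + 1) V},
      (∀ n, |y.1 n - x.1 n| ≤ δ * (1 / 4) ^ k) ∧ ∃ l : ℤ, x.1 (l * ((k + 1 : ℕ) : ℤ)) = x.1 0 ∧
        y.1 0 - x.1 0 = δ * (1 / 4) ^ k ∧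
        y.1 (l * ((k + 1 : ℕ) : ℤ)) - x.1 (l * ((k + 1 : ℕ) : ℤ)) = -(δ * (1 / 4) ^ k) := by
    rintro k ⟨V, ⟨r, hr, hV⟩, hI⟩
    obtain ⟨U, a1, a2, a3, a4⟩ := fill_step e (e + δ / 2) (by linarith) V r hr hV _
      (by positivity) hI (k + 1) (by omega)
    refine ⟨⟨U, a1, ?_⟩, a2, a4⟩
    rwa [show δ * (1 / 4) ^ (k + 1) = δ * (1 / 4) ^ k / 4 by ring]
  choose f hf hf2 using hstep
  let s : ∀ k, {V // Good k V} := fun k =>
    Nat.rec (motive := fun k => {V // Good k V}) ⟨P, ⟨p, hp, hP⟩, by simpa using h0⟩ f k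
  have hs : ∀ k, s (k + 1) = f k (s k) := fun k => rfl
  have hd : ∀ n k, dist ((s k).1 n) ((s (k + 1)).1 n) ≤ δ * (1 / 4) ^ k := by
    intro n k
    rw [dist_comm, Real.dist_eq, hs]
    exact hf k (s k) n
  have hcau : ∀ n, ∃ x, Tendsto (fun k => (s k).1 n) atTop (𝓝 x) := fun n =>
    cauchySeq_tendsto_of_complete (cauchySeq_of_le_geometric (1 / 4) δ (by norm_num) (hd n))
  choose U hU using hcau
  have hb : ∀ k n, |U n - (s k).1 n| ≤ δ * (1 / 4) ^ k * (4 / 3) := by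
    intro k n
    have := dist_le_of_le_geometric_of_tendsto (1 / 4) δ (by norm_num) (hd n) (hU n) k
    rw [dist_comm, Real.dist_eq] at this
    refine this.trans (le_of_eq ?_)
    ring
  have hsmall : ∀ ε : ℝ, 0 < ε → ∃ k : ℕ, δ * (1 / 4) ^ k * 3 < ε := by
    intro ε hε
    obtain ⟨k, hk⟩ := exists_pow_lt_of_lt_one (x := ε / (3 * δ)) (y := 1 / 4) (by positivity)
      (by norm_num)
    refine ⟨k, ?_⟩
    rw [lt_div_iff₀ (by positivity)] at hk
    linarith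
  refine ⟨U, e, e + δ / 2, by linarith, fun n => ?_, fun ε hε => ?_, ?_, fun ε hε => ?_⟩
  · have := hb 0 n
    change |U n - P n| ≤ _ at this
    simp only [pow_zero] at this
    linarith
  · obtain ⟨k, hk⟩ := hsmall ε hε
    obtain ⟨r, hr, hV⟩ := (s k).2.1
    refine ⟨r, hr, (s k).1, hV, fun n => ?_⟩
    have := hb k n
    have : 0 < δ * (1 / 4) ^ k := by positivity
    linarith
  · rintro ⟨r, hr, hper⟩
    obtain ⟨k, rfl⟩ : ∃ k, r = k + 1 := ⟨r - 1, by omega⟩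
    obtain ⟨l, b1, b2, b3⟩ := hf2 k (s k)
    rw [← hs] at b2 b3
    have h1 : Function.Periodic U ((k + 1 : ℕ) : ℤ) := hper
    have h2 := h1.int_mul l 0
    simp only [Int.cast_id, zero_add] at h2
    have c1 := abs_le.1 (hb (k + 1) 0)
    have c2 := abs_le.1 (hb (k + 1) (l * ((k + 1 : ℕ) : ℤ)))
    have : 0 < δ * (1 / 4) ^ k := by positivity
    rw [pow_succ] at c1 c2
    rw [h2] at c2
    nlinarith [c1.1, c1.2, c2.1, c2.2]
  · obtain ⟨k, hk⟩ := hsmall ε hε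
    obtain ⟨r, hr, hV⟩ := (s k).2.1
    obtain ⟨D, hD⟩ := per_bdd hr hV
    have h1 := (s k).2.2.perturb hD (hb k)
    intro G hG E hE
    obtain ⟨ψ, hψ⟩ := h1 G hG E hE
    refine ⟨ψ, hψ.trans_le (mul_le_mul_of_nonneg_right ?_ (norm_nonneg _))⟩
    have : 0 < δ * (1 / 4) ^ k := by positivity
    linarith

end Pool.Agent.H1Z.LP
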