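import Mathlib

/-!
Periodic positive sequences and the harmonic interpolation step.
-/

set_option linter.unusedSectionVars false
set_option linter.deprecated false
set_option linter.unusedSimpArgs false

namespace Pool.Agent.H1Z.LP

open Finset

/-- a positive periodic sequence with the value one at the origin -/
structure Level where
  p : ℕ
  u : ℤ → ℝ
  hp : 0 < p
  pos : ∀ n, 0 < u n
  per : ∀ n, u (n + p) = u n
  one : u 0 = 1

/-- the heights prescribed at the multiples of the period -/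
structure Pattern where
  q : ℕ
  g : ℤ → ℝ
  hq : 2 ≤ q
  pos : ∀ m, 0 < g m
  le : ∀ m, g m ≤ 1
  per : ∀ m, g (m + q) = g m
  one : g 0 = 1

namespace Level

variable (L : Level) (P : Pattern)

/-- the potential for which `u` is a positive solution -/
noncomputable def W (n : ℤ) : ℝ := (L.u (n + 1) + L.u (n - 1)) / L.u n

/-- partial resistances -/
noncomputable def r (j : ℕ) : ℝ := ∑ i ∈ range j, 1 / (L.u i * L.u (i + 1))

/-- the resistance of one period -/
noncomputable def R : ℝ := L.r L.p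

/-- the mass of one period -/
noncomputable def S : ℝ := ∑ i ∈ range L.p, L.u i ^ 2

/-- the interpolating factor -/
noncomputable def G (n : ℤ) : ℝ :=
  P.g (n / L.p) + (P.g (n / L.p + 1) - P.g (n / L.p)) * (L.r (n % L.p).toNat / L.R)

theorem per_mul (m n : ℤ) : L.u (m * L.p + n) = L.u n := by
  have h : Function.Periodic L.u (L.p : ℤ) := L.per
  have := h.int_mul m n
  rw [add_comm]
  simpa using this

theorem W_per_mul (m n : ℤ) : L.W (m * L.p + n) = L.W n := by
  unfold W
  rw [add_assoc, add_sub_assoc, per_mul, per_mul, per_mul]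

theorem eqn (n : ℤ) : L.u (n + 1) + L.u (n - 1) = L.W n * L.u n := by
  unfold W
  rw [div_mul_cancel₀ _ (L.pos n).ne']

theorem term_pos (i : ℤ) : 0 < 1 / (L.u i * L.u (i + 1)) := by
  have := L.pos i
  have := L.pos (i + 1)
  positivity

theorem r_succ (j : ℕ) : L.r (j + 1) = L.r j + 1 / (L.u j * L.u (j + 1)) := by
  unfold r
  rw [Finset.sum_range_succ]

theorem r_zero : L.r 0 = 0 := by simp [r]

theorem r_nonneg (j : ℕ) : 0 ≤ L.r j := Finset.sum_nonneg fun i _ => (L.term_pos i).le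

theorem r_mono {i j : ℕ} (h : i ≤ j) : L.r i ≤ L.r j :=
  Finset.sum_le_sum_of_subset_of_nonneg (Finset.range_mono h) fun i _ _ => (L.term_pos i).le

theorem R_pos : 0 < L.R := by
  unfold R r
  exact Finset.sum_pos (fun (i : ℕ) _ => L.term_pos i) ⟨0, Finset.mem_range.2 L.hp⟩

theorem decomp (n : ℤ) : ∃ (m : ℤ) (j : ℕ), j < L.p ∧ n = m * L.p + j := by
  have hp : (0 : ℤ) < L.p := by exact_mod_cast L.hp
  refine ⟨n / L.p, (n % L.p).toNat, ?_, ?_⟩
  · have := Int.emod_lt_of_pos n hp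
    have := Int.emod_nonneg n hp.ne'
    omega
  · rw [Int.toNat_of_nonneg (Int.emod_nonneg n hp.ne')]
    have := Int.ediv_mul_add_emod n L.p
    linarith

theorem G_lt (m : ℤ) (j : ℕ) (hj : j < L.p) :
    L.G P (m * L.p + j) = P.g m + (P.g (m + 1) - P.g m) * (L.r j / L.R) := by
  have hp : (0 : ℤ) < L.p := by exact_mod_cast L.hp
  have hj' : (j : ℤ) < L.p := by exact_mod_cast hj
  have h1 : (m * L.p + j) / L.p = m := by
    rw [add_comm, Int.add_mul_ediv_right _ _ hp.ne', Int.ediv_eq_zero_of_lt (by omega) hj',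
      zero_add]
  have h2 : (m * L.p + j) % L.p = j := by
    rw [add_comm, Int.add_mul_emod_self_right, Int.emod_eq_of_lt (by omega) hj']
  unfold G
  rw [h1, h2, Int.toNat_natCast]

theorem G_mul (m : ℤ) : L.G P (m * L.p) = P.g m := by
  have := L.G_lt P m 0 L.hp
  simpa [r_zero] using this

theorem G_cell (m : ℤ) (j : ℕ) (hj : j ≤ L.p) :
    L.G P (m * L.p + j) = P.g m + (P.g (m + 1) - P.g m) * (L.r j / L.R) := by
  rcases hj.lt_or_eq with h | h
  · exact L.G_lt P m j h
  · rw [h, show m * L.p + L.p = (m + 1) * L.p by ring, G_mul]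
    change _ = P.g m + (P.g (m + 1) - P.g m) * (L.R / L.R)
    rw [div_self L.R_pos.ne']
    ring

theorem rho_mem {j : ℕ} (hj : j ≤ L.p) : 0 ≤ L.r j / L.R ∧ L.r j / L.R ≤ 1 :=
  ⟨div_nonneg (L.r_nonneg j) L.R_pos.le, (div_le_one L.R_pos).2 (L.r_mono hj)⟩

theorem G_pos (n : ℤ) : 0 < L.G P n := by
  obtain ⟨m, j, hj, rfl⟩ := L.decomp n
  rw [L.G_lt P m j hj]
  obtain ⟨h0, h1⟩ := L.rho_mem hj.le
  have a := P.pos m
  have b := P.pos (m + 1)
  rcases h1.lt_or_eq with h | h
  · nlinarith [mul_nonneg b.le h0, mul_pos a (sub_pos.2 h)]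
  · rw [h]; linarith

theorem G_le (n : ℤ) : L.G P n ≤ 1 := by
  obtain ⟨m, j, hj, rfl⟩ := L.decomp n
  rw [L.G_lt P m j hj]
  obtain ⟨h0, h1⟩ := L.rho_mem hj.le
  have a := P.le m
  have b := P.le (m + 1)
  nlinarith [mul_nonneg (sub_nonneg.2 b) h0, mul_nonneg (sub_nonneg.2 a) (sub_nonneg.2 h1)]

theorem G_per (n : ℤ) : L.G P (n + ((P.q * L.p : ℕ) : ℤ)) = L.G P n := by
  obtain ⟨m, j, hj, rfl⟩ := L.decomp n
  have : m * L.p + j + ((P.q * L.p : ℕ) : ℤ) = (m + P.q) * L.p + j := by push_cast; ring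
  rw [this, L.G_lt P _ j hj, L.G_lt P _ j hj, P.per, show m + P.q + 1 = m + 1 + P.q by ring, P.per]

/-- the next level -/
noncomputable def next : Level where
  p := P.q * L.p
  u := fun n => L.u n * L.G P n
  hp := Nat.mul_pos (by have := P.hq; omega) L.hp
  pos := fun n => mul_pos (L.pos n) (L.G_pos P n)
  per := fun n => by
    rw [G_per]
    congr 1
    rw [add_comm]
    push_cast
    exact L.per_mul _ _
  one := by
    have := L.G_mul P 0
    rw [zero_mul] at this
    rw [this, L.one, P.one, mul_one]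

theorem next_p : (L.next P).p = P.q * L.p := rfl

theorem next_u (n : ℤ) : (L.next P).u n = L.u n * L.G P n := rfl

theorem G_diff (m : ℤ) (j : ℕ) (hj : j < L.p) :
    L.G P (m * L.p + j + 1) - L.G P (m * L.p + j) =
      (P.g (m + 1) - P.g m) / (L.R * (L.u (m * L.p + j) * L.u (m * L.p + j + 1))) := by
  have h1 := L.G_cell P m (j + 1) hj
  have h2 := L.G_cell P m j hj.le
  rw [show m * L.p + ((j + 1 : ℕ) : ℤ) = m * L.p + j + 1 by push_cast; ring] at h1
  rw [h1, h2, r_succ, add_assoc, per_mul, per_mul]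
  have := L.R_pos
  have := L.pos j
  have := L.pos (j + 1)
  field_simp
  ring

theorem W_next_aux (n : ℤ) (a b : ℝ)
    (ha : L.G P (n + 1) - L.G P n = a / (L.R * (L.u n * L.u (n + 1))))
    (hb : L.G P n - L.G P (n - 1) = b / (L.R * (L.u (n - 1) * L.u n))) :
    (L.next P).W n = L.W n + (a - b) / (L.R * L.u n ^ 2 * L.G P n) := by
  unfold W
  rw [next_u, next_u, next_u]
  have e1 : L.G P (n + 1) = L.G P n + a / (L.R * (L.u n * L.u (n + 1))) := by linarith
  have e2 : L.G P (n - 1) = L.G P n - b / (L.R * (L.u (n - 1) * L.u n)) := by linarith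
  rw [e1, e2]
  have := L.R_pos
  have := L.pos n
  have := L.pos (n + 1)
  have := L.pos (n - 1)
  have := L.G_pos P n
  field_simp
  ring

theorem W_next_off (n : ℤ) (hn : ¬ (L.p : ℤ) ∣ n) : (L.next P).W n = L.W n := by
  obtain ⟨m, j, hj, rfl⟩ := L.decomp n
  obtain ⟨i, rfl⟩ : ∃ i, j = i + 1 := by
    refine ⟨j - 1, ?_⟩
    rcases Nat.eq_zero_or_pos j with h | h
    · exfalso
      apply hn
      rw [h]
      simp
    · omega
  have h1 := L.G_diff P m (i + 1) hj
  have h2 := L.G_diff P m i (by omega)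
  have e : m * L.p + (i : ℤ) = m * L.p + ((i + 1 : ℕ) : ℤ) - 1 := by push_cast; ring
  rw [e, sub_add_cancel] at h2
  rw [L.W_next_aux P _ _ _ h1 h2]
  simp

theorem W_next_on (m : ℤ) : (L.next P).W (m * L.p) =
    L.W 0 + (P.g (m + 1) + P.g (m - 1) - 2 * P.g m) / (L.R * P.g m) := by
  have h1 := L.G_diff P m 0 L.hp
  have h2 := L.G_diff P (m - 1) (L.p - 1) (by have := L.hp; omega)
  have e : (m - 1) * L.p + ((L.p - 1 : ℕ) : ℤ) = m * L.p - 1 := by
    rw [Nat.cast_sub L.hp]; push_cast; ring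
  rw [e, sub_add_cancel, sub_add_cancel] at h2
  simp only [Nat.cast_zero, add_zero] at h1
  rw [L.W_next_aux P _ _ _ h1 h2, G_mul]
  have e1 := L.per_mul m 0
  have e2 := L.W_per_mul m 0
  rw [add_zero] at e1 e2
  rw [e1, e2, L.one]
  congr 1
  congr 1 <;> ring

theorem cell_sum (m : ℤ) (j : ℕ) (hj : j ≤ L.p) :
    ∑ i ∈ range j, 1 / ((L.next P).u (m * L.p + i) * (L.next P).u (m * L.p + i + 1)) =
      L.r j / (P.g m * L.G P (m * L.p + j)) := by
  induction j with
  | zero => simp [r_zero]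
  | succ j ih =>
    rw [Finset.sum_range_succ, ih (by omega), next_u, next_u, add_assoc, per_mul, per_mul]
    have h1 := L.G_cell P m (j + 1) hj
    have h2 := L.G_cell P m j (by omega)
    have g1 := L.G_pos P (m * L.p + ((j + 1 : ℕ) : ℤ))
    have g2 := L.G_pos P (m * L.p + j)
    have e : (j : ℤ) + 1 = ((j + 1 : ℕ) : ℤ) := by push_cast; ring
    have h3 := L.r_succ j
    rw [e] at h3 ⊢
    have := L.R_pos
    have := L.pos j
    have := L.pos ((j + 1 : ℕ) : ℤ)
    have := P.pos m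
    have h4 : L.r (j + 1) * L.G P (m * L.p + j) - L.r j * L.G P (m * L.p + ((j + 1 : ℕ) : ℤ)) =
        P.g m * (1 / (L.u j * L.u ((j + 1 : ℕ) : ℤ))) := by
      rw [h1, h2, h3]
      ring
    generalize L.G P (m * L.p + ((j + 1 : ℕ) : ℤ)) = A at *
    generalize L.G P (m * L.p + j) = B at *
    generalize L.u ((j + 1 : ℕ) : ℤ) = v at *
    have h5 : L.r (j + 1) = (L.r j * A + P.g m * (1 / (L.u j * v))) / B := by
      rw [eq_div_iff g2.ne']
      linarith
    rw [h5]
    field_simp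

theorem R_next (m : ℕ) (hm : m < P.q) : L.R / (P.g m * P.g (m + 1)) ≤ (L.next P).R := by
  have h1 := L.cell_sum P m L.p le_rfl
  rw [show (m : ℤ) * L.p + L.p = (m + 1) * L.p by ring, G_mul] at h1
  change _ = L.R / _ at h1
  rw [← h1]
  have h2 : (L.next P).r (m * L.p + L.p) ≤ (L.next P).R := by
    apply r_mono
    rw [next_p, show m * L.p + L.p = (m + 1) * L.p by ring]
    exact Nat.mul_le_mul_right _ hm
  refine le_trans ?_ h2
  unfold r
  rw [Finset.sum_range_add]
  have h3 := (L.next P).r_nonneg (m * L.p)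
  unfold r at h3
  push_cast
  linarith

theorem sum_range_mul (f : ℤ → ℝ) (p q : ℕ) :
    ∑ i ∈ range (q * p), f i = ∑ m ∈ range q, ∑ j ∈ range p, f ((m : ℤ) * p + j) := by
  induction q with
  | zero => simp
  | succ q ih =>
    rw [Nat.succ_mul, Finset.sum_range_add, ih, Finset.sum_range_succ]
    push_cast
    rfl

theorem S_next : (L.next P).S ≤ L.S * ∑ m ∈ range P.q, P.g m ^ 2 := by
  unfold S
  rw [next_p, sum_range_mul (fun n => (L.next P).u n ^ 2), Finset.sum_comm, Finset.sum_mul]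
  apply Finset.sum_le_sum
  intro j hj
  rw [Finset.mem_range] at hj
  obtain ⟨h0, h1⟩ := L.rho_mem hj.le
  have hs : ∑ m ∈ range P.q, P.g ((m : ℤ) + 1) ^ 2 = ∑ m ∈ range P.q, P.g m ^ 2 := by
    have a1 := Finset.sum_range_succ (fun m : ℕ => P.g m ^ 2) P.q
    have a2 := Finset.sum_range_succ' (fun m : ℕ => P.g m ^ 2) P.q
    have a3 := P.per 0
    rw [zero_add] at a3
    simp only [Nat.cast_zero, a3] at a1 a2
    push_cast at a2
    linarith
  calc ∑ m ∈ range P.q, (L.next P).u ((m : ℤ) * L.p + j) ^ 2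
      ≤ ∑ m ∈ range P.q, L.u j ^ 2 * ((1 - L.r j / L.R) * P.g m ^ 2 +
          L.r j / L.R * P.g ((m : ℤ) + 1) ^ 2) := by
        apply Finset.sum_le_sum
        intro m _
        rw [next_u, per_mul, L.G_lt P m j hj, mul_pow]
        apply mul_le_mul_of_nonneg_left _ (by positivity)
        nlinarith [mul_nonneg (mul_nonneg h0 (sub_nonneg.2 h1)) (sq_nonneg (P.g ((m : ℤ) + 1) - P.g m))]
    _ = L.u j ^ 2 * ∑ m ∈ range P.q, P.g m ^ 2 := by
        rw [← Finset.mul_sum, Finset.sum_add_distrib, ← Finset.mul_sum, ← Finset.mul_sum, hs]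
        ring

theorem S_nonneg : 0 ≤ L.S := Finset.sum_nonneg fun _ _ => sq_nonneg _

theorem sum_le_S (s : Finset ℤ) (hs : ∀ n ∈ s, 2 * |n| < L.p) : ∑ n ∈ s, L.u n ^ 2 ≤ L.S := by
  have hp : (0 : ℤ) < L.p := by exact_mod_cast L.hp
  have h1 : ∑ n ∈ s, L.u n ^ 2 = ∑ n ∈ s, L.u (((n % L.p).toNat : ℕ) : ℤ) ^ 2 := by
    apply Finset.sum_congr rfl
    intro n _
    rw [Int.toNat_of_nonneg (Int.emod_nonneg n hp.ne')]
    have := L.per_mul (n / L.p) (n % L.p)
    rw [Int.ediv_mul_add_emod] at this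
    rw [this]
  rw [h1, ← Finset.sum_image (s := s) (g := fun n : ℤ => (n % L.p).toNat)
    (f := fun i : ℕ => L.u i ^ 2)]
  · apply Finset.sum_le_sum_of_subset_of_nonneg
    · intro i hi
      obtain ⟨n, _, rfl⟩ := Finset.mem_image.1 hi
      have := Int.emod_lt_of_pos n hp
      have := Int.emod_nonneg n hp.ne'
      rw [Finset.mem_range]
      omega
    · intro i _ _
      positivity
  · intro a ha b hb hab
    have h2 : a % L.p = b % L.p := by
      have := Int.emod_nonneg a hp.ne'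
      have := Int.emod_nonneg b hp.ne'
      simp only at hab
      omega
    have h3 : (L.p : ℤ) ∣ a - b := Int.ModEq.dvd h2.symm
    have h4 := hs a ha
    have h5 := hs b hb
    have h6 : |a - b| < L.p := by
      have := abs_sub a b
      linarith
    have := Int.eq_zero_of_abs_lt_dvd h3 h6
    linarith

end Level

end Pool.Agent.H1Z.LP
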