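import Pool.Agent.H1Z.LP.Level

/-!
The limit of the levels, and the family of patterns.
-/

set_option linter.unusedSectionVars false
set_option linter.deprecated false
set_option linter.unusedSimpArgs false

namespace Pool.Agent.H1Z.LP

open Finset Filter Topology

/-- the sequence of levels -/
noncomputable def seq (L0 : Level) (P : ℕ → Pattern) : ℕ → Level
  | 0 => L0
  | (k + 1) => (seq L0 P k).next (P k)

theorem seq_p_succ (L0 : Level) (P : ℕ → Pattern) (k : ℕ) :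
    (seq L0 P (k + 1)).p = (P k).q * (seq L0 P k).p := rfl

theorem seq_p_dvd (L0 : Level) (P : ℕ → Pattern) (k j : ℕ) :
    ((seq L0 P k).p : ℤ) ∣ (seq L0 P (j + k)).p := by
  induction j with
  | zero => simp
  | succ j ih =>
    rw [show j + 1 + k = (j + k) + 1 by ring, seq_p_succ]
    push_cast
    exact ih.mul_left _

theorem seq_p_ge (L0 : Level) (P : ℕ → Pattern) (k : ℕ) : k + 1 ≤ (seq L0 P k).p := by
  induction k with
  | zero => exact L0.hp
  | succ k ih =>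
    rw [seq_p_succ]
    have := (P k).hq
    nlinarith

theorem seq_S_le (L0 : Level) (P : ℕ → Pattern) (σ : ℕ → ℝ)
    (hσ : ∀ k, ∑ m ∈ range (P k).q, (P k).g m ^ 2 ≤ 1 + σ k) (k : ℕ) :
    (seq L0 P k).S ≤ L0.S * Real.exp (∑ j ∈ range k, σ j) := by
  induction k with
  | zero => simp [seq]
  | succ k ih =>
    have h1 := (seq L0 P k).S_next (P k)
    have h2 : ∑ m ∈ range (P k).q, (P k).g m ^ 2 ≤ Real.exp (σ k) :=
      (hσ k).trans (by have := Real.add_one_le_exp (σ k); linarith)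
    rw [Finset.sum_range_succ, Real.exp_add, ← mul_assoc]
    refine h1.trans (mul_le_mul ih h2 (Finset.sum_nonneg fun _ _ => sq_nonneg _) ?_)
    have := L0.S_nonneg
    positivity

theorem limit (L0 : Level) (P : ℕ → Pattern) (ε : ℕ → ℝ) (hε : Summable ε)
    (hW : ∀ k n, |(seq L0 P (k + 1)).W n - (seq L0 P k).W n| ≤ ε k)
    (B : ℝ) (hB : ∀ k, (seq L0 P k).S ≤ B) :
    ∃ W u : ℤ → ℝ, u 0 = 1 ∧ Summable (fun n => u n ^ 2) ∧
      (∀ n, u (n + 1) + u (n - 1) = W n * u n) ∧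
      (∀ k n, HasSum (fun j => (seq L0 P (j + k + 1)).W n - (seq L0 P (j + k)).W n)
        (W n - (seq L0 P k).W n)) := by
  set L := seq L0 P with hL
  have hsum : ∀ n, Summable (fun k => (L (k + 1)).W n - (L k).W n) := fun n =>
    Summable.of_norm_bounded hε (fun k => hW k n)
  let W : ℤ → ℝ := fun n => (L 0).W n + ∑' k, ((L (k + 1)).W n - (L k).W n)
  have hHas : ∀ k n, HasSum (fun j => (L (j + k + 1)).W n - (L (j + k)).W n)
      (W n - (L k).W n) := by
    intro k n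
    have h1 := (hasSum_nat_add_iff' k).2 (hsum n).hasSum
    rw [Finset.sum_range_sub (fun k => (L k).W n)] at h1
    have e : W n - (L k).W n = ∑' k, ((L (k + 1)).W n - (L k).W n) - ((L k).W n - (L 0).W n) := by
      simp only [W]
      ring
    rw [e]
    exact h1
  have hWt : ∀ n, Tendsto (fun k => (L k).W n) atTop (𝓝 (W n)) := by
    intro n
    have h1 := (hsum n).hasSum.tendsto_sum_nat
    simp only [Finset.sum_range_sub (fun k => (L k).W n)] at h1
    have h2 := h1.const_add ((L 0).W n)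
    simpa using h2
  have hanti : ∀ n, Antitone (fun k => (L k).u n) := by
    intro n
    apply antitone_nat_of_succ_le
    intro k
    have h1 : (L (k + 1)).u n = (L k).u n * (L k).G (P k) n := rfl
    rw [h1]
    have := (L k).pos n
    have := (L k).G_le (P k) n
    nlinarith
  have hbdd : ∀ n, BddBelow (Set.range fun k => (L k).u n) := fun n =>
    ⟨0, by rintro _ ⟨k, rfl⟩; exact ((L k).pos n).le⟩
  let u : ℤ → ℝ := fun n => ⨅ k, (L k).u n
  have hut : ∀ n, Tendsto (fun k => (L k).u n) atTop (𝓝 (u n)) := fun n =>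
    tendsto_atTop_ciInf (hanti n) (hbdd n)
  refine ⟨W, u, ?_, ?_, ?_, hHas⟩
  · have h1 := hut 0
    simp only [Level.one] at h1
    exact (tendsto_const_nhds_iff.1 h1).symm
  · apply summable_of_sum_le (c := B) (fun n => sq_nonneg _)
    intro s
    have h1 : Tendsto (fun k => ∑ n ∈ s, (L k).u n ^ 2) atTop (𝓝 (∑ n ∈ s, u n ^ 2)) :=
      tendsto_finset_sum _ fun n _ => (hut n).pow 2
    apply le_of_tendsto h1
    filter_upwards [eventually_ge_atTop (2 * s.sup (fun n => n.natAbs))] with k hk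
    refine ((L k).sum_le_S s ?_).trans (hB k)
    intro n hn
    have h2 : n.natAbs ≤ s.sup (fun n => n.natAbs) := Finset.le_sup (f := fun n : ℤ => n.natAbs) hn
    have h3 : k + 1 ≤ (L k).p := seq_p_ge L0 P k
    have h4 : |n| = (n.natAbs : ℤ) := (Int.natCast_natAbs n).symm
    rw [h4]
    have h5 : 2 * n.natAbs < (L k).p := by omega
    exact_mod_cast h5
  · intro n
    have h1 := (hut (n + 1)).add (hut (n - 1))
    have h2 := (hWt n).mul (hut n)
    simp only [Level.eqn] at h1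
    exact tendsto_nhds_unique h1 h2

section Consequences

variable {L0 : Level} {P : ℕ → Pattern} {W : ℤ → ℝ}

theorem tail_bound (hHas : ∀ k n, HasSum
      (fun j => (seq L0 P (j + k + 1)).W n - (seq L0 P (j + k)).W n) (W n - (seq L0 P k).W n))
    (k : ℕ) (n : ℤ) (δ : ℕ → ℝ) (s : ℝ) (hδ : HasSum δ s)
    (h : ∀ j, |(seq L0 P (j + k + 1)).W n - (seq L0 P (j + k)).W n| ≤ δ j) :
    |W n - (seq L0 P k).W n| ≤ s := by
  have := (hHas k n).norm_le_of_bounded hδ h
  exact this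

theorem lim_off (hHas : ∀ k n, HasSum
      (fun j => (seq L0 P (j + k + 1)).W n - (seq L0 P (j + k)).W n) (W n - (seq L0 P k).W n))
    (k : ℕ) (n : ℤ) (hn : ¬ ((seq L0 P k).p : ℤ) ∣ n) : W n = (seq L0 P k).W n := by
  have h := tail_bound hHas k n (fun _ => 0) 0 hasSum_zero (fun j => by
    have : (seq L0 P (j + k + 1)).W n = (seq L0 P (j + k)).W n :=
      (seq L0 P (j + k)).W_next_off (P (j + k)) n
        (fun hd => hn ((seq_p_dvd L0 P k j).trans hd))
    rw [this, sub_self, abs_zero])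
  exact sub_eq_zero.1 (abs_nonpos_iff.1 h)

theorem lim_periodic (hHas : ∀ k n, HasSum
      (fun j => (seq L0 P (j + k + 1)).W n - (seq L0 P (j + k)).W n) (W n - (seq L0 P k).W n))
    (ε : ℕ → ℝ) (hε : Summable ε)
    (hW : ∀ k n, |(seq L0 P (k + 1)).W n - (seq L0 P k).W n| ≤ ε k)
    (δ : ℝ) (hδ : 0 < δ) : ∀ᶠ k in atTop, ∀ n, |W n - (seq L0 P k).W n| < δ := by
  have h1 := tendsto_sum_nat_add ε
  filter_upwards [(tendsto_order.1 h1).2 δ hδ] with k hk n
  refine lt_of_le_of_lt (tail_bound hHas k n (fun j => ε (j + k)) _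
    ((summable_nat_add_iff k).2 hε).hasSum (fun j => hW (j + k) n)) hk

theorem Level.W_bdd (L : Level) : ∃ C, ∀ n, |L.W n| ≤ C := by
  refine ⟨∑ j ∈ range L.p, |L.W j|, fun n => ?_⟩
  obtain ⟨m, j, hj, rfl⟩ := L.decomp n
  rw [L.W_per_mul]
  exact Finset.single_le_sum (f := fun j : ℕ => |L.W j|) (fun _ _ => abs_nonneg _)
    (Finset.mem_range.2 hj)

theorem lim_bdd (hHas : ∀ k n, HasSum
      (fun j => (seq L0 P (j + k + 1)).W n - (seq L0 P (j + k)).W n) (W n - (seq L0 P k).W n))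
    (ε : ℕ → ℝ) (hε : Summable ε)
    (hW : ∀ k n, |(seq L0 P (k + 1)).W n - (seq L0 P k).W n| ≤ ε k) :
    ∃ C, ∀ n, |W n| ≤ C := by
  obtain ⟨k, hk⟩ := (lim_periodic hHas ε hε hW 1 one_pos).exists
  obtain ⟨C, hC⟩ := (seq L0 P k).W_bdd
  refine ⟨C + 1, fun n => ?_⟩
  have h1 := hk n
  have h2 := hC n
  have h3 := abs_add_le (W n - (seq L0 P k).W n) ((seq L0 P k).W n)
  rw [sub_add_cancel] at h3
  linarith

end Consequences

/-! ### The patterns -/

/-- the height at the distance `d` from the nearest full peak -/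
noncomputable def ht (θ τ : ℝ) : ℕ → ℝ
  | 0 => 1
  | (d + 1) => θ * τ ^ d

/-- the height at the residue `j` -/
noncomputable def hf (M : ℕ) (θ τ : ℝ) (j : ℕ) : ℝ := ht θ τ (min j (2 * M - j))

theorem ht_pos {θ τ : ℝ} (hτ : 0 < τ) (hθ : τ ≤ θ) (d : ℕ) : 0 < ht θ τ d := by
  cases d with
  | zero => exact one_pos
  | succ d => exact mul_pos (by linarith) (pow_pos hτ d)

theorem ht_le {θ τ : ℝ} (hτ : 0 < τ) (hθ : τ ≤ θ) (h2 : θ ≤ 1 / 2) (d : ℕ) : ht θ τ d ≤ 1 := by
  cases d with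
  | zero => exact le_rfl
  | succ d =>
    have : τ ^ d ≤ 1 := pow_le_one₀ hτ.le (by linarith)
    simp only [ht]
    nlinarith

theorem ht_step {θ τ : ℝ} (hτ : 0 < τ) (hθ : τ ≤ θ) (h2 : θ ≤ 1 / 2) (d : ℕ) :
    τ * ht θ τ d ≤ ht θ τ (d + 1) ∧ τ * ht θ τ (d + 1) ≤ ht θ τ d := by
  cases d with
  | zero =>
    simp only [ht, pow_zero, mul_one]
    constructor
    · exact hθ
    · nlinarith
  | succ d =>
    simp only [ht]
    have h3 : 0 < θ * τ ^ d := mul_pos (by linarith) (pow_pos hτ d)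
    constructor
    · rw [pow_succ]; nlinarith
    · rw [pow_succ]
      have : τ * τ ≤ 1 := by nlinarith
      nlinarith

/-- the pattern with the period `2 M` -/
noncomputable def pat (M : ℕ) (θ τ : ℝ) (hM : 1 ≤ M) (hτ : 0 < τ) (hθ : τ ≤ θ)
    (h2 : θ ≤ 1 / 2) : Pattern where
  q := 2 * M
  g := fun m => hf M θ τ (m % ((2 * M : ℕ) : ℤ)).toNat
  hq := by omega
  pos := fun _ => ht_pos hτ hθ _
  le := fun _ => ht_le hτ hθ h2 _
  per := fun m => by rw [Int.add_emod_right]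
  one := by simp [hf, ht]

section Pat

variable {M : ℕ} {θ τ : ℝ} {hM : 1 ≤ M} {hτ : 0 < τ} {hθ : τ ≤ θ} {h2 : θ ≤ 1 / 2}

theorem pat_q : (pat M θ τ hM hτ hθ h2).q = 2 * M := rfl

theorem pat_g (a : ℤ) (j : ℕ) (hj : j ≤ 2 * M) :
    (pat M θ τ hM hτ hθ h2).g (a * ((2 * M : ℕ) : ℤ) + j) = hf M θ τ j := by
  change hf M θ τ ((a * ((2 * M : ℕ) : ℤ) + j) % ((2 * M : ℕ) : ℤ)).toNat = _
  rw [add_comm, Int.add_mul_emod_self_right]
  rcases hj.lt_or_eq with h | h
  · rw [Int.emod_eq_of_lt (by omega) (by exact_mod_cast h), Int.toNat_natCast]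
  · rw [h, Int.emod_self]
    simp [hf]

theorem pat_g_nat (j : ℕ) (hj : j ≤ 2 * M) : (pat M θ τ hM hτ hθ h2).g j = hf M θ τ j := by
  have := pat_g (hM := hM) (hτ := hτ) (hθ := hθ) (h2 := h2) 0 j hj
  simpa using this

theorem pat_g_low (d : ℕ) (hd : d + 1 ≤ M) :
    (pat M θ τ hM hτ hθ h2).g ((d + 1 : ℕ) : ℤ) = θ * τ ^ d := by
  rw [pat_g_nat _ (by omega), hf, show min (d + 1) (2 * M - (d + 1)) = d + 1 by omega]
  rfl

theorem pat_step (m : ℤ) :
    τ * (pat M θ τ hM hτ hθ h2).g m ≤ (pat M θ τ hM hτ hθ h2).g (m + 1) ∧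
    τ * (pat M θ τ hM hτ hθ h2).g (m + 1) ≤ (pat M θ τ hM hτ hθ h2).g m := by
  have hp : (0 : ℤ) < ((2 * M : ℕ) : ℤ) := by exact_mod_cast (by omega : 0 < 2 * M)
  obtain ⟨a, j, hj, rfl⟩ : ∃ (a : ℤ) (j : ℕ), j < 2 * M ∧ m = a * ((2 * M : ℕ) : ℤ) + j := by
    refine ⟨m / ((2 * M : ℕ) : ℤ), (m % ((2 * M : ℕ) : ℤ)).toNat, ?_, ?_⟩
    · have := Int.emod_lt_of_pos m hp
      have := Int.emod_nonneg m hp.ne'
      omega
    · rw [Int.toNat_of_nonneg (Int.emod_nonneg m hp.ne')]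
      have := Int.ediv_mul_add_emod m ((2 * M : ℕ) : ℤ)
      linarith
  rw [show a * ((2 * M : ℕ) : ℤ) + j + 1 = a * ((2 * M : ℕ) : ℤ) + ((j + 1 : ℕ) : ℤ) by
    push_cast; ring, pat_g a j hj.le, pat_g a (j + 1) hj]
  unfold hf
  by_cases h : j < M
  · rw [show min j (2 * M - j) = j by omega, show min (j + 1) (2 * M - (j + 1)) = j + 1 by omega]
    exact ht_step hτ hθ h2 j
  · rw [show min j (2 * M - j) = (2 * M - (j + 1)) + 1 by omega,
      show min (j + 1) (2 * M - (j + 1)) = 2 * M - (j + 1) by omega]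
    exact (ht_step hτ hθ h2 _).symm

theorem pat_sum : ∑ m ∈ range (pat M θ τ hM hτ hθ h2).q, (pat M θ τ hM hτ hθ h2).g m ^ 2 ≤
    1 + 4 * θ ^ 2 := by
  obtain ⟨N, hN⟩ : ∃ N, 2 * M = N + 1 := ⟨2 * M - 1, by omega⟩
  rw [pat_q, hN, Finset.sum_range_succ', Nat.cast_zero, Pattern.one]
  have h1 : ∀ i ∈ range N, (pat M θ τ hM hτ hθ h2).g ((i + 1 : ℕ) : ℤ) ^ 2 ≤
      θ ^ 2 * ((1 / 2) ^ i + (1 / 2) ^ (N - 1 - i)) := by
    intro i hi
    rw [Finset.mem_range] at hi
    rw [pat_g_nat _ (by omega), hf]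
    have key : ∀ d : ℕ, (θ * τ ^ d) ^ 2 ≤ θ ^ 2 * (1 / 2) ^ d := by
      intro d
      rw [mul_pow, ← pow_mul, mul_comm d 2, pow_mul]
      apply mul_le_mul_of_nonneg_left _ (sq_nonneg _)
      apply pow_le_pow_left₀ (sq_nonneg _)
      nlinarith
    have p1 : 0 ≤ θ ^ 2 * (1 / 2 : ℝ) ^ i := by positivity
    have p2 : 0 ≤ θ ^ 2 * (1 / 2 : ℝ) ^ (N - 1 - i) := by positivity
    by_cases h : i + 1 ≤ M
    · rw [show min (i + 1) (2 * M - (i + 1)) = i + 1 by omega]
      have := key i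
      simp only [ht]
      linarith
    · rw [show min (i + 1) (2 * M - (i + 1)) = (N - 1 - i) + 1 by omega]
      have := key (N - 1 - i)
      simp only [ht]
      linarith
  have h3 := Finset.sum_le_sum h1
  rw [← Finset.mul_sum, Finset.sum_add_distrib,
    Finset.sum_range_reflect (fun i => (1 / 2 : ℝ) ^ i) N] at h3
  have h4 := sum_geometric_two_le N
  nlinarith [sq_nonneg θ]

theorem W_next_pat (L : Level) (n : ℤ) :
    |(L.next (pat M θ τ hM hτ hθ h2)).W n - L.W n| ≤ 2 / (τ * L.R) := by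
  have hR := L.R_pos
  by_cases hn : (L.p : ℤ) ∣ n
  · obtain ⟨m, rfl⟩ := hn
    rw [mul_comm, L.W_next_on]
    have e2 := L.W_per_mul m 0
    rw [add_zero] at e2
    rw [e2, add_sub_cancel_left]
    set P := pat M θ τ hM hτ hθ h2
    have a1 := (pat_step (hM := hM) (hτ := hτ) (hθ := hθ) (h2 := h2) m).2
    have a2 := (pat_step (hM := hM) (hτ := hτ) (hθ := hθ) (h2 := h2) (m - 1)).1
    rw [sub_add_cancel] at a2
    have b0 := P.pos m
    have b1 := P.pos (m + 1)
    have b2 := P.pos (m - 1)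
    rw [abs_div, abs_of_pos (mul_pos hR b0), div_le_div_iff₀ (mul_pos hR b0) (mul_pos hτ hR)]
    have h5 : |P.g (m + 1) + P.g (m - 1) - 2 * P.g m| * τ ≤ 2 * P.g m := by
      rw [← abs_of_pos hτ, ← abs_mul, abs_le]
      constructor <;> nlinarith
    nlinarith
  · rw [L.W_next_off _ n hn, sub_self, abs_zero]
    positivity

theorem W_next_one (L : Level) :
    |(L.next (pat M θ τ hM hτ hθ h2)).W L.p - L.W 0| ≤ 2 / (θ * L.R) := by
  have hR := L.R_pos
  have h1 := L.W_next_on (pat M θ τ hM hτ hθ h2) 1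
  rw [one_mul] at h1
  rw [h1, add_sub_cancel_left]
  have h3 := pat_g_low (hM := hM) (hτ := hτ) (hθ := hθ) (h2 := h2) 0 hM
  simp only [zero_add, Nat.cast_one, pow_zero, mul_one] at h3
  rw [h3, sub_self, Pattern.one]
  have b1 := (pat M θ τ hM hτ hθ h2).pos (1 + 1)
  have b2 := (pat M θ τ hM hτ hθ h2).le (1 + 1)
  have hθ0 : 0 < θ := by linarith
  rw [abs_div, abs_of_pos (mul_pos hR hθ0), mul_comm θ]
  apply div_le_div_of_nonneg_right _ (mul_pos hR hθ0).le
  rw [abs_le]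
  constructor <;> linarith

end Pat

theorem W_next_zero (L : Level) (P : Pattern) : |(L.next P).W 0 - L.W 0| ≤ 2 / L.R := by
  have hR := L.R_pos
  have h1 := L.W_next_on P 0
  rw [zero_mul] at h1
  rw [h1, add_sub_cancel_left, P.one, mul_one, mul_one, abs_div, abs_of_pos hR]
  apply div_le_div_of_nonneg_right _ hR.le
  have := P.pos (0 + 1)
  have := P.le (0 + 1)
  have := P.pos (0 - 1)
  have := P.le (0 - 1)
  rw [abs_le]
  constructor <;> linarith

/-- the constant level -/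
def const (N : ℕ) (hN : 0 < N) : Level where
  p := N
  u := fun _ => 1
  hp := hN
  pos := fun _ => one_pos
  per := fun _ => rfl
  one := rfl

theorem const_R (N : ℕ) (hN : 0 < N) : (const N hN).R = N := by
  simp [Level.R, Level.r, const]

theorem const_W (N : ℕ) (hN : 0 < N) (n : ℤ) : (const N hN).W n = 2 := by
  simp only [Level.W, const]
  norm_num

end Pool.Agent.H1Z.LP
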