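import Pool.Agent.H1Z.LP.Spec

/-!
The discrete Schroedinger operator on square summable sequences over the integers.
-/

set_option linter.unusedSectionVars false
set_option linter.deprecated false
set_option linter.style.haveILetI false
set_option linter.unusedSimpArgs false

namespace Pool.Agent.H1Z.LP

open MeasureTheory Filter Topology Polynomial
open scoped InnerProductSpace

/-- square summable complex sequences over the integers -/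
abbrev L2 : Type := lp (fun _ : ℤ => ℂ) 2

/-- the action of the Schroedinger operator on sequences -/
def step (V : ℤ → ℝ) (ψ : ℤ → ℂ) : ℤ → ℂ := fun n => ψ (n + 1) + ψ (n - 1) + (V n : ℂ) * ψ n

/-- `H` is the Schroedinger operator with the potential `V` -/
def IsOp (V : ℤ → ℝ) (H : L2 →L[ℂ] L2) : Prop :=
  ∀ (ψ : L2) (n : ℤ), (H ψ) n = ψ (n + 1) + ψ (n - 1) + (V n : ℂ) * ψ n

theorem mem_iff (f : ℤ → ℂ) : Memℓp f 2 ↔ Summable (fun n => ‖f n‖ ^ 2) := by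
  rw [memℓp_gen_iff (by norm_num)]
  simp only [ENNReal.toReal_ofNat, Real.rpow_two]

theorem summable_sq (ψ : L2) : Summable (fun n => ‖ψ n‖ ^ 2) := (mem_iff _).1 ψ.2

theorem norm_sq_eq (ψ : L2) : ‖ψ‖ ^ 2 = ∑' n, ‖ψ n‖ ^ 2 := by
  have := lp.norm_rpow_eq_tsum (p := 2) (by norm_num) ψ
  simpa only [ENNReal.toReal_ofNat, Real.rpow_two] using this

/-- translation of a square summable sequence -/
noncomputable def sh (k : ℤ) (ψ : L2) : L2 :=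
  ⟨fun n => ψ (n + k), (mem_iff _).2 ((Equiv.addRight k).summable_iff.2 (summable_sq ψ))⟩

theorem sh_apply (k : ℤ) (ψ : L2) (n : ℤ) : sh k ψ n = ψ (n + k) := rfl

theorem norm_sh (k : ℤ) (ψ : L2) : ‖sh k ψ‖ = ‖ψ‖ := by
  have h : ‖sh k ψ‖ ^ 2 = ‖ψ‖ ^ 2 := by
    rw [norm_sq_eq, norm_sq_eq]
    exact (Equiv.addRight k).tsum_eq (fun n => ‖ψ n‖ ^ 2)
  exact (sq_eq_sq₀ (norm_nonneg _) (norm_nonneg _)).1 h

theorem inner_sh (k : ℤ) (φ ψ : L2) : ⟪sh k φ, ψ⟫_ℂ = ⟪φ, sh (-k) ψ⟫_ℂ := by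
  rw [lp.inner_eq_tsum, lp.inner_eq_tsum,
    ← (Equiv.addRight k).tsum_eq (fun n => ⟪φ n, sh (-k) ψ n⟫_ℂ)]
  congr 1
  funext n
  simp [sh_apply]

theorem mul_bound {V : ℤ → ℝ} {C : ℝ} (hC : ∀ n, |V n| ≤ C) (ψ : L2) (n : ℤ) :
    ‖(V n : ℂ) * ψ n‖ ^ 2 ≤ C ^ 2 * ‖ψ n‖ ^ 2 := by
  rw [norm_mul, mul_pow, Complex.norm_real, Real.norm_eq_abs]
  exact mul_le_mul_of_nonneg_right (pow_le_pow_left₀ (abs_nonneg _) (hC n) 2) (by positivity)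

/-- multiplication by a bounded potential -/
noncomputable def mulV {V : ℤ → ℝ} {C : ℝ} (hC : ∀ n, |V n| ≤ C) (ψ : L2) : L2 :=
  ⟨fun n => (V n : ℂ) * ψ n, (mem_iff _).2 (Summable.of_nonneg_of_le (fun _ => by positivity)
    (mul_bound hC ψ) ((summable_sq ψ).mul_left _))⟩

theorem mulV_apply {V : ℤ → ℝ} {C : ℝ} (hC : ∀ n, |V n| ≤ C) (ψ : L2) (n : ℤ) :
    mulV hC ψ n = (V n : ℂ) * ψ n := rfl

theorem norm_mulV {V : ℤ → ℝ} {C : ℝ} (hC : ∀ n, |V n| ≤ C) (ψ : L2) :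
    ‖mulV hC ψ‖ ≤ C * ‖ψ‖ := by
  have hC0 : 0 ≤ C := (abs_nonneg _).trans (hC 0)
  apply le_of_sq_le_sq₀ (by positivity)
  rw [mul_pow, norm_sq_eq, norm_sq_eq, ← tsum_mul_left]
  exact (summable_sq (mulV hC ψ)).tsum_le_tsum (mul_bound hC ψ) ((summable_sq ψ).mul_left _)
where
  le_of_sq_le_sq₀ {a b : ℝ} (hb : 0 ≤ b) (h : a ^ 2 ≤ b ^ 2) : a ≤ b :=
    (abs_le_of_sq_le_sq' h hb).2

theorem inner_mulV {V : ℤ → ℝ} {C : ℝ} (hC : ∀ n, |V n| ≤ C) (φ ψ : L2) :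
    ⟪mulV hC φ, ψ⟫_ℂ = ⟪φ, mulV hC ψ⟫_ℂ := by
  rw [lp.inner_eq_tsum, lp.inner_eq_tsum]
  congr 1
  funext n
  simp only [mulV_apply, RCLike.inner_apply, map_mul, Complex.conj_ofReal]
  ring

theorem IsOp.eq {V : ℤ → ℝ} {C : ℝ} (hC : ∀ n, |V n| ≤ C) {H : L2 →L[ℂ] L2} (h : IsOp V H)
    (ψ : L2) : H ψ = sh 1 ψ + sh (-1) ψ + mulV hC ψ := by
  ext n
  rw [h ψ n]
  rfl

theorem norm_op_aux {V : ℤ → ℝ} {C : ℝ} (hC : ∀ n, |V n| ≤ C) (ψ : L2) :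
    ‖sh 1 ψ + sh (-1) ψ + mulV hC ψ‖ ≤ (2 + C) * ‖ψ‖ := by
  have h1 := norm_add_le (sh 1 ψ + sh (-1) ψ) (mulV hC ψ)
  have h2 := norm_add_le (sh 1 ψ) (sh (-1) ψ)
  have h3 := norm_mulV hC ψ
  rw [norm_sh, norm_sh] at h2
  linarith

theorem exists_op {V : ℤ → ℝ} {C : ℝ} (hC : ∀ n, |V n| ≤ C) : ∃ H, IsOp V H := by
  let L : L2 →ₗ[ℂ] L2 :=
  { toFun := fun ψ => sh 1 ψ + sh (-1) ψ + mulV hC ψ
    map_add' := fun φ ψ => by
      ext n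
      simp only [lp.coeFn_add, Pi.add_apply, sh_apply, mulV_apply]
      ring
    map_smul' := fun c ψ => by
      ext n
      simp only [lp.coeFn_add, lp.coeFn_smul, Pi.add_apply, Pi.smul_apply, sh_apply, mulV_apply,
        smul_eq_mul, RingHom.id_apply]
      ring }
  exact ⟨L.mkContinuous (2 + C) (norm_op_aux hC), fun ψ n => rfl⟩

theorem IsOp.norm_le {V : ℤ → ℝ} {C : ℝ} (hC : ∀ n, |V n| ≤ C) {H : L2 →L[ℂ] L2}
    (h : IsOp V H) : ‖H‖ ≤ 2 + C := by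
  have hC0 : 0 ≤ C := (abs_nonneg _).trans (hC 0)
  apply ContinuousLinearMap.opNorm_le_bound _ (by linarith)
  intro ψ
  rw [h.eq hC]
  exact norm_op_aux hC ψ

theorem IsOp.sa {V : ℤ → ℝ} {C : ℝ} (hC : ∀ n, |V n| ≤ C) {H : L2 →L[ℂ] L2}
    (h : IsOp V H) : IsSelfAdjoint H := by
  rw [ContinuousLinearMap.isSelfAdjoint_iff_isSymmetric]
  intro φ ψ
  change ⟪H φ, ψ⟫_ℂ = ⟪φ, H ψ⟫_ℂ
  rw [h.eq hC, h.eq hC, inner_add_left, inner_add_left, inner_add_right, inner_add_right,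
    inner_sh, inner_sh, inner_mulV, neg_neg]
  ring

theorem IsOp.pow_apply {V : ℤ → ℝ} {H : L2 →L[ℂ] L2} (h : IsOp V H) (k : ℕ) (ψ : L2) :
    (((H ^ k) ψ : L2) : ℤ → ℂ) = (step V)^[k] ψ := by
  induction k with
  | zero => rfl
  | succ k ih =>
    rw [pow_succ', ContinuousLinearMap.mul_apply, Function.iterate_succ_apply', ← ih]
    funext n
    exact h _ n

/-- the unit vector at the site `j` -/
noncomputable def dl (j : ℤ) : L2 := lp.single 2 j 1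

theorem inner_dl (j : ℤ) (ψ : L2) : ⟪dl j, ψ⟫_ℂ = ψ j := by
  simp [dl, lp.inner_single_left]

theorem dl_apply (j n : ℤ) : dl j n = ((Pi.single j (1 : ℝ) : ℤ → ℝ) n : ℂ) := by
  by_cases h : n = j
  · subst h; simp [dl]
  · simp [dl, lp.single_apply, Pi.single_eq_of_ne h]

theorem norm_dl (j : ℤ) : ‖dl j‖ = 1 := by
  simp [dl]

theorem iterate_real (V : ℤ → ℝ) (k : ℕ) (u : ℤ → ℝ) :
    (step V)^[k] (fun n => (u n : ℂ)) = fun n =>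
      (((fun u : ℤ → ℝ => fun m : ℤ => u (m + 1) + u (m - 1) + V m * u m)^[k] u n : ℝ) : ℂ) := by
  induction k with
  | zero => rfl
  | succ k ih =>
    rw [Function.iterate_succ_apply', Function.iterate_succ_apply', ih]
    funext n
    simp [step]

theorem IsOp.moment_dl {V : ℤ → ℝ} {H : L2 →L[ℂ] L2} (h : IsOp V H) (j : ℤ) (k : ℕ) :
    ⟪dl j, (H ^ k) (dl j)⟫_ℂ =
      (((fun u : ℤ → ℝ => fun m : ℤ => u (m + 1) + u (m - 1) + V m * u m)^[k]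
        (Pi.single j (1 : ℝ) : ℤ → ℝ) j : ℝ) : ℂ) := by
  rw [inner_dl, h.pow_apply]
  have : ((dl j : L2) : ℤ → ℂ) = fun n => (((Pi.single j (1 : ℝ) : ℤ → ℝ) n : ℝ) : ℂ) :=
    funext (dl_apply j)
  rw [this, iterate_real]

theorem IsOp.spec_dl {V : ℤ → ℝ} {H : L2 →L[ℂ] L2} (h : IsOp V H) {j : ℤ} {μ : Measure ℝ}
    (hμ : IsSpec H (dl j) μ) (k : ℕ) : Integrable (fun x : ℝ => x ^ k) μ ∧
      ∫ x, x ^ k ∂μ = (fun u : ℤ → ℝ => fun m : ℤ => u (m + 1) + u (m - 1) + V m * u m)^[k]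
        (Pi.single j (1 : ℝ) : ℤ → ℝ) j := by
  refine ⟨(hμ.2 k).1, ?_⟩
  have := (hμ.2 k).2
  rw [h.moment_dl] at this
  exact_mod_cast this

theorem tendsto_zero (ψ : L2) : Tendsto (fun n => ‖ψ n‖) cofinite (𝓝 0) := by
  have h := (summable_sq ψ).tendsto_cofinite_zero
  have h2 := h.sqrt
  simpa [Real.sqrt_sq (norm_nonneg _)] using h2

theorem small_far (ψ : L2) {ε : ℝ} (hε : 0 < ε) : ∃ N : ℕ, ∀ n : ℤ, (N : ℤ) ≤ |n| → ‖ψ n‖ < ε := by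
  have h := (tendsto_order.1 (tendsto_zero ψ)).2 ε hε
  rw [eventually_cofinite] at h
  obtain ⟨M, hM⟩ := (h.image (fun n : ℤ => n.natAbs)).bddAbove
  refine ⟨M + 1, fun n hn => ?_⟩
  by_contra hc
  have := hM ⟨n, hc, rfl⟩
  simp only at this
  have h2 : |n| = (n.natAbs : ℤ) := (Int.natCast_natAbs n).symm
  push_cast at hn
  omega

end Pool.Agent.H1Z.LP
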