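import Mathlib

/-!
Spectral measures of bounded self-adjoint operators, identified by their moments.
-/

set_option linter.unusedSectionVars false
set_option linter.deprecated false
set_option linter.style.haveILetI false
set_option linter.unusedSimpArgs false

namespace Pool.Agent.H1Z.LP

open MeasureTheory Filter Topology Polynomial
open scoped InnerProductSpace

variable {E : Type*} [NormedAddCommGroup E] [InnerProductSpace ℂ E] [CompleteSpace E]

/-- `μ` is a finite measure on the line whose moments are those of `ψ` for `H`. -/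
def IsSpec (H : E →L[ℂ] E) (ψ : E) (μ : Measure ℝ) : Prop :=
  IsFiniteMeasure μ ∧ ∀ k : ℕ, Integrable (fun x : ℝ => x ^ k) μ ∧
    ((∫ x, x ^ k ∂μ : ℝ) : ℂ) = ⟪ψ, (H ^ k) ψ⟫_ℂ

theorem sa_inner {A : E →L[ℂ] E} (hA : IsSelfAdjoint A) (x y : E) :
    ⟪A x, y⟫_ℂ = ⟪x, A y⟫_ℂ :=
  (ContinuousLinearMap.isSelfAdjoint_iff_isSymmetric.1 hA) x y

theorem sa_inner_real {A : E →L[ℂ] E} (hA : IsSelfAdjoint A) (x : E) :
    (((⟪x, A x⟫_ℂ).re : ℝ) : ℂ) = ⟪x, A x⟫_ℂ := by
  apply Complex.conj_eq_iff_re.1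
  rw [inner_conj_symm, sa_inner hA]

theorem exists_spec {H : E →L[ℂ] E} (hH : IsSelfAdjoint H) (ψ : E) : ∃ μ, IsSpec H ψ μ := by
  have hc : IsCompact (spectrum ℝ H) := spectrum.isCompact H
  haveI : CompactSpace (spectrum ℝ H) := isCompact_iff_compactSpace.1 hc
  let Φ : C(spectrum ℝ H, ℝ) →⋆ₐ[ℝ] (E →L[ℂ] E) := cfcHom hH
  have hpos : ∀ f : C(spectrum ℝ H, ℝ), 0 ≤ f → 0 ≤ (⟪ψ, Φ f ψ⟫_ℂ).re := by
    intro f hf
    let g : C(spectrum ℝ H, ℝ) := ⟨fun x => Real.sqrt (f x), by fun_prop⟩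
    have hg : f = g * g := by
      ext x
      exact (Real.mul_self_sqrt (hf x)).symm
    have hsa : IsSelfAdjoint (Φ g) := cfcHom_predicate hH g
    rw [hg, map_mul, ContinuousLinearMap.mul_apply, ← sa_inner hsa]
    exact inner_self_nonneg (𝕜 := ℂ)
  let Λ : CompactlySupportedContinuousMap (spectrum ℝ H) ℝ →ₚ[ℝ] ℝ :=
  { toFun := fun g => (⟪ψ, Φ g.toContinuousMap ψ⟫_ℂ).re
    map_add' := fun g g' => by
      have : (g + g').toContinuousMap = g.toContinuousMap + g'.toContinuousMap := rfl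
      rw [this, map_add, ContinuousLinearMap.add_apply, inner_add_right, Complex.add_re]
    map_smul' := fun c g => by
      have : (c • g).toContinuousMap = c • g.toContinuousMap := rfl
      rw [this, map_smul, ContinuousLinearMap.smul_apply, ← Complex.coe_smul, inner_smul_right,
        Complex.re_ofReal_mul]
      rfl
    monotone' := fun g g' hgg' => by
      have h := hpos (g'.toContinuousMap - g.toContinuousMap) (fun x => sub_nonneg.2 (hgg' x))
      rw [map_sub, ContinuousLinearMap.sub_apply, inner_sub_right, Complex.sub_re] at h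
      exact sub_nonneg.1 h }
  have hint : ∀ h : C(spectrum ℝ H, ℝ),
      ∫ x, h x ∂(RealRMK.rieszMeasure Λ) = (⟪ψ, Φ h ψ⟫_ℂ).re := by
    intro h
    let h' : CompactlySupportedContinuousMap (spectrum ℝ H) ℝ :=
    { toContinuousMap := h
      hasCompactSupport' := HasCompactSupport.of_compactSpace _ }
    exact RealRMK.integral_rieszMeasure Λ h'
  have hemb : MeasurableEmbedding (Subtype.val : spectrum ℝ H → ℝ) :=
    MeasurableEmbedding.subtype_coe hc.measurableSet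
  refine ⟨(RealRMK.rieszMeasure Λ).map Subtype.val, inferInstance, fun k => ⟨?_, ?_⟩⟩
  · rw [hemb.integrable_map_iff]
    have : Continuous ((fun x : ℝ => x ^ k) ∘ (Subtype.val : spectrum ℝ H → ℝ)) := by fun_prop
    exact this.integrable_of_hasCompactSupport (HasCompactSupport.of_compactSpace _)
  · rw [hemb.integral_map]
    have h1 := hint (((ContinuousMap.id ℝ).restrict (spectrum ℝ H)) ^ k)
    rw [map_pow] at h1
    have h2 : Φ ((ContinuousMap.id ℝ).restrict (spectrum ℝ H)) = H := cfcHom_id hH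
    rw [h2] at h1
    rw [← sa_inner_real (hH.pow k) ψ, ← h1]
    rfl

theorem sa_aeval {H : E →L[ℂ] E} (hH : IsSelfAdjoint H) (q : ℝ[X]) :
    IsSelfAdjoint (aeval H q) := by
  induction q using Polynomial.induction_on' with
  | add p q hp hq => rw [map_add]; exact hp.add hq
  | monomial n a =>
    rw [aeval_monomial, ← Algebra.smul_def]
    exact (IsSelfAdjoint.all a).smul (hH.pow n)

theorem IsSpec.poly {H : E →L[ℂ] E} {ψ : E} {μ : Measure ℝ} (h : IsSpec H ψ μ) (q : ℝ[X]) :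
    Integrable (fun x : ℝ => q.eval x) μ ∧
      ((∫ x, q.eval x ∂μ : ℝ) : ℂ) = ⟪ψ, (aeval H q) ψ⟫_ℂ := by
  induction q using Polynomial.induction_on' with
  | add p q hp hq =>
    simp only [eval_add, map_add, ContinuousLinearMap.add_apply, inner_add_right]
    refine ⟨hp.1.add hq.1, ?_⟩
    rw [integral_add hp.1 hq.1, Complex.ofReal_add, hp.2, hq.2]
  | monomial n a =>
    simp only [eval_monomial]
    refine ⟨(h.2 n).1.const_mul a, ?_⟩
    rw [aeval_monomial, ← Algebra.smul_def, ContinuousLinearMap.smul_apply, ← Complex.coe_smul,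
      inner_smul_right, integral_const_mul, Complex.ofReal_mul, (h.2 n).2]

theorem IsSpec.poly_sq {H : E →L[ℂ] E} (hH : IsSelfAdjoint H) {ψ : E} {μ : Measure ℝ}
    (h : IsSpec H ψ μ) (q : ℝ[X]) :
    ∫ x, q.eval x ^ 2 ∂μ = ‖(aeval H q) ψ‖ ^ 2 := by
  have h1 := (h.poly (q * q)).2
  rw [map_mul, ContinuousLinearMap.mul_apply, ← sa_inner (sa_aeval hH q),
    inner_self_eq_norm_sq_to_K] at h1
  simp only [eval_mul] at h1
  simp only [sq]
  apply Complex.ofReal_injective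
  rw [h1]
  simp [sq]

theorem IsSpec.supp {H : E →L[ℂ] E} {ψ : E} {μ : Measure ℝ} (h : IsSpec H ψ μ) :
    ∀ᵐ x ∂μ, |x| ≤ ‖H‖ := by
  haveI := h.1
  have key : ∀ r : ℝ, ‖H‖ < r → μ {x | r ≤ |x|} = 0 := by
    intro r hr
    have hr0 : 0 < r := lt_of_le_of_lt (norm_nonneg _) hr
    have hb : ∀ k : ℕ, μ.real {x | r ≤ |x|} ≤ (‖H‖ / r) ^ (2 * (k + 1)) * ‖ψ‖ ^ 2 := by
      intro k
      have h1 : ∫ x, x ^ (2 * (k + 1)) ∂μ ≤ ‖H‖ ^ (2 * (k + 1)) * ‖ψ‖ ^ 2 := by
        have h2 := (h.2 (2 * (k + 1))).2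
        have h3 : ‖((∫ x, x ^ (2 * (k + 1)) ∂μ : ℝ) : ℂ)‖ ≤ ‖H‖ ^ (2 * (k + 1)) * ‖ψ‖ ^ 2 := by
          rw [h2]
          calc ‖⟪ψ, (H ^ (2 * (k + 1))) ψ⟫_ℂ‖ ≤ ‖ψ‖ * ‖(H ^ (2 * (k + 1))) ψ‖ :=
                norm_inner_le_norm _ _
            _ ≤ ‖ψ‖ * (‖H‖ ^ (2 * (k + 1)) * ‖ψ‖) := by
                apply mul_le_mul_of_nonneg_left _ (norm_nonneg _)
                refine ((H ^ (2 * (k + 1))).le_opNorm ψ).trans ?_
                exact mul_le_mul_of_nonneg_right (norm_pow_le' H (by omega)) (norm_nonneg _)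
            _ = ‖H‖ ^ (2 * (k + 1)) * ‖ψ‖ ^ 2 := by ring
        rw [Complex.norm_real, Real.norm_eq_abs] at h3
        exact (le_abs_self _).trans h3
      have h4 := mul_meas_ge_le_integral_of_nonneg (μ := μ) (f := fun x : ℝ => x ^ (2 * (k + 1)))
        (Eventually.of_forall fun x => by
          simp only [Pi.zero_apply]
          rw [pow_mul]; positivity) (h.2 (2 * (k + 1))).1 (r ^ (2 * (k + 1)))
      have h5 : μ.real {x | r ≤ |x|} ≤ μ.real {x | r ^ (2 * (k + 1)) ≤ x ^ (2 * (k + 1))} := by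
        apply measureReal_mono _ (measure_ne_top _ _)
        intro x hx
        simp only [Set.mem_setOf_eq] at hx ⊢
        calc r ^ (2 * (k + 1)) ≤ |x| ^ (2 * (k + 1)) := pow_le_pow_left₀ hr0.le hx _
          _ = x ^ (2 * (k + 1)) := by rw [pow_mul, sq_abs, ← pow_mul]
      have hrp : 0 < r ^ (2 * (k + 1)) := by positivity
      rw [div_pow, div_mul_eq_mul_div, le_div_iff₀ hrp]
      nlinarith [measureReal_nonneg (μ := μ) (s := {x | r ≤ |x|})]
    have ht : Tendsto (fun k : ℕ => (‖H‖ / r) ^ (2 * (k + 1)) * ‖ψ‖ ^ 2) atTop (𝓝 (0 * ‖ψ‖ ^ 2)) := by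
      apply Tendsto.mul_const
      have h0 : Tendsto (fun k : ℕ => (‖H‖ / r) ^ k) atTop (𝓝 0) :=
        tendsto_pow_atTop_nhds_zero_of_lt_one (by positivity) ((div_lt_one hr0).2 hr)
      exact h0.comp (tendsto_atTop_mono (fun k => by simp only [id]; omega) tendsto_id)
    have h6 : μ.real {x | r ≤ |x|} ≤ 0 := by
      have := ge_of_tendsto' ht hb
      simpa using this
    exact (measureReal_eq_zero_iff (measure_ne_top _ _)).1 (le_antisymm h6 measureReal_nonneg)
  rw [ae_iff]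
  have : {x : ℝ | ¬ |x| ≤ ‖H‖} ⊆ ⋃ m : ℕ, {x | ‖H‖ + 1 / ((m : ℝ) + 1) ≤ |x|} := by
    intro x hx
    simp only [Set.mem_setOf_eq, not_le] at hx
    obtain ⟨m, hm⟩ := exists_nat_one_div_lt (sub_pos.2 hx)
    exact Set.mem_iUnion.2 ⟨m, by simp only [Set.mem_setOf_eq]; linarith⟩
  refine measure_mono_null this (measure_iUnion_null fun m => key _ ?_)
  have : (0 : ℝ) < 1 / ((m : ℝ) + 1) := by positivity
  linarith

/-- the bump polynomial at the energy `e` -/
noncomputable def bump (R e : ℝ) : ℝ[X] := 1 - C (1 / ((R + |e|) ^ 2 + 1)) * (X - C e) ^ 2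

theorem bump_eval (R e x : ℝ) : (bump R e).eval x = 1 - (x - e) ^ 2 / ((R + |e|) ^ 2 + 1) := by
  simp only [bump, eval_sub, eval_one, eval_mul, eval_C, eval_pow, eval_X]
  ring

theorem bump_mem {R e x : ℝ} (hx : |x| ≤ R) :
    0 ≤ (bump R e).eval x ∧ (bump R e).eval x ≤ 1 ∧ (x ≠ e → (bump R e).eval x < 1) := by
  rw [bump_eval]
  have hD : 0 < (R + |e|) ^ 2 + 1 := by positivity
  have h1 : (x - e) ^ 2 ≤ (R + |e|) ^ 2 := by
    rw [← sq_abs (x - e)]
    apply pow_le_pow_left₀ (abs_nonneg _)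
    exact (abs_sub x e).trans (by linarith)
  refine ⟨?_, ?_, ?_⟩
  · rw [sub_nonneg, div_le_one hD]; linarith
  · have : 0 ≤ (x - e) ^ 2 / ((R + |e|) ^ 2 + 1) := by positivity
    linarith
  · intro hne
    have : 0 < (x - e) ^ 2 / ((R + |e|) ^ 2 + 1) :=
      div_pos (pow_pos' (sub_ne_zero.2 hne)) hD
    linarith
where
  pow_pos' {y : ℝ} (hy : y ≠ 0) : 0 < y ^ 2 := by positivity

theorem IsSpec.bump_tendsto {H : E →L[ℂ] E} {ψ : E} {μ : Measure ℝ} (h : IsSpec H ψ μ) (e : ℝ) :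
    Tendsto (fun n : ℕ => ∫ x, (bump ‖H‖ e).eval x ^ n ∂μ) atTop (𝓝 (μ.real {e})) := by
  haveI := h.1
  have h1 : μ.real {e} = ∫ x, ({e} : Set ℝ).indicator (fun _ => (1 : ℝ)) x ∂μ := by
    rw [integral_indicator (measurableSet_singleton e)]
    simp [measureReal_def]
  rw [h1]
  refine tendsto_integral_of_dominated_convergence (fun _ => (1 : ℝ)) (fun n => ?_)
    (integrable_const _) (fun n => ?_) ?_
  · exact ((bump ‖H‖ e).continuous.pow n).aestronglyMeasurable
  · filter_upwards [h.supp] with x hx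
    have := bump_mem (e := e) hx
    rw [Real.norm_eq_abs, abs_of_nonneg (pow_nonneg this.1 n)]
    exact pow_le_one₀ this.1 this.2.1
  · filter_upwards [h.supp] with x hx
    have := bump_mem (e := e) hx
    by_cases hxe : x = e
    · subst hxe
      simp [bump_eval]
    · rw [Set.indicator_of_notMem (by simpa using hxe)]
      exact tendsto_pow_atTop_nhds_zero_of_lt_one this.1 (this.2.2 hxe)

theorem aeval_bump_apply (H : E →L[ℂ] E) (R e : ℝ) (φ : E) :
    (aeval H (bump R e)) φ = φ - ((1 / ((R + |e|) ^ 2 + 1) : ℝ) : ℂ) •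
      (H (H φ - (e : ℂ) • φ) - (e : ℂ) • (H φ - (e : ℂ) • φ)) := by
  simp only [bump, map_sub, map_one, map_mul, aeval_C, map_pow, aeval_X, sq,
    ContinuousLinearMap.sub_apply, ContinuousLinearMap.one_apply, ContinuousLinearMap.mul_apply,
    ContinuousLinearMap.algebraMap_apply, Complex.coe_smul, map_smul,
    ContinuousLinearMap.map_smul_of_tower]
  module

theorem IsSpec.eigen_of_atom {H : E →L[ℂ] E} (hH : IsSelfAdjoint H) {ψ : E} {μ : Measure ℝ}
    (h : IsSpec H ψ μ) {e : ℝ} (he : μ {e} ≠ 0) : ∃ φ : E, φ ≠ 0 ∧ H φ = (e : ℂ) • φ := by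
  haveI := h.1
  set b := bump ‖H‖ e with hb
  set B := aeval H b with hB
  set a : ℕ → ℝ := fun n => ∫ x, b.eval x ^ n ∂μ with ha
  have hlim : Tendsto a atTop (𝓝 (μ.real {e})) := h.bump_tendsto e
  set φ : ℕ → E := fun j => (B ^ j) ψ with hφ
  have hint : ∀ n : ℕ, Integrable (fun x : ℝ => b.eval x ^ n) μ := by
    intro n
    simpa using (h.poly (b ^ n)).1
  have hdiff : ∀ j l, ‖φ j - φ l‖ ^ 2 = a (2 * j) - 2 * a (j + l) + a (2 * l) := by
    intro j l
    have h1 := h.poly_sq hH (b ^ j - b ^ l)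
    rw [map_sub, map_pow, map_pow, ContinuousLinearMap.sub_apply] at h1
    rw [← h1]
    have h2 : ∀ x : ℝ, (b ^ j - b ^ l).eval x ^ 2 =
        b.eval x ^ (2 * j) - 2 * b.eval x ^ (j + l) + b.eval x ^ (2 * l) := by
      intro x
      simp only [eval_sub, eval_pow]
      ring
    simp only [h2]
    have i1 : Integrable (fun x : ℝ => b.eval x ^ (2 * j) - 2 * b.eval x ^ (j + l)) μ :=
      (hint _).sub ((hint _).const_mul 2)
    rw [integral_add i1 (hint _),
      integral_sub (hint _) ((hint _).const_mul 2), integral_const_mul]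
  have hnorm : ∀ j, ‖φ j‖ ^ 2 = a (2 * j) := by
    intro j
    have h1 := h.poly_sq hH (b ^ j)
    rw [map_pow] at h1
    rw [← h1]
    simp only [ha, eval_pow, ← pow_mul, mul_comm]
  have hcauchy : CauchySeq φ := by
    rw [Metric.cauchySeq_iff]
    intro ε hε
    obtain ⟨N, hN⟩ := Metric.tendsto_atTop.1 hlim (ε ^ 2 / 4) (by positivity)
    refine ⟨N, fun j hj l hl => ?_⟩
    rw [dist_eq_norm]
    have e1 := hN (2 * j) (by omega)
    have e2 := hN (j + l) (by omega)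
    have e3 := hN (2 * l) (by omega)
    rw [Real.dist_eq, abs_lt] at e1 e2 e3
    apply lt_of_pow_lt_pow_left₀ 2 hε.le
    rw [hdiff]
    linarith
  obtain ⟨φ0, hφ0⟩ := cauchySeq_tendsto_of_complete hcauchy
  have hn0 : ‖φ0‖ ^ 2 = μ.real {e} := by
    have h1 : Tendsto (fun j => ‖φ j‖ ^ 2) atTop (𝓝 (‖φ0‖ ^ 2)) := hφ0.norm.pow 2
    have h2 : Tendsto (fun j => a (2 * j)) atTop (𝓝 (μ.real {e})) :=
      hlim.comp (tendsto_atTop_mono (fun k => by simp only [id]; omega) tendsto_id)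
    simp only [hnorm] at h1
    exact tendsto_nhds_unique h1 h2
  have hfix : B φ0 = φ0 := by
    have h1 : Tendsto (fun j => B (φ j)) atTop (𝓝 (B φ0)) := (B.continuous.tendsto φ0).comp hφ0
    have h2 : Tendsto (fun j => φ (j + 1)) atTop (𝓝 φ0) := hφ0.comp (tendsto_add_atTop_nat 1)
    have h3 : (fun j => B (φ j)) = fun j => φ (j + 1) := by
      funext j
      simp only [hφ, pow_succ', ContinuousLinearMap.mul_apply]
    rw [h3] at h1
    exact tendsto_nhds_unique h1 h2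
  refine ⟨φ0, ?_, ?_⟩
  · intro h0
    rw [h0, norm_zero] at hn0
    apply he
    apply (measureReal_eq_zero_iff (measure_ne_top _ _)).1
    rw [← hn0]; ring
  · rw [hB, hb, aeval_bump_apply, sub_eq_self, smul_eq_zero] at hfix
    have hD : (0 : ℝ) < 1 / ((‖H‖ + |e|) ^ 2 + 1) := by positivity
    rcases hfix with h1 | h1
    · exact absurd (Complex.ofReal_eq_zero.1 h1) hD.ne'
    · set χ := H φ0 - (e : ℂ) • φ0 with hχ
      have h2 : ⟪χ, χ⟫_ℂ = 0 := by
        have h3 : ⟪χ, χ⟫_ℂ = ⟪φ0, H χ - (e : ℂ) • χ⟫_ℂ := by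
          have h4 : ⟪H φ0 - (e : ℂ) • φ0, χ⟫_ℂ = ⟪φ0, H χ - (e : ℂ) • χ⟫_ℂ := by
            clear_value χ
            rw [inner_sub_right, inner_smul_right, ← sa_inner hH, inner_sub_left, inner_smul_left,
              Complex.conj_ofReal]
          exact h4
        rw [h3, h1, inner_zero_right]
      rw [inner_self_eq_zero] at h2
      exact sub_eq_zero.1 h2

theorem IsSpec.atom_of_eigen {H : E →L[ℂ] E} (hH : IsSelfAdjoint H) {ψ : E} {μ : Measure ℝ}
    (h : IsSpec H ψ μ) {e : ℝ} {u : E} (hu : H u = (e : ℂ) • u) (hψ : ⟪u, ψ⟫_ℂ ≠ 0) :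
    μ {e} ≠ 0 := by
  haveI := h.1
  set b := bump ‖H‖ e with hb
  set B := aeval H b with hB
  have hlim := h.bump_tendsto e
  have hBu : B u = u := by
    rw [hB, hb, aeval_bump_apply, hu]
    simp
  have hBj : ∀ j : ℕ, (B ^ j) u = u := by
    intro j
    induction j with
    | zero => simp
    | succ j ih => rw [pow_succ, ContinuousLinearMap.mul_apply, hBu, ih]
  have hle : ∀ j : ℕ, ‖⟪u, ψ⟫_ℂ‖ ^ 2 ≤ ‖u‖ ^ 2 * ∫ x, b.eval x ^ (2 * j) ∂μ := by
    intro j
    have h1 := h.poly_sq hH (b ^ j)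
    rw [map_pow] at h1
    simp only [eval_pow, ← pow_mul, mul_comm j 2] at h1
    rw [h1, ← mul_pow]
    apply pow_le_pow_left₀ (norm_nonneg _)
    have h2 : ⟪u, ψ⟫_ℂ = ⟪u, (B ^ j) ψ⟫_ℂ := by
      rw [← sa_inner ((sa_aeval hH b).pow j), hBj]
    rw [h2]
    exact norm_inner_le_norm _ _
  have h2 : Tendsto (fun j : ℕ => ‖u‖ ^ 2 * ∫ x, b.eval x ^ (2 * j) ∂μ) atTop
      (𝓝 (‖u‖ ^ 2 * μ.real {e})) :=
    (hlim.comp (tendsto_atTop_mono (fun k => by simp only [id]; omega) tendsto_id)).const_mul _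
  have h3 := ge_of_tendsto' h2 hle
  intro h0
  rw [measureReal_def, h0] at h3
  have h4 : 0 < ‖⟪u, ψ⟫_ℂ‖ ^ 2 := by positivity
  simp at h3
  exact hψ h3

end Pool.Agent.H1Z.LP
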